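import Pool.Agent.K3h84.PC.PM

/-!
# The Bessel inequality for the masses of the form factor near points
-/

set_option autoImplicit false

open MeasureTheory Set Filter Topology

namespace Pool.Agent.K3h84.PC

open Pool.Agent.Y749.Rig (Fr Fr_nonneg Fr_cont one_lt_log near0)

lemma low_G {W T h : ℝ} (hT : 10 ≤ T) (hW : 0 < W) (hWL : W ≤ Real.log T) (hh : 0 < h) (θ : ℝ) :
    (1 - W ^ 2 / Real.log T ^ 2) * (W * Real.exp (-(2 * W * h)) * M h T θ) ≤ G W T θ := by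
  have hL := one_lt_log (show 3 ≤ T by linarith)
  have hLp : 0 < Real.log T := by linarith
  have h1 : W ^ 2 / Real.log T ^ 2 ≤ 1 := by
    rw [div_le_one (by positivity)]
    exact pow_le_pow_left₀ hW.le hWL 2
  rw [G_conv hT hW]
  have h2 := mul_le_mul_of_nonneg_left (low_I hT hW hh θ)
    (show 0 ≤ 1 - W ^ 2 / Real.log T ^ 2 by linarith)
  have h3 := Fr_nonneg hT θ
  have h4 : 0 ≤ W ^ 2 / Real.log T ^ 2 * Fr T θ := by positivity
  linarith

/-- the error term -/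
noncomputable def er (W h' T : ℝ) : ℝ :=
  W / Real.log T ^ 2 * Fr T 0 + 2 * Real.exp (-(W * h')) * G (W / 2) T 0 / W

lemma er_nonneg {W h' T : ℝ} (hT : 10 ≤ T) (hW : 0 < W) : 0 ≤ er W h' T := by
  have h1 := Fr_nonneg hT 0
  have h2 := G_nonneg hT (by positivity : 0 < W / 2) 0
  unfold er
  positivity

lemma up_G {W T h' : ℝ} (hT : 10 ≤ T) (hW : 0 < W) (hh : 0 < h') (θ : ℝ) :
    G W T θ ≤ W * (M h' T θ + er W h' T) := by
  have hL := one_lt_log (show 3 ≤ T by linarith)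
  have hLp : 0 < Real.log T := by linarith
  rw [G_conv hT hW]
  have h1 : Fr T θ ≤ Fr T 0 := by
    rw [← G_log, ← G_log]
    exact G_le_zero hT hLp θ
  have h2 := up_I hT hW hh θ
  have h3 := I_nonneg hT hW θ
  have h4 : 0 ≤ W ^ 2 / Real.log T ^ 2 := by positivity
  have h5 : W ^ 2 / Real.log T ^ 2 * Fr T θ ≤ W ^ 2 / Real.log T ^ 2 * Fr T 0 :=
    mul_le_mul_of_nonneg_left h1 h4
  have h6 : (1 - W ^ 2 / Real.log T ^ 2) * I W T θ ≤ I W T θ := by nlinarith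
  have h7 : W * (M h' T θ + er W h' T) = W ^ 2 / Real.log T ^ 2 * Fr T 0 + (W * M h' T θ +
      2 * Real.exp (-(W * h')) * G (W / 2) T 0) := by
    unfold er
    field_simp
    ring
  rw [h7]
  linarith

/-- the inequality before the limit -/
theorem mass_bessel {W T h h' : ℝ} (hT : 10 ≤ T) (hW : 0 < W) (hWL : W ≤ Real.log T) (hh : 0 < h)
    (hh' : 0 < h') (A : Finset ℝ) :
    (1 - W ^ 2 / Real.log T ^ 2) * Real.exp (-(2 * W * h)) * ∑ θ ∈ A, M h T θ ≤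
      (M h' T 0 + er W h' T) + Real.sqrt ((M h' T 0 + er W h' T) *
        ∑ p ∈ A.offDiag, (M h' T (p.1 - p.2) + er W h' T)) := by
  have h1 := G_bessel hT hW A (fun θ => θ)
  have h2 : W * ((1 - W ^ 2 / Real.log T ^ 2) * Real.exp (-(2 * W * h)) * ∑ θ ∈ A, M h T θ) ≤
      ∑ θ ∈ A, G W T θ := by
    rw [Finset.mul_sum, Finset.mul_sum]
    refine Finset.sum_le_sum fun θ _ => ?_
    have := low_G hT hW hWL hh θ
    linarith
  have hx0 : 0 ≤ M h' T 0 + er W h' T :=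
    add_nonneg (M_nonneg hT hh'.le 0) (er_nonneg hT hW)
  have h3 : ∑ p ∈ A.offDiag, G W T (p.1 - p.2) ≤
      W * ∑ p ∈ A.offDiag, (M h' T (p.1 - p.2) + er W h' T) := by
    rw [Finset.mul_sum]
    exact Finset.sum_le_sum fun p _ => up_G hT hW hh' _
  have h4 : 0 ≤ ∑ p ∈ A.offDiag, G W T (p.1 - p.2) :=
    Finset.sum_nonneg fun p _ => G_nonneg hT hW _
  have h5 : Real.sqrt (G W T 0 * ∑ p ∈ A.offDiag, G W T (p.1 - p.2)) ≤
      W * Real.sqrt ((M h' T 0 + er W h' T) *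
        ∑ p ∈ A.offDiag, (M h' T (p.1 - p.2) + er W h' T)) := by
    rw [← Real.sqrt_sq hW.le, ← Real.sqrt_mul (sq_nonneg W)]
    apply Real.sqrt_le_sqrt
    rw [Real.sqrt_sq hW.le]
    have h6 := up_G hT hW hh' 0
    calc G W T 0 * ∑ p ∈ A.offDiag, G W T (p.1 - p.2) ≤ (W * (M h' T 0 + er W h' T)) *
        (W * ∑ p ∈ A.offDiag, (M h' T (p.1 - p.2) + er W h' T)) :=
          mul_le_mul h6 h3 h4 (mul_nonneg hW.le hx0)
      _ = _ := by ring
  have h6 := up_G hT hW hh' 0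
  have h7 : W * ((1 - W ^ 2 / Real.log T ^ 2) * Real.exp (-(2 * W * h)) * ∑ θ ∈ A, M h T θ) ≤
      W * ((M h' T 0 + er W h' T) + Real.sqrt ((M h' T 0 + er W h' T) *
        ∑ p ∈ A.offDiag, (M h' T (p.1 - p.2) + er W h' T))) := by
    rw [mul_add]
    linarith
  exact le_of_mul_le_mul_left h7 hW

lemma M_bdd : ∃ C : ℝ, 0 < C ∧ ∀ᶠ T in atTop, ∀ h θ : ℝ, 0 ≤ h → h ≤ 1 → M h T θ ≤ C := by
  obtain ⟨C, hC, hG⟩ := G0_bdd
  refine ⟨2 * C * Real.exp 2, by positivity, ?_⟩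
  filter_upwards [hG, eventually_ge_atTop 10] with T hT hT10 h θ h0 h1
  have h2 := M_mono hT10 h0 h1 θ
  have h3 := low_I hT10 one_pos one_pos θ
  have h4 := I_le (T := T) one_pos θ
  have h5 := hT 1 one_pos
  have h6 : Real.exp (-2) * M 1 T θ ≤ 2 * C := by
    have e : (1 : ℝ) * Real.exp (-(2 * 1 * 1)) * M 1 T θ = Real.exp (-2) * M 1 T θ := by
      rw [one_mul]
      norm_num
    rw [e] at h3
    linarith
  have h7 : M 1 T θ = Real.exp 2 * (Real.exp (-2) * M 1 T θ) := by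
    rw [← mul_assoc, ← Real.exp_add]
    norm_num
  rw [h7] at h2
  calc M h T θ ≤ Real.exp 2 * (Real.exp (-2) * M 1 T θ) := h2
    _ ≤ Real.exp 2 * (2 * C) := mul_le_mul_of_nonneg_left h6 (Real.exp_pos _).le
    _ = _ := by ring

lemma tau_small (C : ℝ) {h' κ : ℝ} (hh' : 0 < h') (hκ : 0 < κ) :
    ∃ W : ℝ, 1 ≤ W ∧ 2 * Real.exp (-(W * h')) * (C * (1 + (W / 2) ^ 2)) / W ≤ κ := by
  have h1 : Tendsto (fun W : ℝ => W ^ 2 * Real.exp (-(h' * W))) atTop (𝓝 0) := by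
    have := Real.tendsto_pow_mul_exp_neg_atTop_nhds_zero 2
    have h2 := this.comp (tendsto_id.const_mul_atTop hh')
    have h3 := h2.const_mul (1 / h' ^ 2)
    rw [mul_zero] at h3
    refine h3.congr fun W => ?_
    simp only [Function.comp, id]
    field_simp
  have h2 := h1.const_mul (4 * |C|)
  rw [mul_zero] at h2
  obtain ⟨W, hW1, hW2⟩ := ((eventually_ge_atTop 1).and
    (h2.eventually (ge_mem_nhds hκ))).exists
  refine ⟨W, hW1, ?_⟩
  have hW0 : 0 < W := by linarith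
  rw [div_le_iff₀ hW0]
  have h3 : C * (1 + (W / 2) ^ 2) ≤ |C| * (2 * W ^ 2) := by
    calc C * (1 + (W / 2) ^ 2) ≤ |C| * (1 + (W / 2) ^ 2) :=
          mul_le_mul_of_nonneg_right (le_abs_self C) (by positivity)
      _ ≤ |C| * (2 * W ^ 2) := by
          apply mul_le_mul_of_nonneg_left _ (abs_nonneg C)
          nlinarith
  calc 2 * Real.exp (-(W * h')) * (C * (1 + (W / 2) ^ 2)) ≤
      2 * Real.exp (-(W * h')) * (|C| * (2 * W ^ 2)) := by gcongr
    _ = 4 * |C| * (W ^ 2 * Real.exp (-(h' * W))) := by rw [mul_comm W h']; ring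
    _ ≤ κ := hW2
    _ ≤ κ * W := by nlinarith

/-- **The Bessel inequality for the masses.** -/
theorem mass_main (RH : RiemannHypothesis) (N : ℕ) {η h' : ℝ} (hη : 0 < η) (hh' : 0 < h') :
    ∃ h : ℝ, 0 < h ∧ h ≤ h' ∧ ∀ᶠ T in atTop, ∀ A : Finset ℝ, A.card ≤ N →
      ∑ θ ∈ A, M h T θ ≤ 1 + η + Real.sqrt (∑ p ∈ A.offDiag, M h' T (p.1 - p.2)) := by
  obtain ⟨C, hC, hG⟩ := G0_bdd
  obtain ⟨C1, hC1, hM⟩ := M_bdd
  obtain ⟨K, hK⟩ : ∃ K : ℝ, K = N ^ 2 * (7 * C1 + 8) + 1 := ⟨_, rfl⟩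
  have hK0 : 0 < K := by rw [hK]; positivity
  obtain ⟨κ, hκ⟩ : ∃ κ : ℝ, κ = min (1 / 2) (min (η / 8) ((η / 2) ^ 2 / K)) := ⟨_, rfl⟩
  have hκ0 : 0 < κ := by
    rw [hκ]
    exact lt_min (by norm_num) (lt_min (by positivity) (by positivity))
  have hκ1 : κ ≤ 1 / 2 := by rw [hκ]; exact min_le_left _ _
  have hκ2 : κ ≤ η / 8 := by rw [hκ]; exact (min_le_right _ _).trans (min_le_left _ _)
  have hκ3 : κ * K ≤ (η / 2) ^ 2 := by
    have : κ ≤ (η / 2) ^ 2 / K := by rw [hκ]; exact (min_le_right _ _).trans (min_le_right _ _)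
    rwa [le_div_iff₀ hK0] at this
  obtain ⟨δ0, hδ0, hnear⟩ := near0 RH (by positivity : 0 < κ / 4)
  obtain ⟨k, hk⟩ : ∃ k : ℝ, k = min h' (min δ0 1) := ⟨_, rfl⟩
  have hk0 : 0 < k := by rw [hk]; exact lt_min hh' (lt_min hδ0 one_pos)
  have hkh : k ≤ h' := by rw [hk]; exact min_le_left _ _
  have hkδ : k ≤ δ0 := by rw [hk]; exact (min_le_right _ _).trans (min_le_left _ _)
  have hk1 : k ≤ 1 := by rw [hk]; exact (min_le_right _ _).trans (min_le_right _ _)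
  obtain ⟨W, hW1, hW2⟩ := tau_small C hk0 (by positivity : 0 < κ / 4)
  have hW0 : 0 < W := by linarith
  -- the width
  obtain ⟨h, hh0, hhk, hexp⟩ : ∃ h : ℝ, 0 < h ∧ h ≤ h' ∧ 1 - κ / 8 ≤ Real.exp (-(2 * W * h)) := by
    refine ⟨min h' (κ / (16 * W)), lt_min hh' (by positivity), min_le_left _ _, ?_⟩
    have h1 : 2 * W * min h' (κ / (16 * W)) ≤ κ / 8 := by
      calc 2 * W * min h' (κ / (16 * W)) ≤ 2 * W * (κ / (16 * W)) :=
            mul_le_mul_of_nonneg_left (min_le_right _ _) (by positivity)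
        _ = κ / 8 := by field_simp; norm_num
    have h2 := Real.add_one_le_exp (-(2 * W * min h' (κ / (16 * W))))
    linarith
  refine ⟨h, hh0, hhk, ?_⟩
  have e1 : ∀ᶠ T : ℝ in atTop, W ^ 2 / Real.log T ^ 2 ≤ κ / 8 := by
    have h1 : Tendsto (fun T : ℝ => W ^ 2 / Real.log T ^ 2) atTop (𝓝 0) :=
      Tendsto.const_div_atTop ((tendsto_pow_atTop two_ne_zero).comp Real.tendsto_log_atTop) _
    exact h1.eventually (ge_mem_nhds (by positivity))
  have e2 : ∀ᶠ T : ℝ in atTop, W / Real.log T ^ 2 * (2 * Real.log T) ≤ κ / 4 := by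
    have h1 : Tendsto (fun T : ℝ => 2 * W / Real.log T) atTop (𝓝 0) :=
      Tendsto.const_div_atTop Real.tendsto_log_atTop _
    filter_upwards [h1.eventually (ge_mem_nhds (by positivity : 0 < κ / 4)),
      eventually_ge_atTop 10] with T hT hT10
    have hL : 0 < Real.log T := Real.log_pos (by linarith)
    calc W / Real.log T ^ 2 * (2 * Real.log T) = 2 * W / Real.log T := by field_simp
      _ ≤ κ / 4 := hT
  filter_upwards [hG, hM, hnear k hk0 hkδ, F0_le RH one_pos, e1, e2,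
    Real.tendsto_log_atTop.eventually_ge_atTop W, eventually_ge_atTop 10] with T h1 h2 h3 h4 h5 h6
    hWL hT A hA
  have hL : 0 < Real.log T := Real.log_pos (by linarith)
  -- the error term
  have her : er W k T ≤ κ / 2 := by
    unfold er
    have a1 : W / Real.log T ^ 2 * Fr T 0 ≤ κ / 4 := by
      refine le_trans ?_ h6
      apply mul_le_mul_of_nonneg_left _ (by positivity)
      linarith
    have a2 : 2 * Real.exp (-(W * k)) * G (W / 2) T 0 / W ≤ κ / 4 := by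
      refine le_trans ?_ hW2
      have := h1 (W / 2) (by positivity)
      gcongr
    linarith
  have her0 : 0 ≤ er W k T := er_nonneg hT hW0
  have hM0 : M k T 0 ≤ 1 + κ / 4 := by
    unfold M
    rw [zero_sub, zero_add]
    exact h3
  have hM00 : 0 ≤ M k T 0 := M_nonneg hT hk0.le 0
  have hb := mass_bessel hT hW0 hWL hh0 hk0 A
  -- simplify
  obtain ⟨X, hX⟩ : ∃ X : ℝ, X = ∑ θ ∈ A, M h T θ := ⟨_, rfl⟩
  obtain ⟨B, hB⟩ : ∃ B : ℝ, B = ∑ p ∈ A.offDiag, M k T (p.1 - p.2) := ⟨_, rfl⟩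
  have hX0 : 0 ≤ X := by
    rw [hX]
    exact Finset.sum_nonneg fun θ _ => M_nonneg hT hh0.le θ
  have hB0 : 0 ≤ B := by
    rw [hB]
    exact Finset.sum_nonneg fun p _ => M_nonneg hT hk0.le _
  have hoff : (A.offDiag.card : ℝ) ≤ N ^ 2 := by
    have h8 : A.offDiag.card ≤ N ^ 2 := by
      rw [Finset.offDiag_card]
      calc A.card * A.card - A.card ≤ A.card * A.card := Nat.sub_le _ _
        _ ≤ N * N := Nat.mul_le_mul hA hA
        _ = N ^ 2 := (sq N).symm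
    exact_mod_cast h8
  have hBC : B ≤ N ^ 2 * C1 := by
    rw [hB]
    calc ∑ p ∈ A.offDiag, M k T (p.1 - p.2) ≤ ∑ p ∈ A.offDiag, C1 :=
          Finset.sum_le_sum fun p _ => h2 k _ hk0.le hk1
      _ = A.offDiag.card * C1 := by rw [Finset.sum_const, nsmul_eq_mul]
      _ ≤ N ^ 2 * C1 := mul_le_mul_of_nonneg_right hoff hC1.le
  have hS : ∑ p ∈ A.offDiag, (M k T (p.1 - p.2) + er W k T) ≤ B + N ^ 2 * κ := by
    rw [Finset.sum_add_distrib, ← hB, Finset.sum_const, nsmul_eq_mul]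
    have : (A.offDiag.card : ℝ) * er W k T ≤ N ^ 2 * κ :=
      mul_le_mul hoff (by linarith) her0 (by positivity)
    linarith
  have hS0 : 0 ≤ ∑ p ∈ A.offDiag, (M k T (p.1 - p.2) + er W k T) :=
    Finset.sum_nonneg fun p _ => add_nonneg (M_nonneg hT hk0.le _) her0
  rw [← hX] at hb
  have h9 : (1 - κ / 4) * X ≤ (1 - W ^ 2 / Real.log T ^ 2) * Real.exp (-(2 * W * h)) * X := by
    apply mul_le_mul_of_nonneg_right _ hX0
    have a1 : 1 - κ / 8 ≤ 1 - W ^ 2 / Real.log T ^ 2 := by linarith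
    have a2 : (1 - κ / 8) * (1 - κ / 8) ≤
        (1 - W ^ 2 / Real.log T ^ 2) * Real.exp (-(2 * W * h)) :=
      mul_le_mul a1 hexp (by linarith) (by linarith)
    nlinarith
  have h10 : (1 - κ / 4) * X ≤ (1 + κ) + Real.sqrt ((1 + κ) * (B + N ^ 2 * κ)) := by
    refine h9.trans (hb.trans ?_)
    have a1 : M k T 0 + er W k T ≤ 1 + κ := by linarith
    have a0 : 0 ≤ M k T 0 + er W k T := by linarith
    gcongr
  have h11 : X ≤ (1 + κ) * ((1 + κ) + Real.sqrt ((1 + κ) * (B + N ^ 2 * κ))) := by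
    have a1 : X ≤ (1 + κ) * ((1 - κ / 4) * X) := by
      have : 1 ≤ (1 + κ) * (1 - κ / 4) := by nlinarith
      calc X = 1 * X := (one_mul X).symm
        _ ≤ ((1 + κ) * (1 - κ / 4)) * X := mul_le_mul_of_nonneg_right this hX0
        _ = _ := by ring
    exact a1.trans (mul_le_mul_of_nonneg_left h10 (by linarith))
  have h12 : (1 + κ) * Real.sqrt ((1 + κ) * (B + N ^ 2 * κ)) ≤ Real.sqrt B + η / 2 := by
    have a1 : 0 ≤ (1 + κ) * Real.sqrt ((1 + κ) * (B + N ^ 2 * κ)) := by positivity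
    apply le_of_sq_le_sq _ (by positivity)
    have a2 : ((1 + κ) * Real.sqrt ((1 + κ) * (B + N ^ 2 * κ))) ^ 2 =
        (1 + κ) ^ 3 * (B + N ^ 2 * κ) := by
      rw [mul_pow, Real.sq_sqrt (by positivity)]
      ring
    have a3 : (1 + κ) ^ 3 ≤ 1 + 7 * κ := by nlinarith [sq_nonneg κ, mul_nonneg hκ0.le hκ0.le]
    have a4 : (1 + κ) ^ 3 * (B + N ^ 2 * κ) ≤ B + κ * K := by
      have a5 : (1 + 7 * κ) ≤ 8 := by linarith
      have a6 : (1 + κ) ^ 3 * (B + N ^ 2 * κ) ≤ (1 + 7 * κ) * B + 8 * (N ^ 2 * κ) := by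
        have b1 : (1 + κ) ^ 3 * B ≤ (1 + 7 * κ) * B := mul_le_mul_of_nonneg_right a3 hB0
        have b2 : (1 + κ) ^ 3 * (N ^ 2 * κ) ≤ 8 * (N ^ 2 * κ) :=
          mul_le_mul_of_nonneg_right (a3.trans a5) (by positivity)
        rw [mul_add]
        linarith
      have a7 : 7 * κ * B ≤ 7 * κ * (N ^ 2 * C1) := mul_le_mul_of_nonneg_left hBC (by positivity)
      rw [hK]
      nlinarith
    rw [a2]
    have a8 : (Real.sqrt B + η / 2) ^ 2 = B + Real.sqrt B * η + (η / 2) ^ 2 := by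
      rw [add_sq, Real.sq_sqrt hB0]
      ring
    rw [a8]
    have a9 : 0 ≤ Real.sqrt B * η := by positivity
    linarith
  have h13 : Real.sqrt B ≤ Real.sqrt (∑ p ∈ A.offDiag, M h' T (p.1 - p.2)) := by
    apply Real.sqrt_le_sqrt
    rw [hB]
    exact Finset.sum_le_sum fun p _ => M_mono hT hk0.le hkh _
  have h14 : (1 + κ) * (1 + κ) ≤ 1 + η / 2 := by nlinarith
  rw [← hX]
  rw [mul_add] at h11
  linarith

/-- sets with separated elements are small -/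
lemma card_sep {ε : ℝ} (hε : 0 < ε) {A : Finset ℝ}
    (hA : ∀ α ∈ A, ∀ β ∈ A, α ≠ β → ε ≤ |α - β| ∧ |α - β| ≤ 1) : A.card ≤ ⌊1 / ε⌋₊ + 1 := by
  rcases A.eq_empty_or_nonempty with rfl | hne
  · simp
  have hinj : ∀ α ∈ A, ⌊(α - A.min' hne) / ε⌋₊ ∈ Finset.range (⌊1 / ε⌋₊ + 1) := by
    intro α hα
    rw [Finset.mem_range, Nat.lt_succ_iff]
    apply Nat.floor_le_floor
    have h3 : α - A.min' hne ≤ 1 := by
      rcases eq_or_ne α (A.min' hne) with h | h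
      · rw [← h, sub_self]
        norm_num
      · have := (hA α hα _ (A.min'_mem hne) h).2
        have := le_abs_self (α - A.min' hne)
        linarith
    gcongr
  have h4 := Finset.card_le_card_of_injOn (s := A) (t := Finset.range (⌊1 / ε⌋₊ + 1))
    (fun α => ⌊(α - A.min' hne) / ε⌋₊) hinj ?_
  · rwa [Finset.card_range] at h4
  · intro α hα β hβ hab
    by_contra hne'
    simp only at hab
    have h5 : ∀ x ∈ A, 0 ≤ (x - A.min' hne) / ε := fun x hx =>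
      div_nonneg (sub_nonneg.2 (A.min'_le x hx)) hε.le
    have h6 : |(α - A.min' hne) / ε - (β - A.min' hne) / ε| < 1 := by
      have a1 := Nat.floor_le (h5 α hα)
      have a2 := Nat.lt_floor_add_one ((α - A.min' hne) / ε)
      have a3 := Nat.floor_le (h5 β hβ)
      have a4 := Nat.lt_floor_add_one ((β - A.min' hne) / ε)
      rw [hab] at a1 a2
      rw [abs_lt]
      constructor <;> linarith
    rw [← sub_div, sub_sub_sub_cancel_right, abs_div, abs_of_pos hε, div_lt_one hε] at h6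
    have := (hA α hα β hβ hne').1
    linarith

/-- separated points -/
theorem mass_sep (RH : RiemannHypothesis) {ε η : ℝ} (hε : 0 < ε) (hη : 0 < η) :
    ∃ h : ℝ, 0 < h ∧ ∀ᶠ T in atTop, ∀ A : Finset ℝ,
      (∀ α ∈ A, ∀ β ∈ A, α ≠ β → ε ≤ |α - β| ∧ |α - β| ≤ 1 - ε) → ∑ θ ∈ A, M h T θ ≤ 1 + η := by
  obtain ⟨N, hN⟩ : ∃ N : ℕ, N = ⌊1 / ε⌋₊ + 1 := ⟨_, rfl⟩
  have hN0 : (0 : ℝ) < N := by rw [hN]; positivity
  obtain ⟨h', hh'⟩ : ∃ h' : ℝ, h' = min (ε / 8) ((η / 2) ^ 2 / (16 * N ^ 2)) := ⟨_, rfl⟩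
  have hh0 : 0 < h' := by rw [hh']; exact lt_min (by positivity) (by positivity)
  have hh1 : h' ≤ ε / 8 := by rw [hh']; exact min_le_left _ _
  have hh2 : h' * (16 * N ^ 2) ≤ (η / 2) ^ 2 := by
    have : h' ≤ (η / 2) ^ 2 / (16 * N ^ 2) := by rw [hh']; exact min_le_right _ _
    rwa [le_div_iff₀ (by positivity)] at this
  obtain ⟨h, hh, -, hmain⟩ := mass_main RH N (by positivity : 0 < η / 2) hh0
  refine ⟨h, hh, ?_⟩
  filter_upwards [hmain, mass_mid RH hh0 (by linarith : 8 * h' ≤ ε)] with T h1 h2 A hA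
  have hcard : A.card ≤ N := by
    rw [hN]
    exact card_sep hε fun α hα β hβ hab => ⟨(hA α hα β hβ hab).1, by
      have := (hA α hα β hβ hab).2
      linarith⟩
  have h3 := h1 A hcard
  have h4 : ∑ p ∈ A.offDiag, M h' T (p.1 - p.2) ≤ (η / 2) ^ 2 := by
    calc ∑ p ∈ A.offDiag, M h' T (p.1 - p.2) ≤ ∑ p ∈ A.offDiag, 16 * h' := by
          refine Finset.sum_le_sum fun p hp => ?_
          rw [Finset.mem_offDiag] at hp
          have := hA p.1 hp.1 p.2 hp.2.1 hp.2.2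
          exact h2 _ this.1 this.2
      _ = A.offDiag.card * (16 * h') := by rw [Finset.sum_const, nsmul_eq_mul]
      _ ≤ N ^ 2 * (16 * h') := by
          apply mul_le_mul_of_nonneg_right _ (by positivity)
          have h8 : A.offDiag.card ≤ N ^ 2 := by
            rw [Finset.offDiag_card]
            calc A.card * A.card - A.card ≤ A.card * A.card := Nat.sub_le _ _
              _ ≤ N * N := Nat.mul_le_mul hcard hcard
              _ = N ^ 2 := (sq N).symm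
          exact_mod_cast h8
      _ ≤ _ := by linarith
  have h5 : Real.sqrt (∑ p ∈ A.offDiag, M h' T (p.1 - p.2)) ≤ η / 2 := by
    rw [← Real.sqrt_sq (by positivity : 0 ≤ η / 2)]
    exact Real.sqrt_le_sqrt h4
  linarith

/-- the structure of the point masses -/
theorem mass_struct (RH : RiemannHypothesis) {ε δ h₀ : ℝ} (hε : 0 < ε) (hδ : 0 < δ) (hh₀ : 0 < h₀) :
    ∃ h : ℝ, 0 < h ∧ ∀ᶠ T in atTop, ∀ A : Finset ℝ, 2 / δ ≤ (A.card : ℝ) →
      (∀ θ ∈ A, δ ≤ M h T θ) → ∃ α ∈ A, ∃ β ∈ A, α ≠ β ∧ δ ^ 2 / 5 ≤ M h₀ T (α - β) ∧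
        (|α - β| < ε ∨ 1 - ε < |α - β|) := by
  obtain ⟨n, hn⟩ : ∃ n : ℕ, n = ⌈2 / δ⌉₊ := ⟨_, rfl⟩
  obtain ⟨h', hh'⟩ : ∃ h' : ℝ, h' = min h₀ (min (ε / 8) (δ ^ 2 / 160)) := ⟨_, rfl⟩
  have hh0 : 0 < h' := by rw [hh']; exact lt_min hh₀ (lt_min (by positivity) (by positivity))
  have hh1 : h' ≤ ε / 8 := by rw [hh']; exact (min_le_right _ _).trans (min_le_left _ _)
  have hh2 : h' ≤ δ ^ 2 / 160 := by rw [hh']; exact (min_le_right _ _).trans (min_le_right _ _)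
  have hh3 : h' ≤ h₀ := by rw [hh']; exact min_le_left _ _
  obtain ⟨h, hh, -, hmain⟩ := mass_main RH n (by norm_num : (0 : ℝ) < 1 / 20) hh0
  refine ⟨h, hh, ?_⟩
  filter_upwards [hmain, mass_mid RH hh0 (by linarith : 8 * h' ≤ ε),
    eventually_ge_atTop 10] with T h1 h2 hT A hA1 hA2
  have hnA : n ≤ A.card := by
    rw [hn]
    exact Nat.ceil_le.2 hA1
  obtain ⟨B, hBA, hBn⟩ := Finset.exists_subset_card_eq hnA
  have hn1 : 2 / δ ≤ (n : ℝ) := by rw [hn]; exact Nat.le_ceil _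
  have hn0 : (0 : ℝ) < n := lt_of_lt_of_le (by positivity) hn1
  have hnδ : 2 ≤ n * δ := by
    rwa [div_le_iff₀ hδ] at hn1
  by_contra hcon
  push Not at hcon
  have key : ∀ p ∈ B.offDiag, M h' T (p.1 - p.2) ≤ δ ^ 2 / 5 := by
    intro p hp
    rw [Finset.mem_offDiag] at hp
    by_contra h
    push Not at h
    have h30 := M_mono hT hh0.le hh3 (p.1 - p.2)
    obtain ⟨h3, h4⟩ := hcon p.1 (hBA hp.1) p.2 (hBA hp.2.1) hp.2.2 (h.le.trans h30)
    have h5 := h2 (p.1 - p.2) h3 h4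
    have h6 : M h' T (p.1 - p.2) ≤ 16 * h' := h5
    nlinarith [pow_pos hδ 2]
  have hb := h1 B hBn.le
  have h3 : n * δ ≤ ∑ α ∈ B, M h T α := by
    rw [← hBn, ← nsmul_eq_mul]
    exact Finset.card_nsmul_le_sum B _ _ fun α hα => hA2 α (hBA hα)
  have h4 : ∑ p ∈ B.offDiag, M h' T (p.1 - p.2) ≤ n ^ 2 * (δ ^ 2 / 5) := by
    calc ∑ p ∈ B.offDiag, M h' T (p.1 - p.2) ≤ ∑ p ∈ B.offDiag, δ ^ 2 / 5 :=
          Finset.sum_le_sum key
      _ = B.offDiag.card * (δ ^ 2 / 5) := by rw [Finset.sum_const, nsmul_eq_mul]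
      _ ≤ n ^ 2 * (δ ^ 2 / 5) := by
          apply mul_le_mul_of_nonneg_right _ (by positivity)
          have h5 : B.offDiag.card ≤ n ^ 2 := by
            rw [Finset.offDiag_card, hBn, sq]
            exact Nat.sub_le _ _
          exact_mod_cast h5
  have h6 : Real.sqrt (∑ p ∈ B.offDiag, M h' T (p.1 - p.2)) ≤ 45 / 100 * (n * δ) := by
    apply Real.sqrt_le_iff.2
    refine ⟨by positivity, h4.trans ?_⟩
    nlinarith [sq_nonneg ((n : ℝ) * δ)]
  linarith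

end Pool.Agent.K3h84.PC
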