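import Pool.Agent.K3h54.LV.Zero

/-! The lower bound for the form factor at the origin (proof by helper54). -/

set_option autoImplicit false

open Filter Topology

namespace Pool.Agent.K3h84.PC

/-- The value at the origin is at least `(1 - η) log T` (unconditionally). -/
theorem F0_ge {η : ℝ} (hη : 0 < η) :
    ∀ᶠ T in atTop, (1 - η) * Real.log T ≤ Pool.Agent.Y749.Rig.Fr T 0 :=
  Pool.Agent.K3h54.LV.F0_ge hη

end Pool.Agent.K3h84.PC
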