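import Pool.Agent.K3h84.PC.Har
import Pool.Agent.Y749.AH.Mass

/-!
# The form factor at a scale, the Bessel inequality for the form factor
-/

set_option autoImplicit false

open MeasureTheory Set Filter Topology

namespace Pool.Agent.K3h84.PC

open Pool.Agent.Y749.Rig (Fr Mp ZZ mm nT RR ww nT_pos Mp_integral mm_nonneg one_lt_log Mp_fin Fr_pair fl
  Fr_nonneg Fr_cont Fr_even tr tr_cont tr_nonneg tr_supp tr_int adm_tr Fr_lim test_limRH fl_qd modu adm_modu
  cc int_tr near0 Adm)

/-- the form factor at the scale `V` -/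
noncomputable def G (V T θ : ℝ) : ℝ :=
  ∫ x, Real.cos (2 * Real.pi * θ * x) * ww (2 * Real.pi * x / V) ∂(Mp T)

lemma G_log (T θ : ℝ) : G (Real.log T) T θ = Fr T θ := rfl

lemma ww_wk (u : ℝ) : ww u = wk u := rfl

lemma G_eq {V T : ℝ} (hT : 10 ≤ T) (hV : 0 < V) (θ : ℝ) :
    G V T θ = Q (ZZ T) mm (fun s => s.im * (Real.log T / V)) (θ * V) / nT T := by
  have hpi := Real.pi_pos
  unfold G
  rw [Mp_integral hT (fun x => Real.cos (2 * Real.pi * θ * x) * ww (2 * Real.pi * x / V))]
  congr 1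
  unfold RR Q
  refine Finset.sum_congr rfl fun s _ => Finset.sum_congr rfl fun s' _ => ?_
  simp only [ww_wk]
  have e1 : 2 * Real.pi * θ * ((s.im - s'.im) * Real.log T / (2 * Real.pi)) =
      θ * V * (s.im * (Real.log T / V) - s'.im * (Real.log T / V)) := by field_simp
  have e2 : 2 * Real.pi * ((s.im - s'.im) * Real.log T / (2 * Real.pi)) / V =
      s.im * (Real.log T / V) - s'.im * (Real.log T / V) := by field_simp
  rw [e1, e2]

lemma G_nonneg {V T : ℝ} (hT : 10 ≤ T) (hV : 0 < V) (θ : ℝ) : 0 ≤ G V T θ := by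
  rw [G_eq hT hV]
  exact div_nonneg (Q_nonneg _ _ _ _) (nT_pos hT).le

lemma G_le_zero {V T : ℝ} (hT : 10 ≤ T) (hV : 0 < V) (θ : ℝ) : G V T θ ≤ G V T 0 := by
  rw [G_eq hT hV, G_eq hT hV, zero_mul]
  exact div_le_div_of_nonneg_right (Q_le_zero _ _ _ (fun _ _ => mm_nonneg _) _) (nT_pos hT).le

/-- **The Bessel inequality for the form factor.** -/
theorem G_bessel {κ : Type*} [DecidableEq κ] {V T : ℝ} (hT : 10 ≤ T) (hV : 0 < V) (J : Finset κ)
    (θ : κ → ℝ) : ∑ j ∈ J, G V T (θ j) ≤ G V T 0 +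
      Real.sqrt (G V T 0 * ∑ p ∈ J.offDiag, G V T (θ p.1 - θ p.2)) := by
  have hn := nT_pos hT
  have h := bessel_Q (ZZ T) mm (fun s => s.im * (Real.log T / V)) (fun _ _ => mm_nonneg _) J
    (fun j => θ j * V)
  have h1 : ∀ x, G V T x = Q (ZZ T) mm (fun s => s.im * (Real.log T / V)) (x * V) / nT T :=
    fun x => G_eq hT hV x
  simp_rw [h1]
  rw [← Finset.sum_div, ← Finset.sum_div, zero_mul]
  have h2 : ∀ x y : ℝ, Real.sqrt (x / nT T * (y / nT T)) = Real.sqrt (x * y) / nT T := by
    intro x y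
    rw [show x / nT T * (y / nT T) = x * y / (nT T * nT T) by field_simp,
      Real.sqrt_div' _ (by positivity), Real.sqrt_mul_self hn.le]
  rw [h2, ← add_div]
  refine div_le_div_of_nonneg_right ?_ hn.le
  have h3 : ∀ p : κ × κ, (θ p.1 - θ p.2) * V = θ p.1 * V - θ p.2 * V := fun p => by ring
  simp_rw [h3]
  exact h

/-- the Harnack inequality for the form factor -/
lemma harn {T : ℝ} (hT : 10 ≤ T) (α β : ℝ) :
    Real.exp (-(2 * Real.log T * |β - α|)) * Fr T α ≤ Fr T β := by
  have hn := nT_pos hT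
  have hL := one_lt_log (show 3 ≤ T by linarith)
  have hLp : 0 < Real.log T := by linarith
  rw [← G_log, ← G_log, G_eq hT hLp, G_eq hT hLp, ← mul_div_assoc]
  refine div_le_div_of_nonneg_right ?_ hn.le
  have h := harnack (ZZ T) mm (fun s => s.im * (Real.log T / Real.log T)) (α * Real.log T)
    ((β - α) * Real.log T)
  rw [show α * Real.log T + (β - α) * Real.log T = β * Real.log T by ring, abs_mul,
    abs_of_pos hLp] at h
  rw [show 2 * Real.log T * |β - α| = 2 * (|β - α| * Real.log T) by ring]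
  exact h

lemma exp_half {L δ : ℝ} (hL : 0 < L) (θ : ℝ) :
    ∫ α in θ..(θ + δ), Real.exp (-(2 * L * (α - θ))) = (1 - Real.exp (-(2 * L * δ))) / (2 * L) := by
  have h : ∀ α ∈ uIcc θ (θ + δ), HasDerivAt (fun α : ℝ => -Real.exp (-(2 * L * (α - θ))) / (2 * L))
      (Real.exp (-(2 * L * (α - θ)))) α := by
    intro α _
    have h1 : HasDerivAt (fun α : ℝ => -(2 * L * (α - θ))) (-(2 * L * 1)) α :=
      (((hasDerivAt_id α).sub_const θ).const_mul (2 * L)).neg
    have h2 := (h1.exp.neg).div_const (2 * L)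
    refine h2.congr_deriv ?_
    field_simp
  rw [intervalIntegral.integral_eq_sub_of_hasDerivAt h
    (Continuous.intervalIntegrable (by fun_prop) _ _)]
  rw [sub_self, mul_zero, neg_zero, Real.exp_zero, add_sub_cancel_left]
  field_simp
  ring

/-- the mass near a point is at least the value divided by `log T` -/
lemma mass_low {T δ : ℝ} (hT : 10 ≤ T) (hδ : 0 < δ) (θ : ℝ) :
    Fr T θ * (1 - Real.exp (-(2 * Real.log T * δ))) / Real.log T ≤
      ∫ α in (θ - δ)..(θ + δ), Fr T α := by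
  have hL := one_lt_log (show 3 ≤ T by linarith)
  have hLp : 0 < Real.log T := by linarith
  have hc := Fr_cont T
  have h1 : ∀ θ : ℝ, Fr T θ * (1 - Real.exp (-(2 * Real.log T * δ))) / (2 * Real.log T) ≤
      ∫ α in θ..(θ + δ), Fr T α := by
    intro θ
    rw [mul_div_assoc, ← exp_half hLp θ, ← intervalIntegral.integral_const_mul]
    refine intervalIntegral.integral_mono_on (by linarith)
      (Continuous.intervalIntegrable (by fun_prop) _ _) (hc.intervalIntegrable _ _) fun α hα => ?_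
    have h2 := harn hT θ α
    rw [abs_of_nonneg (by linarith [hα.1])] at h2
    rwa [mul_comm]
  have h2 : Fr T θ * (1 - Real.exp (-(2 * Real.log T * δ))) / (2 * Real.log T) ≤
      ∫ α in (θ - δ)..θ, Fr T α := by
    have h3 := h1 (-θ)
    rw [Fr_even] at h3
    have h4 : ∫ α in (-θ)..(-θ + δ), Fr T α = ∫ α in (θ - δ)..θ, Fr T α := by
      have h5 := intervalIntegral.integral_comp_neg (a := -θ) (b := -θ + δ) (f := fun α => Fr T α)
      rw [neg_neg, show -(-θ + δ) = θ - δ by ring] at h5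
      rw [← h5]
      refine intervalIntegral.integral_congr fun α _ => ?_
      show Fr T α = Fr T (-α)
      rw [Fr_even]
    rwa [h4] at h3
  rw [← intervalIntegral.integral_add_adjacent_intervals (hc.intervalIntegrable (θ - δ) θ)
    (hc.intervalIntegrable θ (θ + δ))]
  have h3 := h1 θ
  have e : Fr T θ * (1 - Real.exp (-(2 * Real.log T * δ))) / Real.log T =
      Fr T θ * (1 - Real.exp (-(2 * Real.log T * δ))) / (2 * Real.log T) +
      Fr T θ * (1 - Real.exp (-(2 * Real.log T * δ))) / (2 * Real.log T) := by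
    field_simp
    ring
  rw [e]
  linarith

lemma exp_small {δ η : ℝ} (hδ : 0 < δ) (hη : 0 < η) :
    ∀ᶠ T : ℝ in atTop, Real.exp (-(2 * Real.log T * δ)) ≤ η := by
  have h1 : Tendsto (fun T : ℝ => Real.exp (-(2 * Real.log T * δ))) atTop (𝓝 0) := by
    refine Real.tendsto_exp_atBot.comp (tendsto_neg_atTop_atBot.comp ?_)
    exact (Real.tendsto_log_atTop.const_mul_atTop (by norm_num : (0 : ℝ) < 2)).atTop_mul_const hδ
  exact h1.eventually (ge_mem_nhds hη)

/-- the value at the origin -/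
theorem F0_le (RH : RiemannHypothesis) {η : ℝ} (hη : 0 < η) :
    ∀ᶠ T in atTop, Fr T 0 ≤ (1 + η) * Real.log T := by
  obtain ⟨k, hk⟩ : ∃ k : ℝ, k = min (1 / 4) (η / 4) := ⟨_, rfl⟩
  have hk0 : 0 < k := by rw [hk]; exact lt_min (by norm_num) (by positivity)
  have hk2 : k ≤ 1 / 4 := by rw [hk]; exact min_le_left _ _
  have hk4 : k ≤ η / 4 := by rw [hk]; exact min_le_right _ _
  obtain ⟨δ, hδ, h⟩ := near0 RH hk0
  filter_upwards [h δ hδ le_rfl, exp_small hδ hk0, eventually_ge_atTop 10] with T h1 h2 hT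
  have hL := one_lt_log (show 3 ≤ T by linarith)
  have hLp : 0 < Real.log T := by linarith
  have h3 := mass_low hT hδ 0
  rw [zero_sub, zero_add] at h3
  have h4 := h3.trans h1
  rw [div_le_iff₀ hLp] at h4
  have h5 := Fr_nonneg hT 0
  have h6 : Fr T 0 * (1 - k) ≤ (1 + k) * Real.log T := by
    refine le_trans ?_ h4
    apply mul_le_mul_of_nonneg_left _ h5
    linarith
  have h7 : (1 + k) ≤ (1 + η) * (1 - k) := by nlinarith
  have h8 : Fr T 0 * (1 - k) ≤ (1 + η) * Real.log T * (1 - k) := by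
    refine h6.trans ?_
    calc (1 + k) * Real.log T ≤ (1 + η) * (1 - k) * Real.log T :=
          mul_le_mul_of_nonneg_right h7 hLp.le
      _ = _ := by ring
  exact le_of_mul_le_mul_right h8 (by linarith)

/-- the pairing with the tent at a point between `0` and `1` -/
lemma tent_mid (RH : RiemannHypothesis) {c h : ℝ} (hh : 0 < h) (hc : h ≤ c) (hc1 : c + h < 1) :
    ∀ᶠ T in atTop, ∫ α, tr h (α - c) * Fr T α ≤ 2 := by
  have ha := adm_modu (adm_tr hh) c
  have hκ : h + |c| < 1 := by rw [abs_of_nonneg (by linarith)]; linarith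
  have hi : Integrable (modu c (tr h)) := ha.int
  have hlim := Fr_lim hi (fl_qd ha) le_rfl (test_limRH RH ha (by positivity) hκ)
  have hcc : cc (modu c (tr h)) ≤ 1 := by
    unfold cc
    have e0 : modu c (tr h) 0 = 0 := by
      unfold modu
      rw [zero_sub, zero_add, tr_supp hh (-c) (by rw [abs_neg, abs_of_nonneg (by linarith)]; exact hc),
        tr_supp hh c (by rw [abs_of_nonneg (by linarith)]; exact hc)]
      norm_num
    have hm0 : ∀ α, 0 ≤ modu c (tr h) α := by
      intro α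
      unfold modu
      have := tr_nonneg hh (α - c)
      have := tr_nonneg hh (α + c)
      positivity
    have e1 : ∫ α, |α| * modu c (tr h) α ≤ ∫ α, modu c (tr h) α := by
      refine integral_mono ?_ hi fun α => ?_
      · refine Continuous.integrable_of_hasCompactSupport ?_ ?_
        · have := ha.cont
          fun_prop
        · exact ha.hcs.mul_left
      · simp only
        rcases le_or_gt 1 |α| with h1 | h1
        · rw [ha.supp α (by linarith)]
          simp
        · exact mul_le_of_le_one_left (hm0 α) h1.le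
    have e2 : ∫ α, modu c (tr h) α = 1 := by
      unfold modu
      have i1 : Integrable fun α => tr h (α - c) := (tr_int hh).comp_sub_right c
      have i2 : Integrable fun α => tr h (α + c) := (tr_int hh).comp_add_right c
      rw [integral_div, integral_add i1 i2, integral_sub_right_eq_self (tr h) c,
        integral_add_right_eq_self (tr h) c, int_tr hh]
      norm_num
    rw [e0]
    linarith
  have hev := hlim.eventually (ge_mem_nhds (show cc (modu c (tr h)) < 2 by linarith))
  filter_upwards [hev] with T hT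
  rwa [Pool.Agent.Y749.AH.modu_pair (adm_tr hh)] at hT

/-- the mass near the points between `0` and `1` -/
theorem mass_mid (RH : RiemannHypothesis) {ε δ : ℝ} (hδ : 0 < δ) (hδε : 8 * δ ≤ ε) :
    ∀ᶠ T in atTop, ∀ θ : ℝ, ε ≤ |θ| → |θ| ≤ 1 - ε → ∫ α in (θ - δ)..(θ + δ), Fr T α ≤ 16 * δ := by
  have hε : 0 < ε := by linarith
  -- the grid
  have h1 : ∀ᶠ T in atTop, ∀ k ∈ Finset.range (⌊1 / δ⌋₊ + 1), ε ≤ (k : ℝ) * δ →
      (k : ℝ) * δ ≤ 1 - ε + δ → ∫ α, tr (4 * δ) (α - (k : ℝ) * δ) * Fr T α ≤ 2 := by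
    rw [Finset.eventually_all]
    intro k _
    by_cases h : ε ≤ (k : ℝ) * δ ∧ (k : ℝ) * δ ≤ 1 - ε + δ
    · have := tent_mid RH (c := (k : ℝ) * δ) (h := 4 * δ) (by linarith) (by linarith [h.1])
        (by linarith [h.2])
      filter_upwards [this] with T hT _ _
      exact hT
    · exact Eventually.of_forall fun T h2 h3 => absurd ⟨h2, h3⟩ h
  filter_upwards [h1, eventually_ge_atTop 10] with T hT hT10
  have hF0 := Fr_nonneg hT10
  have hFc := Fr_cont T
  have key : ∀ θ : ℝ, 0 ≤ θ → ε ≤ θ → θ ≤ 1 - ε → ∫ α in (θ - δ)..(θ + δ), Fr T α ≤ 16 * δ := by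
    intro θ h0 h1 h2
    set k := ⌈θ / δ⌉₊ with hk
    have hk1 : θ ≤ (k : ℝ) * δ := by
      have := Nat.le_ceil (θ / δ)
      rwa [div_le_iff₀ hδ] at this
    have hk2 : (k : ℝ) * δ ≤ θ + δ := by
      have := (Nat.ceil_lt_add_one (div_nonneg h0 hδ.le)).le
      have h3 : (k : ℝ) * δ ≤ (θ / δ + 1) * δ := mul_le_mul_of_nonneg_right this hδ.le
      have h4 : (θ / δ + 1) * δ = θ + δ := by field_simp
      linarith
    have hkr : k ∈ Finset.range (⌊1 / δ⌋₊ + 1) := by
      rw [Finset.mem_range, Nat.lt_succ_iff]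
      apply Nat.le_floor
      rw [le_div_iff₀ hδ]
      linarith
    have h3 := hT k hkr (by linarith) (by linarith)
    have h4 := Pool.Agent.Y749.AH.tent_low (θ := (k : ℝ) * δ) (h := 4 * δ) (δ := 2 * δ) (T := T)
      (by linarith) (by linarith) (by linarith) hT10
    have h5 : ∫ α in (θ - δ)..(θ + δ), Fr T α ≤
        ∫ α in ((k : ℝ) * δ - 2 * δ)..((k : ℝ) * δ + 2 * δ), Fr T α := by
      refine intervalIntegral.integral_mono_interval (by linarith) (by linarith) (by linarith)
        (ae_of_all _ fun α => hF0 α) (hFc.intervalIntegrable _ _)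
    have h6 : (1 - 2 * δ / (4 * δ)) / (4 * δ) = 1 / (8 * δ) := by
      field_simp
      norm_num
    rw [h6] at h4
    have h7 := h4.trans h3
    rw [div_mul_eq_mul_div, one_mul, div_le_iff₀ (by positivity)] at h7
    linarith
  intro θ h1 h2
  rcases le_total 0 θ with h | h
  · rw [abs_of_nonneg h] at h1 h2
    exact key θ h h1 h2
  · rw [abs_of_nonpos h] at h1 h2
    have h3 := key (-θ) (by linarith) h1 h2
    have h4 : ∫ α in (-θ - δ)..(-θ + δ), Fr T α = ∫ α in (θ - δ)..(θ + δ), Fr T α := by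
      have h5 := intervalIntegral.integral_comp_neg (a := -θ - δ) (b := -θ + δ) (f := fun α => Fr T α)
      rw [show -(-θ + δ) = θ - δ by ring, show -(-θ - δ) = θ + δ by ring] at h5
      rw [← h5]
      refine intervalIntegral.integral_congr fun α _ => ?_
      show Fr T α = Fr T (-α)
      rw [Fr_even]
    rwa [h4] at h3

/-- the values between `0` and `1` -/
theorem F_small (RH : RiemannHypothesis) {ε η : ℝ} (hε : 0 < ε) (hη : 0 < η) :
    ∀ᶠ T in atTop, ∀ θ : ℝ, ε ≤ |θ| → |θ| ≤ 1 - ε → Fr T θ ≤ η * Real.log T := by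
  obtain ⟨δ, hδ⟩ : ∃ δ : ℝ, δ = min (ε / 8) (η / 32) := ⟨_, rfl⟩
  have hδ0 : 0 < δ := by rw [hδ]; exact lt_min (by positivity) (by positivity)
  have hδ1 : δ ≤ ε / 8 := by rw [hδ]; exact min_le_left _ _
  have hδ2 : δ ≤ η / 32 := by rw [hδ]; exact min_le_right _ _
  filter_upwards [mass_mid RH hδ0 (by linarith : 8 * δ ≤ ε),
    exp_small hδ0 (by norm_num : (0 : ℝ) < 1 / 2), eventually_ge_atTop 10] with T h1 h2 hT θ h3 h4
  have hL := one_lt_log (show 3 ≤ T by linarith)
  have hLp : 0 < Real.log T := by linarith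
  have h5 := (mass_low hT hδ0 θ).trans (h1 θ h3 h4)
  rw [div_le_iff₀ hLp] at h5
  have h6 := Fr_nonneg hT θ
  have h7 : Fr T θ * (1 / 2) ≤ Fr T θ * (1 - Real.exp (-(2 * Real.log T * δ))) :=
    mul_le_mul_of_nonneg_left (by linarith) h6
  nlinarith

end Pool.Agent.K3h84.PC
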