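import Mathlib

/-!
# A Bessel inequality for weighted exponential sums

`Q A m g τ = ∑ m m' cos (τ (g - g')) w (g - g')` with `w u = 4 / (4 + u ^ 2)`.
-/

set_option autoImplicit false

open MeasureTheory Set Filter Topology

namespace Pool.Agent.K3h84.PC

/-- the weight -/
noncomputable def wk (u : ℝ) : ℝ := 4 / (4 + u ^ 2)

/-- the weighted sum over pairs -/
noncomputable def Q {ι : Type*} (A : Finset ι) (m g : ι → ℝ) (τ : ℝ) : ℝ :=
  ∑ s ∈ A, ∑ s' ∈ A, m s * m s' * (Real.cos (τ * (g s - g s')) * wk (g s - g s'))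

/-! ### The pointwise inequality -/

/-- the exponential sum with real coefficients -/
noncomputable def S {ι : Type*} (A : Finset ι) (a g : ι → ℝ) (τ : ℝ) : ℂ :=
  ∑ n ∈ A, (a n : ℂ) * Complex.exp (((τ * g n : ℝ) : ℂ) * Complex.I)

lemma S_normSq {ι : Type*} (A : Finset ι) (a g : ι → ℝ) (τ : ℝ) :
    ‖S A a g τ‖ ^ 2 = ∑ s ∈ A, ∑ s' ∈ A, a s * a s' * Real.cos (τ * (g s - g s')) := by
  have h1 : (S A a g τ).re = ∑ n ∈ A, a n * Real.cos (τ * g n) := by
    unfold S
    rw [Complex.re_sum]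
    refine Finset.sum_congr rfl fun n _ => ?_
    rw [Complex.re_ofReal_mul, Complex.exp_ofReal_mul_I_re]
  have h2 : (S A a g τ).im = ∑ n ∈ A, a n * Real.sin (τ * g n) := by
    unfold S
    rw [Complex.im_sum]
    refine Finset.sum_congr rfl fun n _ => ?_
    rw [Complex.im_ofReal_mul, Complex.exp_ofReal_mul_I_im]
  rw [← Complex.normSq_eq_norm_sq, Complex.normSq_apply, h1, h2, Finset.sum_mul_sum, Finset.sum_mul_sum,
    ← Finset.sum_add_distrib]
  refine Finset.sum_congr rfl fun s _ => ?_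
  rw [← Finset.sum_add_distrib]
  refine Finset.sum_congr rfl fun s' _ => ?_
  rw [mul_sub, Real.cos_sub]
  ring

lemma S_zero {ι : Type*} (A : Finset ι) (a g : ι → ℝ) : S A a g 0 = ((∑ n ∈ A, a n : ℝ) : ℂ) := by
  unfold S
  rw [Complex.ofReal_sum]
  refine Finset.sum_congr rfl fun n _ => ?_
  rw [zero_mul, Complex.ofReal_zero, zero_mul, Complex.exp_zero, mul_one]

/-- The Bessel (Halász–Montgomery) inequality. -/
theorem bessel_pt {ι κ : Type*} [DecidableEq κ] (A : Finset ι) (a g : ι → ℝ) (ha : ∀ n ∈ A, 0 ≤ a n)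
    (J : Finset κ) (τ : κ → ℝ) :
    ∑ j ∈ J, ‖S A a g (τ j)‖ ^ 2 ≤ ‖S A a g 0‖ ^ 2 +
      ‖S A a g 0‖ * Real.sqrt (∑ p ∈ J.offDiag, ‖S A a g (τ p.1 - τ p.2)‖ ^ 2) := by
  set X : ℝ := ∑ j ∈ J, ‖S A a g (τ j)‖ ^ 2 with hX
  set R : ℝ := Real.sqrt (∑ p ∈ J.offDiag, ‖S A a g (τ p.1 - τ p.2)‖ ^ 2) with hR
  set M : ℝ := ∑ n ∈ A, a n with hM
  have hM0 : 0 ≤ M := Finset.sum_nonneg ha
  have hS0 : ‖S A a g 0‖ = M := by
    rw [S_zero, Complex.norm_real, Real.norm_eq_abs, abs_of_nonneg hM0]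
  have hX0 : 0 ≤ X := Finset.sum_nonneg fun _ _ => sq_nonneg _
  have hR0 : 0 ≤ R := Real.sqrt_nonneg _
  -- the vector
  set e : ℝ → ι → ℂ := fun t n => Complex.exp (((t * g n : ℝ) : ℂ) * Complex.I) with he
  set v : ι → ℂ := fun n => ∑ j ∈ J, (starRingEnd ℂ) (S A a g (τ j)) * e (τ j) n with hv
  have h1 : (X : ℂ) = ∑ n ∈ A, (a n : ℂ) * v n := by
    rw [hX, hv]
    simp only [Finset.mul_sum]
    rw [Finset.sum_comm]
    push_cast
    refine Finset.sum_congr rfl fun j _ => ?_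
    have h2 : ∑ n ∈ A, (a n : ℂ) * ((starRingEnd ℂ) (S A a g (τ j)) * e (τ j) n) =
        (starRingEnd ℂ) (S A a g (τ j)) * S A a g (τ j) := by
      conv_rhs => rw [show S A a g (τ j) = ∑ n ∈ A, (a n : ℂ) * e (τ j) n from rfl]
      rw [Finset.mul_sum]
      refine Finset.sum_congr rfl fun n _ => ?_
      rw [show S A a g (τ j) = ∑ n ∈ A, (a n : ℂ) * e (τ j) n from rfl]
      ring
    rw [h2, mul_comm, Complex.mul_conj, Complex.normSq_eq_norm_sq]
    push_cast
    rfl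
  -- Cauchy–Schwarz
  have h3 : X ^ 2 ≤ M * ∑ n ∈ A, a n * ‖v n‖ ^ 2 := by
    have h4 : X ≤ ∑ n ∈ A, Real.sqrt (a n) * (Real.sqrt (a n) * ‖v n‖) := by
      calc X = ‖(X : ℂ)‖ := by rw [Complex.norm_real, Real.norm_eq_abs, abs_of_nonneg hX0]
        _ = ‖∑ n ∈ A, (a n : ℂ) * v n‖ := by rw [h1]
        _ ≤ ∑ n ∈ A, ‖(a n : ℂ) * v n‖ := norm_sum_le _ _
        _ = _ := by
          refine Finset.sum_congr rfl fun n hn => ?_
          rw [norm_mul, Complex.norm_real, Real.norm_eq_abs, abs_of_nonneg (ha n hn), ← mul_assoc,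
            Real.mul_self_sqrt (ha n hn)]
    have h5 := Finset.sum_mul_sq_le_sq_mul_sq A (fun n => Real.sqrt (a n))
      (fun n => Real.sqrt (a n) * ‖v n‖)
    have h6 : ∑ n ∈ A, Real.sqrt (a n) ^ 2 = M := by
      rw [hM]
      exact Finset.sum_congr rfl fun n hn => Real.sq_sqrt (ha n hn)
    have h7 : ∑ n ∈ A, (Real.sqrt (a n) * ‖v n‖) ^ 2 = ∑ n ∈ A, a n * ‖v n‖ ^ 2 := by
      refine Finset.sum_congr rfl fun n hn => ?_
      rw [mul_pow, Real.sq_sqrt (ha n hn)]
    rw [h6, h7] at h5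
    exact (pow_le_pow_left₀ hX0 h4 2).trans h5
  -- the Gram matrix
  have h8 : (∑ n ∈ A, a n * ‖v n‖ ^ 2 : ℝ) ≤ M * X + X * R := by
    have h9 : ((∑ n ∈ A, a n * ‖v n‖ ^ 2 : ℝ) : ℂ) = ∑ j ∈ J, ∑ k ∈ J,
        (starRingEnd ℂ) (S A a g (τ j)) * S A a g (τ k) * S A a g (τ j - τ k) := by
      push_cast
      have h10 : ∀ n, ((a n : ℂ) * (‖v n‖ : ℂ) ^ 2) = ∑ j ∈ J, ∑ k ∈ J,
          (starRingEnd ℂ) (S A a g (τ j)) * S A a g (τ k) * ((a n : ℂ) * e (τ j - τ k) n) := by
        intro n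
        have h11 : ((‖v n‖ : ℂ) ^ 2) = v n * (starRingEnd ℂ) (v n) := by
          rw [Complex.mul_conj, Complex.normSq_eq_norm_sq]
          push_cast
          rfl
        have h12 : (starRingEnd ℂ) (v n) = ∑ k ∈ J, S A a g (τ k) * (starRingEnd ℂ) (e (τ k) n) := by
          rw [hv, map_sum]
          refine Finset.sum_congr rfl fun k _ => ?_
          rw [map_mul, Complex.conj_conj]
        rw [h11, h12]
        conv_lhs => rw [hv]
        simp only
        rw [Finset.sum_mul_sum, Finset.mul_sum]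
        refine Finset.sum_congr rfl fun j _ => ?_
        rw [Finset.mul_sum]
        refine Finset.sum_congr rfl fun k _ => ?_
        have h13 : e (τ j - τ k) n = e (τ j) n * (starRingEnd ℂ) (e (τ k) n) := by
          rw [he]
          simp only
          rw [← Complex.exp_conj, ← Complex.exp_add]
          congr 1
          rw [map_mul, Complex.conj_I, Complex.conj_ofReal]
          push_cast
          ring
        rw [h13]
        ring
      rw [Finset.sum_congr rfl fun n _ => h10 n, Finset.sum_comm]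
      refine Finset.sum_congr rfl fun j _ => ?_
      rw [Finset.sum_comm]
      refine Finset.sum_congr rfl fun k _ => ?_
      rw [← Finset.mul_sum]
      rfl
    have h14 : ∑ n ∈ A, a n * ‖v n‖ ^ 2 ≤ ∑ j ∈ J, ∑ k ∈ J,
        ‖S A a g (τ j)‖ * ‖S A a g (τ k)‖ * ‖S A a g (τ j - τ k)‖ := by
      have h15 : 0 ≤ ∑ n ∈ A, a n * ‖v n‖ ^ 2 :=
        Finset.sum_nonneg fun n hn => mul_nonneg (ha n hn) (sq_nonneg _)
      calc ∑ n ∈ A, a n * ‖v n‖ ^ 2 = ‖((∑ n ∈ A, a n * ‖v n‖ ^ 2 : ℝ) : ℂ)‖ := by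
            rw [Complex.norm_real, Real.norm_eq_abs, abs_of_nonneg h15]
        _ = ‖∑ j ∈ J, ∑ k ∈ J, (starRingEnd ℂ) (S A a g (τ j)) * S A a g (τ k) *
            S A a g (τ j - τ k)‖ := by rw [h9]
        _ ≤ ∑ j ∈ J, ‖∑ k ∈ J, (starRingEnd ℂ) (S A a g (τ j)) * S A a g (τ k) *
            S A a g (τ j - τ k)‖ := norm_sum_le _ _
        _ ≤ ∑ j ∈ J, ∑ k ∈ J, ‖(starRingEnd ℂ) (S A a g (τ j)) * S A a g (τ k) *
            S A a g (τ j - τ k)‖ := Finset.sum_le_sum fun j _ => norm_sum_le _ _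
        _ = _ := by
          refine Finset.sum_congr rfl fun j _ => Finset.sum_congr rfl fun k _ => ?_
          rw [norm_mul, norm_mul, RCLike.norm_conj]
    have h16 : ∑ j ∈ J, ∑ k ∈ J, ‖S A a g (τ j)‖ * ‖S A a g (τ k)‖ * ‖S A a g (τ j - τ k)‖ =
        M * X + ∑ p ∈ J.offDiag, ‖S A a g (τ p.1)‖ * ‖S A a g (τ p.2)‖ *
          ‖S A a g (τ p.1 - τ p.2)‖ := by
      rw [← Finset.sum_product', ← Finset.diag_union_offDiag J,
        Finset.sum_union (Finset.disjoint_diag_offDiag J)]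
      congr 1
      rw [Finset.sum_diag, hX, Finset.mul_sum]
      refine Finset.sum_congr rfl fun j _ => ?_
      rw [sub_self, hS0]
      ring
    have h17 : ∑ p ∈ J.offDiag, ‖S A a g (τ p.1)‖ * ‖S A a g (τ p.2)‖ *
        ‖S A a g (τ p.1 - τ p.2)‖ ≤ X * R := by
      have h18 := Finset.sum_mul_sq_le_sq_mul_sq J.offDiag
        (fun p => ‖S A a g (τ p.1)‖ * ‖S A a g (τ p.2)‖) (fun p => ‖S A a g (τ p.1 - τ p.2)‖)
      have h19 : ∑ p ∈ J.offDiag, (‖S A a g (τ p.1)‖ * ‖S A a g (τ p.2)‖) ^ 2 ≤ X ^ 2 := by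
        have h20 : X ^ 2 = ∑ p ∈ J ×ˢ J, (‖S A a g (τ p.1)‖ * ‖S A a g (τ p.2)‖) ^ 2 := by
          rw [sq, hX, Finset.sum_mul_sum, ← Finset.sum_product']
          refine Finset.sum_congr rfl fun p _ => ?_
          ring
        rw [h20]
        refine Finset.sum_le_sum_of_subset_of_nonneg ?_ fun _ _ _ => sq_nonneg _
        intro p hp
        rw [Finset.mem_offDiag] at hp
        exact Finset.mem_product.2 ⟨hp.1, hp.2.1⟩
      have h21 : R ^ 2 = ∑ p ∈ J.offDiag, ‖S A a g (τ p.1 - τ p.2)‖ ^ 2 := by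
        rw [hR, Real.sq_sqrt (Finset.sum_nonneg fun _ _ => sq_nonneg _)]
      rw [← h21] at h18
      have h22 : (∑ p ∈ J.offDiag, ‖S A a g (τ p.1)‖ * ‖S A a g (τ p.2)‖ *
          ‖S A a g (τ p.1 - τ p.2)‖) ^ 2 ≤ (X * R) ^ 2 := by
        rw [mul_pow]
        exact h18.trans (mul_le_mul_of_nonneg_right h19 (sq_nonneg _))
      exact le_of_sq_le_sq h22 (mul_nonneg hX0 hR0)
    rw [h16] at h14
    linarith
  rw [hS0]
  rcases hX0.eq_or_lt with h | h
  · rw [← h]
    exact add_nonneg (sq_nonneg _) (mul_nonneg hM0 hR0)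
  · have h23 : X ^ 2 ≤ M * (M * X + X * R) := h3.trans (mul_le_mul_of_nonneg_left h8 hM0)
    have h24 : X * X ≤ (M ^ 2 + M * R) * X := by nlinarith
    exact le_of_mul_le_mul_right h24 h

/-! ### The Cauchy kernel -/

lemma cauchy_deriv (u : ℝ) (hu : u ≠ 0) (s : ℝ) :
    HasDerivAt (fun s : ℝ => 1 / (4 + u ^ 2) * (Real.arctan s + Real.arctan (s - u) +
      1 / u * (Real.log (1 + s ^ 2) - Real.log (1 + (s - u) ^ 2))))
      (1 / ((1 + s ^ 2) * (1 + (s - u) ^ 2))) s := by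
  have h1 : HasDerivAt (fun s : ℝ => s - u) 1 s := (hasDerivAt_id s).sub_const u
  have h2 := (Real.hasDerivAt_arctan s)
  have h3 := (Real.hasDerivAt_arctan (s - u)).comp s h1
  have h4 : HasDerivAt (fun s : ℝ => 1 + s ^ 2) (2 * s) s := by
    have := (hasDerivAt_pow 2 s).const_add 1
    simpa using this
  have h5 : HasDerivAt (fun s : ℝ => 1 + (s - u) ^ 2) (2 * (s - u)) s := by
    have := (h1.pow 2).const_add 1
    simpa using this
  have h6 := h4.log (by positivity)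
  have h7 := h5.log (by positivity)
  have h8 := ((h2.add h3).add ((h6.sub h7).const_mul (1 / u))).const_mul (1 / (4 + u ^ 2))
  refine h8.congr_deriv ?_
  have e1 : (1 + s ^ 2 : ℝ) ≠ 0 := by positivity
  have e2 : (1 + (s - u) ^ 2 : ℝ) ≠ 0 := by positivity
  have e3 : (4 + u ^ 2 : ℝ) ≠ 0 := by positivity
  field_simp
  ring

lemma log_ratio_tendsto (u : ℝ) (l : Filter ℝ) (hl : Tendsto (fun s : ℝ => |s|) l atTop) :
    Tendsto (fun s : ℝ => Real.log (1 + s ^ 2) - Real.log (1 + (s - u) ^ 2)) l (𝓝 0) := by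
  have h1 : Tendsto (fun s : ℝ => (1 + s ^ 2) / (1 + (s - u) ^ 2)) l (𝓝 1) := by
    have h2 : Tendsto (fun s : ℝ => (2 * |u| * |s| + u ^ 2) / (1 + (s - u) ^ 2)) l (𝓝 0) := by
      have h3 : ∀ᶠ s in l, ‖(2 * |u| * |s| + u ^ 2) / (1 + (s - u) ^ 2)‖ ≤
          (8 * |u| + 4 * u ^ 2) / |s| := by
        filter_upwards [hl.eventually_ge_atTop (1 + 2 * |u|)] with s hs
        have hs0 : 0 < |s| := by have := abs_nonneg u; linarith
        have hs1 : 1 ≤ |s| := by have := abs_nonneg u; linarith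
        have h4 : |s| / 2 ≤ |s - u| := by
          have := abs_sub_abs_le_abs_sub s u
          linarith
        have h5 : s ^ 2 / 4 ≤ (s - u) ^ 2 := by
          have := pow_le_pow_left₀ (by positivity) h4 2
          rw [div_pow, sq_abs, sq_abs] at this
          linarith
        rw [Real.norm_eq_abs, abs_of_nonneg (by positivity), div_le_div_iff₀ (by positivity) hs0]
        have h6 : |s| ^ 2 = s ^ 2 := sq_abs s
        have h7 := abs_nonneg u
        have h8 : 0 ≤ u ^ 2 := sq_nonneg u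
        have h9 : (2 * |u| * |s| + u ^ 2) * |s| ≤ (8 * |u| + 4 * u ^ 2) * (|s| ^ 2 / 4) := by
          nlinarith [mul_nonneg h8 hs0.le, mul_nonneg h8 (sub_nonneg.2 hs1)]
        refine h9.trans (mul_le_mul_of_nonneg_left ?_ (by positivity))
        rw [h6]
        linarith
      refine squeeze_zero_norm' h3 ?_
      exact Tendsto.const_div_atTop hl _
    have h3 : Tendsto (fun s : ℝ => (1 + s ^ 2) / (1 + (s - u) ^ 2) - 1) l (𝓝 0) := by
      refine squeeze_zero_norm' (Eventually.of_forall fun s => ?_) h2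
      have e2 : (0 : ℝ) < 1 + (s - u) ^ 2 := by positivity
      have e3 : (1 + s ^ 2) / (1 + (s - u) ^ 2) - 1 = (2 * u * s - u ^ 2) / (1 + (s - u) ^ 2) := by
        field_simp
        ring
      rw [e3, Real.norm_eq_abs, abs_div, abs_of_pos e2]
      gcongr
      calc |2 * u * s - u ^ 2| ≤ |2 * u * s| + |u ^ 2| := abs_sub _ _
        _ = 2 * |u| * |s| + u ^ 2 := by
          rw [abs_mul, abs_mul, abs_of_pos (show (0 : ℝ) < 2 by norm_num), abs_of_nonneg (sq_nonneg u)]
    have h4 := h3.add_const 1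
    rw [zero_add] at h4
    exact h4.congr fun s => by ring
  have h5 := (Real.continuousAt_log one_ne_zero).tendsto.comp h1
  rw [Real.log_one] at h5
  refine h5.congr fun s => ?_
  simp only [Function.comp]
  rw [Real.log_div (by positivity) (by positivity)]

lemma cauchy_integrable (u : ℝ) :
    Integrable (fun s : ℝ => 1 / ((1 + s ^ 2) * (1 + (s - u) ^ 2))) := by
  refine Integrable.mono' integrable_inv_one_add_sq ?_ (ae_of_all _ fun s => ?_)
  · apply Continuous.aestronglyMeasurable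
    refine continuous_const.div (by fun_prop) fun s => ?_
    positivity
  · rw [Real.norm_eq_abs, abs_of_nonneg (by positivity), one_div, mul_inv]
    have h1 : (1 + (s - u) ^ 2)⁻¹ ≤ 1 := inv_le_one_of_one_le₀ (by nlinarith [sq_nonneg (s - u)])
    have h2 : 0 ≤ (1 + s ^ 2)⁻¹ := by positivity
    nlinarith

lemma cauchy_int_ne {u : ℝ} (hu : u ≠ 0) :
    ∫ s : ℝ, 1 / ((1 + s ^ 2) * (1 + (s - u) ^ 2)) = Real.pi / 2 * wk u := by
  have ha : Tendsto (fun s : ℝ => 1 / (4 + u ^ 2) * (Real.arctan s + Real.arctan (s - u) +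
      1 / u * (Real.log (1 + s ^ 2) - Real.log (1 + (s - u) ^ 2)))) atTop
      (𝓝 (1 / (4 + u ^ 2) * (Real.pi / 2 + Real.pi / 2 + 1 / u * 0))) := by
    refine Tendsto.const_mul _ (Tendsto.add (Tendsto.add ?_ ?_) (Tendsto.const_mul _ ?_))
    · exact tendsto_nhds_of_tendsto_nhdsWithin Real.tendsto_arctan_atTop
    · exact (tendsto_nhds_of_tendsto_nhdsWithin Real.tendsto_arctan_atTop).comp
        (tendsto_atTop_add_const_right _ _ tendsto_id)
    · exact log_ratio_tendsto u _ tendsto_abs_atTop_atTop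
  have hb : Tendsto (fun s : ℝ => 1 / (4 + u ^ 2) * (Real.arctan s + Real.arctan (s - u) +
      1 / u * (Real.log (1 + s ^ 2) - Real.log (1 + (s - u) ^ 2)))) atBot
      (𝓝 (1 / (4 + u ^ 2) * (-(Real.pi / 2) + -(Real.pi / 2) + 1 / u * 0))) := by
    refine Tendsto.const_mul _ (Tendsto.add (Tendsto.add ?_ ?_) (Tendsto.const_mul _ ?_))
    · exact tendsto_nhds_of_tendsto_nhdsWithin Real.tendsto_arctan_atBot
    · exact (tendsto_nhds_of_tendsto_nhdsWithin Real.tendsto_arctan_atBot).comp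
        (tendsto_atBot_add_const_right _ _ tendsto_id)
    · exact log_ratio_tendsto u _ tendsto_abs_atBot_atTop
  have h := integral_of_hasDerivAt_of_tendsto (fun s => cauchy_deriv u hu s) (cauchy_integrable u) hb ha
  rw [h]
  unfold wk
  have : (4 + u ^ 2 : ℝ) ≠ 0 := by positivity
  field_simp
  ring

lemma cauchy_int (u : ℝ) :
    ∫ s : ℝ, 1 / ((1 + s ^ 2) * (1 + (s - u) ^ 2)) = Real.pi / 2 * wk u := by
  rcases eq_or_ne u 0 with hu | hu
  · subst hu
    -- by continuity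
    have h1 : Tendsto (fun v : ℝ => ∫ s : ℝ, 1 / ((1 + s ^ 2) * (1 + (s - v) ^ 2))) (𝓝[≠] 0)
        (𝓝 (∫ s : ℝ, 1 / ((1 + s ^ 2) * (1 + (s - 0) ^ 2)))) := by
      have h2 : Continuous fun v : ℝ => ∫ s : ℝ, 1 / ((1 + s ^ 2) * (1 + (s - v) ^ 2)) := by
        refine continuous_of_dominated (bound := fun s => (1 + s ^ 2)⁻¹) ?_ ?_
          integrable_inv_one_add_sq ?_
        · intro v
          exact (cauchy_integrable v).aestronglyMeasurable
        · intro v
          refine ae_of_all _ fun s => ?_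
          rw [Real.norm_eq_abs, abs_of_nonneg (by positivity), one_div, mul_inv]
          have h1 : (1 + (s - v) ^ 2)⁻¹ ≤ 1 :=
            inv_le_one_of_one_le₀ (by nlinarith [sq_nonneg (s - v)])
          have h2 : 0 ≤ (1 + s ^ 2)⁻¹ := by positivity
          nlinarith
        · refine ae_of_all _ fun s => ?_
          refine continuous_const.div (by fun_prop) fun v => ?_
          positivity
      exact (h2.tendsto 0).mono_left nhdsWithin_le_nhds
    have h3 : Tendsto (fun v : ℝ => Real.pi / 2 * wk v) (𝓝[≠] 0) (𝓝 (Real.pi / 2 * wk 0)) := by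
      have h4 : Continuous wk := by
        unfold wk
        exact continuous_const.div (by fun_prop) fun u => by positivity
      exact ((h4.tendsto 0).const_mul _).mono_left nhdsWithin_le_nhds
    refine tendsto_nhds_unique (h1.congr' ?_) h3
    filter_upwards [self_mem_nhdsWithin] with v hv
    exact cauchy_int_ne hv
  · exact cauchy_int_ne hu

lemma cauchy_integrable' (a b : ℝ) :
    Integrable (fun s : ℝ => 1 / (1 + (s - a) ^ 2) * (1 / (1 + (s - b) ^ 2))) := by
  have h := (cauchy_integrable (b - a)).comp_sub_right a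
  refine h.congr (ae_of_all _ fun s => ?_)
  simp only
  rw [show s - a - (b - a) = s - b by ring, one_div_mul_one_div]

lemma cauchy_int' (a b : ℝ) :
    ∫ s : ℝ, 1 / (1 + (s - a) ^ 2) * (1 / (1 + (s - b) ^ 2)) = Real.pi / 2 * wk (a - b) := by
  have h := cauchy_int (b - a)
  rw [← integral_sub_right_eq_self _ a] at h
  have e : wk (b - a) = wk (a - b) := by
    unfold wk
    rw [show (b - a) ^ 2 = (a - b) ^ 2 by ring]
  rw [e] at h
  rw [← h]
  refine integral_congr_ae (ae_of_all _ fun s => ?_)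
  simp only
  rw [show s - a - (b - a) = s - b by ring, one_div_mul_one_div]

/-! ### The integrated inequality -/

/-- local coefficients -/
noncomputable def lc {ι : Type*} (m g : ι → ℝ) (s : ℝ) (n : ι) : ℝ := m n * (1 / (1 + (s - g n) ^ 2))

lemma V_eq {ι : Type*} (A : Finset ι) (m g : ι → ℝ) (τ s : ℝ) :
    ‖S A (lc m g s) g τ‖ ^ 2 = ∑ n ∈ A, ∑ n' ∈ A, m n * m n' * Real.cos (τ * (g n - g n')) *
      (1 / (1 + (s - g n) ^ 2) * (1 / (1 + (s - g n') ^ 2))) := by
  rw [S_normSq]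
  refine Finset.sum_congr rfl fun n _ => Finset.sum_congr rfl fun n' _ => ?_
  unfold lc
  ring

lemma V_integrable {ι : Type*} (A : Finset ι) (m g : ι → ℝ) (τ : ℝ) :
    Integrable (fun s => ‖S A (lc m g s) g τ‖ ^ 2) := by
  simp_rw [V_eq]
  refine integrable_finsetSum _ fun n _ => integrable_finsetSum _ fun n' _ => ?_
  exact (cauchy_integrable' _ _).const_mul _

lemma V_integral {ι : Type*} (A : Finset ι) (m g : ι → ℝ) (τ : ℝ) :
    ∫ s, ‖S A (lc m g s) g τ‖ ^ 2 = Real.pi / 2 * Q A m g τ := by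
  simp_rw [V_eq]
  rw [integral_finsetSum _ fun n _ => integrable_finsetSum _ fun n' _ =>
    (cauchy_integrable' _ _).const_mul _]
  unfold Q
  rw [Finset.mul_sum]
  refine Finset.sum_congr rfl fun n _ => ?_
  rw [integral_finsetSum _ fun n' _ => (cauchy_integrable' _ _).const_mul _, Finset.mul_sum]
  refine Finset.sum_congr rfl fun n' _ => ?_
  rw [integral_const_mul, cauchy_int']
  ring

lemma Q_nonneg {ι : Type*} (A : Finset ι) (m g : ι → ℝ) (τ : ℝ) : 0 ≤ Q A m g τ := by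
  have h := V_integral A m g τ
  have h1 : 0 ≤ ∫ s, ‖S A (lc m g s) g τ‖ ^ 2 := integral_nonneg fun s => sq_nonneg _
  rw [h] at h1
  have := Real.pi_pos
  exact nonneg_of_mul_nonneg_right h1 (by positivity)

theorem bessel_eta {ι κ : Type*} [DecidableEq κ] (A : Finset ι) (m g : ι → ℝ) (hm : ∀ n ∈ A, 0 ≤ m n)
    (J : Finset κ) (τ : κ → ℝ) {η : ℝ} (hη : 0 < η) :
    ∑ j ∈ J, Q A m g (τ j) ≤ (1 + η / 2) * Q A m g 0 +
      1 / (2 * η) * ∑ p ∈ J.offDiag, Q A m g (τ p.1 - τ p.2) := by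
  have hpi := Real.pi_pos
  have h1 : ∀ s : ℝ, ∑ j ∈ J, ‖S A (lc m g s) g (τ j)‖ ^ 2 ≤
      (1 + η / 2) * ‖S A (lc m g s) g 0‖ ^ 2 +
        1 / (2 * η) * ∑ p ∈ J.offDiag, ‖S A (lc m g s) g (τ p.1 - τ p.2)‖ ^ 2 := by
    intro s
    have h2 := bessel_pt A (lc m g s) g (fun n hn => by
      unfold lc
      have := hm n hn
      positivity) J τ
    refine h2.trans ?_
    set R2 : ℝ := ∑ p ∈ J.offDiag, ‖S A (lc m g s) g (τ p.1 - τ p.2)‖ ^ 2 with hR2
    have hR0 : 0 ≤ R2 := Finset.sum_nonneg fun _ _ => sq_nonneg _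
    have h3 := Real.sq_sqrt hR0
    set r := Real.sqrt R2
    set x := ‖S A (lc m g s) g 0‖
    have h4 : x * r ≤ η / 2 * x ^ 2 + 1 / (2 * η) * r ^ 2 := by
      have h5 : 0 ≤ (η * x - r) ^ 2 / (2 * η) := by positivity
      have h6 : (η * x - r) ^ 2 / (2 * η) = η / 2 * x ^ 2 + 1 / (2 * η) * r ^ 2 - x * r := by
        field_simp
        ring
      linarith
    rw [← h3]
    linarith
  have h2 : ∫ s, ∑ j ∈ J, ‖S A (lc m g s) g (τ j)‖ ^ 2 ≤ ∫ s,
      ((1 + η / 2) * ‖S A (lc m g s) g 0‖ ^ 2 +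
        1 / (2 * η) * ∑ p ∈ J.offDiag, ‖S A (lc m g s) g (τ p.1 - τ p.2)‖ ^ 2) := by
    refine integral_mono ?_ ?_ h1
    · exact integrable_finsetSum _ fun j _ => V_integrable A m g _
    · exact ((V_integrable A m g 0).const_mul _).add
        ((integrable_finsetSum _ fun p _ => V_integrable A m g _).const_mul _)
  rw [integral_add ((V_integrable A m g 0).const_mul _)
    ((integrable_finsetSum _ fun p _ => V_integrable A m g _).const_mul _), integral_const_mul,
    integral_const_mul, integral_finsetSum _ fun j _ => V_integrable A m g _,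
    integral_finsetSum _ fun p _ => V_integrable A m g _] at h2
  simp_rw [V_integral] at h2
  rw [← Finset.mul_sum, ← Finset.mul_sum] at h2
  have h3 : Real.pi / 2 * ∑ j ∈ J, Q A m g (τ j) ≤ Real.pi / 2 * ((1 + η / 2) * Q A m g 0 +
      1 / (2 * η) * ∑ p ∈ J.offDiag, Q A m g (τ p.1 - τ p.2)) := by
    calc _ ≤ _ := h2
      _ = _ := by ring
  exact le_of_mul_le_mul_left h3 (by positivity)

/-- **The Bessel inequality for the weighted pair sums.** -/
theorem bessel_Q {ι κ : Type*} [DecidableEq κ] (A : Finset ι) (m g : ι → ℝ) (hm : ∀ n ∈ A, 0 ≤ m n)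
    (J : Finset κ) (τ : κ → ℝ) :
    ∑ j ∈ J, Q A m g (τ j) ≤ Q A m g 0 +
      Real.sqrt (Q A m g 0 * ∑ p ∈ J.offDiag, Q A m g (τ p.1 - τ p.2)) := by
  have h : ∀ η : ℝ, 0 < η → ∑ j ∈ J, Q A m g (τ j) ≤ (1 + η / 2) * Q A m g 0 +
      1 / (2 * η) * ∑ p ∈ J.offDiag, Q A m g (τ p.1 - τ p.2) := fun η hη =>
    bessel_eta A m g hm J τ hη
  have hx0 : 0 ≤ Q A m g 0 := Q_nonneg A m g 0
  have hy0 : 0 ≤ ∑ p ∈ J.offDiag, Q A m g (τ p.1 - τ p.2) :=
    Finset.sum_nonneg fun p _ => Q_nonneg A m g _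
  generalize Q A m g 0 = x at h hx0 ⊢
  generalize ∑ p ∈ J.offDiag, Q A m g (τ p.1 - τ p.2) = y at h hy0 ⊢
  generalize ∑ j ∈ J, Q A m g (τ j) = z at h ⊢
  rcases hx0.eq_or_lt with hx1 | hx1
  · -- x = 0
    rw [← hx1] at h ⊢
    rw [zero_mul, Real.sqrt_zero, add_zero]
    by_contra hcon
    push Not at hcon
    have h1 := h ((y + 1) / z) (by positivity)
    rw [mul_zero, zero_add] at h1
    have h2 : 1 / (2 * ((y + 1) / z)) * y = z * (y / (2 * (y + 1))) := by
      field_simp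
    rw [h2] at h1
    have h3 : y / (2 * (y + 1)) < 1 := by
      rw [div_lt_one (by positivity)]
      linarith
    nlinarith
  rcases hy0.eq_or_lt with hy1 | hy1
  · rw [← hy1] at h ⊢
    rw [mul_zero, Real.sqrt_zero, add_zero]
    by_contra hcon
    push Not at hcon
    have h1 := h ((z - x) / x) (div_pos (by linarith) hx1)
    rw [mul_zero, add_zero] at h1
    have h2 : (1 + (z - x) / x / 2) * x = x + (z - x) / 2 := by
      field_simp
    rw [h2] at h1
    linarith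
  · have h1 := h (Real.sqrt (y / x)) (Real.sqrt_pos.2 (by positivity))
    have h2 : Real.sqrt (y / x) / 2 * x + 1 / (2 * Real.sqrt (y / x)) * y = Real.sqrt (x * y) := by
      rw [Real.sqrt_div hy0, Real.sqrt_mul hx0]
      have hsx : 0 < Real.sqrt x := Real.sqrt_pos.2 hx1
      have hsy : 0 < Real.sqrt y := Real.sqrt_pos.2 hy1
      have ex : x = Real.sqrt x * Real.sqrt x := (Real.mul_self_sqrt hx0).symm
      have ey : y = Real.sqrt y * Real.sqrt y := (Real.mul_self_sqrt hy0).symm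
      set a := Real.sqrt x
      set b := Real.sqrt y
      rw [ex, ey]
      field_simp
      ring
    linarith

end Pool.Agent.K3h84.PC
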