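import Pool.Agent.K3h84.PC.Vag

/-!
# The kernel of a finite set of integers, positive definiteness
-/

set_option autoImplicit false

open MeasureTheory Set Filter Topology

namespace Pool.Agent.K3h84.PC

open Pool.Agent.Y749.Rig (Fr Mp Mp_fin Fr_pair Fr_nonneg Fr_cont Fr_even tr tr_cont tr_nonneg tr_supp
  tr_even tr_int adm_tr fl fl_cont cc Adm modu adm_modu fl_modu fl_tr_nonneg fl_tr_zero ww ww_pos ww_le
  ww_cont ww_zero Mp_zero int_tr int_supp)

/-- the kernel of a finite set of integers -/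
noncomputable def Dk (S : Finset ℕ) (α : ℝ) : ℝ :=
  (∑ r ∈ S, ∑ r' ∈ S, Real.cos (2 * Real.pi * α * ((r : ℝ) - r'))) / (S.card : ℝ) ^ 2

lemma Dk_sq (S : Finset ℕ) (α : ℝ) :
    ∑ r ∈ S, ∑ r' ∈ S, Real.cos (2 * Real.pi * α * ((r : ℝ) - r')) =
      (∑ r ∈ S, Real.cos (2 * Real.pi * α * r)) ^ 2 + (∑ r ∈ S, Real.sin (2 * Real.pi * α * r)) ^ 2 := by
  rw [sq, sq, Finset.sum_mul_sum, Finset.sum_mul_sum, ← Finset.sum_add_distrib]
  refine Finset.sum_congr rfl fun r _ => ?_
  rw [← Finset.sum_add_distrib]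
  refine Finset.sum_congr rfl fun r' _ => ?_
  rw [mul_sub, Real.cos_sub]

lemma Dk_nonneg (S : Finset ℕ) (α : ℝ) : 0 ≤ Dk S α := by
  unfold Dk
  rw [Dk_sq]
  positivity

lemma Dk_le_one (S : Finset ℕ) (α : ℝ) : Dk S α ≤ 1 := by
  unfold Dk
  rcases S.eq_empty_or_nonempty with rfl | hS
  · simp
  have hc : 0 < (S.card : ℝ) := by exact_mod_cast hS.card_pos
  rw [div_le_one (by positivity)]
  calc ∑ r ∈ S, ∑ r' ∈ S, Real.cos (2 * Real.pi * α * ((r : ℝ) - r')) ≤ ∑ r ∈ S, ∑ r' ∈ S, (1 : ℝ) :=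
        Finset.sum_le_sum fun r _ => Finset.sum_le_sum fun r' _ => Real.cos_le_one _
    _ = (S.card : ℝ) ^ 2 := by
        simp only [Finset.sum_const, nsmul_eq_mul, mul_one]
        ring

lemma Dk_cont (S : Finset ℕ) : Continuous (Dk S) := by
  unfold Dk
  fun_prop

lemma Dk_even (S : Finset ℕ) (α : ℝ) : Dk S (-α) = Dk S α := by
  unfold Dk
  congr 1
  refine Finset.sum_congr rfl fun r _ => Finset.sum_congr rfl fun r' _ => ?_
  rw [show 2 * Real.pi * -α * ((r : ℝ) - r') = -(2 * Real.pi * α * ((r : ℝ) - r')) by ring, Real.cos_neg]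

lemma Dk_zero {S : Finset ℕ} (hS : S.Nonempty) : Dk S 0 = 1 := by
  unfold Dk
  have hc : 0 < (S.card : ℝ) := by exact_mod_cast hS.card_pos
  simp only [mul_zero, zero_mul, Real.cos_zero, Finset.sum_const, nsmul_eq_mul, mul_one]
  field_simp

lemma cos_int_zero {k : ℤ} (hk : k ≠ 0) :
    ∫ α in (-1 : ℝ)..1, Real.cos (2 * Real.pi * α * k) = 0 := by
  have hpi := Real.pi_pos
  have hk' : (k : ℝ) ≠ 0 := by exact_mod_cast hk
  have h : ∀ α ∈ uIcc (-1 : ℝ) 1, HasDerivAt (fun α : ℝ => Real.sin (2 * Real.pi * α * k) /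
      (2 * Real.pi * k)) (Real.cos (2 * Real.pi * α * k)) α := by
    intro α _
    have h1 : HasDerivAt (fun α : ℝ => 2 * Real.pi * α * k) (2 * Real.pi * 1 * k) α :=
      ((hasDerivAt_id α).const_mul (2 * Real.pi)).mul_const _
    refine (h1.sin.div_const (2 * Real.pi * k)).congr_deriv ?_
    field_simp
  rw [intervalIntegral.integral_eq_sub_of_hasDerivAt h
    (Continuous.intervalIntegrable (by fun_prop) _ _)]
  have e1 : Real.sin (2 * Real.pi * 1 * k) = 0 := by
    rw [show 2 * Real.pi * 1 * k = ((2 * k : ℤ) : ℝ) * Real.pi by push_cast; ring]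
    exact Real.sin_int_mul_pi _
  have e2 : Real.sin (2 * Real.pi * -1 * k) = 0 := by
    rw [show 2 * Real.pi * -1 * k = ((-(2 * k) : ℤ) : ℝ) * Real.pi by push_cast; ring]
    exact Real.sin_int_mul_pi _
  rw [e1, e2]
  simp

lemma Dk_int {S : Finset ℕ} (hS : S.Nonempty) : ∫ α in (-1 : ℝ)..1, Dk S α = 2 / S.card := by
  have hc : 0 < (S.card : ℝ) := by exact_mod_cast hS.card_pos
  unfold Dk
  rw [intervalIntegral.integral_div, intervalIntegral.integral_finsetSum]
  · have h1 : ∀ r ∈ S, ∫ α in (-1 : ℝ)..1, ∑ r' ∈ S, Real.cos (2 * Real.pi * α * ((r : ℝ) - r')) = 2 := by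
      intro r hr
      rw [intervalIntegral.integral_finsetSum, Finset.sum_eq_single r]
      · simp only [sub_self, mul_zero, Real.cos_zero]
        rw [intervalIntegral.integral_const]
        norm_num
      · intro r' _ hne
        have h2 := cos_int_zero (k := (r : ℤ) - r') (by
          intro h0
          apply hne
          omega)
        push_cast at h2
        exact h2
      · intro h0
        exact absurd hr h0
      · intro r' _
        exact Continuous.intervalIntegrable (by fun_prop) _ _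
    rw [Finset.sum_congr rfl h1, Finset.sum_const, nsmul_eq_mul]
    field_simp
  · intro r _
    exact Continuous.intervalIntegrable (by fun_prop) _ _

/-! ### Positive definiteness -/

lemma cosmul_int {ψ : ℝ → ℝ} (hψ : Integrable ψ) (k : ℝ) :
    Integrable fun α => ψ α * Real.cos (2 * Real.pi * α * k) := by
  refine hψ.mul_bdd (c := 1) (by fun_prop) (ae_of_all _ fun α => ?_)
  rw [Real.norm_eq_abs]; exact Real.abs_cos_le_one _

lemma fl_cosmul {ψ : ℝ → ℝ} (hψ : Integrable ψ) (k x : ℝ) :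
    fl (fun α => ψ α * Real.cos (2 * Real.pi * α * k)) x = (fl ψ (x - k) + fl ψ (x + k)) / 2 := by
  unfold fl
  rw [← integral_add (cosmul_int hψ _) (cosmul_int hψ _), ← integral_div]
  refine integral_congr_ae (ae_of_all _ fun α => ?_)
  simp only
  rw [show 2 * Real.pi * α * (x - k) = 2 * Real.pi * α * x - 2 * Real.pi * α * k by ring,
    show 2 * Real.pi * α * (x + k) = 2 * Real.pi * α * x + 2 * Real.pi * α * k by ring,
    Real.cos_sub, Real.cos_add]
  ring

lemma pd0 {T : ℝ} {ψ : ℝ → ℝ} (hψ : Integrable ψ) (h0 : ∀ x, 0 ≤ fl ψ x) :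
    0 ≤ ∫ α, ψ α * Fr T α := by
  rw [Fr_pair hψ]
  exact integral_nonneg fun x => mul_nonneg (h0 x) (ww_pos _).le

/-- the form factor is bounded for fixed `T` -/
lemma Fr_bdd (T : ℝ) : ∃ B : ℝ, ∀ α, |Fr T α| ≤ B := by
  have hf := Mp_fin T
  refine ⟨∫ x, (1 : ℝ) ∂(Mp T), fun α => ?_⟩
  unfold Fr
  rw [← Real.norm_eq_abs]
  refine norm_integral_le_of_norm_le (integrable_const _) (ae_of_all _ fun x => ?_)
  rw [Real.norm_eq_abs, abs_mul, abs_of_pos (ww_pos _)]
  calc |Real.cos (2 * Real.pi * α * x)| * ww (2 * Real.pi * x / Real.log T) ≤ 1 * 1 :=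
        mul_le_mul (Real.abs_cos_le_one _) (ww_le _) (ww_pos _).le zero_le_one
    _ = 1 := by ring

lemma mul_Fr_int {T : ℝ} {ψ : ℝ → ℝ} (hψ : Integrable ψ) : Integrable fun α => ψ α * Fr T α := by
  obtain ⟨B, hB⟩ := Fr_bdd T
  have := Fr_cont T
  refine hψ.mul_bdd (c := B) (by fun_prop) (ae_of_all _ fun α => ?_)
  rw [Real.norm_eq_abs]
  exact hB α

lemma mul_Dk_int {S : Finset ℕ} {ψ : ℝ → ℝ} (hψ : Integrable ψ) :
    Integrable fun α => ψ α * Dk S α := by
  have := Dk_cont S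
  refine hψ.mul_bdd (c := 1) (by fun_prop) (ae_of_all _ fun α => ?_)
  rw [Real.norm_eq_abs, abs_of_nonneg (Dk_nonneg _ _)]
  exact Dk_le_one _ _

/-- **positivity** -/
theorem pdD {T : ℝ} (S : Finset ℕ) {ψ : ℝ → ℝ} (hψ : Integrable ψ) (h0 : ∀ x, 0 ≤ fl ψ x) :
    0 ≤ ∫ α, ψ α * Dk S α * Fr T α := by
  have e : ∀ α, ψ α * Dk S α * Fr T α = (∑ r ∈ S, ∑ r' ∈ S,
      ψ α * Real.cos (2 * Real.pi * α * ((r : ℝ) - r')) * Fr T α) / (S.card : ℝ) ^ 2 := by
    intro α
    unfold Dk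
    simp_rw [← Finset.sum_mul, ← Finset.mul_sum]
    ring
  simp_rw [e]
  rw [integral_div, integral_finsetSum]
  · refine div_nonneg (Finset.sum_nonneg fun r _ => ?_) (by positivity)
    rw [integral_finsetSum]
    · refine Finset.sum_nonneg fun r' _ => ?_
      refine pd0 (cosmul_int hψ _) fun x => ?_
      rw [fl_cosmul hψ]
      have h1 := h0 (x - ((r : ℝ) - r'))
      have h2 := h0 (x + ((r : ℝ) - r'))
      linarith
    · intro r' _
      exact mul_Fr_int (cosmul_int hψ _)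
  · intro r _
    exact integrable_finsetSum _ fun r' _ => mul_Fr_int (cosmul_int hψ _)

/-- the diagonal as a lower bound -/
lemma low_diag {T : ℝ} {ψ : ℝ → ℝ} (hψ : Integrable ψ) (h0 : ∀ x, 0 ≤ fl ψ x) :
    (Mp T).real {0} * fl ψ 0 ≤ ∫ α, ψ α * Fr T α := by
  have hfin := Mp_fin T
  rw [Fr_pair hψ]
  have e : (Mp T).real {0} * fl ψ 0 = ∫ x in ({0} : Set ℝ), fl ψ x *
      ww (2 * Real.pi * x / Real.log T) ∂(Mp T) := by
    rw [integral_singleton, mul_zero, zero_div, ww_zero]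
    simp
  rw [e]
  refine setIntegral_le_integral ?_ (ae_of_all _ fun x => ?_)
  · have hc := fl_cont hψ
    have hw := ww_cont
    refine Integrable.mono' (integrable_const (∫ α, |ψ α|)) ?_ (ae_of_all _ fun x => ?_)
    · exact Continuous.aestronglyMeasurable (by fun_prop)
    · rw [Real.norm_eq_abs, abs_mul, abs_of_pos (ww_pos _)]
      have h1 : |fl ψ x| ≤ ∫ α, |ψ α| := by
        unfold fl
        rw [← Real.norm_eq_abs]
        refine norm_integral_le_of_norm_le hψ.abs (ae_of_all _ fun α => ?_)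
        rw [Real.norm_eq_abs, abs_mul]
        exact mul_le_of_le_one_right (abs_nonneg _) (Real.abs_cos_le_one _)
      calc |fl ψ x| * ww (2 * Real.pi * x / Real.log T) ≤ (∫ α, |ψ α|) * 1 :=
            mul_le_mul h1 (ww_le _) (ww_pos _).le (integral_nonneg fun _ => abs_nonneg _)
        _ = _ := mul_one _
  · exact mul_nonneg (h0 x) (ww_pos _).le

/-! ### The trigonometric inequality -/

lemma sum_cos (M : ℕ) (y : ℝ) : (∑ j ∈ Finset.range M, Real.cos (2 * Real.pi * y * j)) *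
    (2 * Real.sin (Real.pi * y)) =
    Real.sin (2 * Real.pi * y * M - Real.pi * y) + Real.sin (Real.pi * y) := by
  induction M with
  | zero => simp
  | succ M ih =>
    rw [Finset.sum_range_succ, add_mul, ih]
    have e : 2 * Real.pi * y * ((M + 1 : ℕ) : ℝ) - Real.pi * y = 2 * Real.pi * y * M + Real.pi * y := by
      push_cast
      ring
    rw [e, Real.sin_sub, Real.sin_add]
    ring

lemma sum_sin (M : ℕ) (y : ℝ) : (∑ j ∈ Finset.range M, Real.sin (2 * Real.pi * y * j)) *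
    (2 * Real.sin (Real.pi * y)) =
    Real.cos (Real.pi * y) - Real.cos (2 * Real.pi * y * M - Real.pi * y) := by
  induction M with
  | zero => simp
  | succ M ih =>
    rw [Finset.sum_range_succ, add_mul, ih]
    have e : 2 * Real.pi * y * ((M + 1 : ℕ) : ℝ) - Real.pi * y = 2 * Real.pi * y * M + Real.pi * y := by
      push_cast
      ring
    rw [e, Real.cos_sub, Real.cos_add]
    ring

lemma Dk_range (M : ℕ) (y : ℝ) :
    Dk (Finset.range M) y * (M ^ 2 * Real.sin (Real.pi * y) ^ 2) ≤ 1 := by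
  rcases Nat.eq_zero_or_pos M with rfl | hM
  · simp
  have hM' : (0 : ℝ) < M := by exact_mod_cast hM
  unfold Dk
  rw [Dk_sq, Finset.card_range]
  have h1 := sum_cos M y
  have h2 := sum_sin M y
  obtain ⟨C, hC⟩ : ∃ C, C = ∑ j ∈ Finset.range M, Real.cos (2 * Real.pi * y * j) := ⟨_, rfl⟩
  obtain ⟨S, hS⟩ : ∃ S, S = ∑ j ∈ Finset.range M, Real.sin (2 * Real.pi * y * j) := ⟨_, rfl⟩
  rw [← hC] at h1
  rw [← hS] at h2
  rw [← hC, ← hS]
  have h3 := Real.sin_sq_add_cos_sq (2 * Real.pi * y * M - Real.pi * y)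
  have h4 := Real.sin_sq_add_cos_sq (Real.pi * y)
  have h5 := Real.neg_one_le_cos ((2 * Real.pi * y * M - Real.pi * y) + Real.pi * y)
  rw [Real.cos_add] at h5
  have e : (C ^ 2 + S ^ 2) / (M : ℝ) ^ 2 * (M ^ 2 * Real.sin (Real.pi * y) ^ 2) =
      ((C * (2 * Real.sin (Real.pi * y))) ^ 2 + (S * (2 * Real.sin (Real.pi * y))) ^ 2) / 4 := by
    field_simp
    ring
  rw [e, h1, h2]
  nlinarith

lemma Dk_range_le {M : ℕ} {δ : ℝ} (hδ : 0 < δ) (hM : 2 / δ ≤ M) (y : ℝ) :
    Dk (Finset.range M) y ≤ Real.cos (2 * Real.pi * y) ^ 2 + δ := by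
  have h1 : Real.cos (2 * Real.pi * y) ^ 2 = 1 - 4 * Real.sin (Real.pi * y) ^ 2 *
      Real.cos (Real.pi * y) ^ 2 := by
    have h := Real.sin_sq_add_cos_sq (2 * Real.pi * y)
    have h2 : Real.sin (2 * Real.pi * y) = 2 * Real.sin (Real.pi * y) * Real.cos (Real.pi * y) := by
      rw [← Real.sin_two_mul]
      ring_nf
    rw [h2] at h
    nlinarith
  rcases le_or_gt (4 * Real.sin (Real.pi * y) ^ 2) δ with h | h
  · have h2 := Dk_le_one (Finset.range M) y
    have h3 := Real.cos_sq_le_one (Real.pi * y)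
    have h4 : 4 * Real.sin (Real.pi * y) ^ 2 * Real.cos (Real.pi * y) ^ 2 ≤
        4 * Real.sin (Real.pi * y) ^ 2 * 1 := by gcongr
    rw [h1]
    linarith
  · have h2 := Dk_range M y
    have h3 : 2 ≤ M * δ := by rwa [div_le_iff₀ hδ] at hM
    have h4 : 1 ≤ M ^ 2 * Real.sin (Real.pi * y) ^ 2 * δ := by
      have h5 : (2 : ℝ) ^ 2 ≤ (M * δ) ^ 2 := by gcongr
      have h6 : 0 ≤ (M : ℝ) ^ 2 := by positivity
      nlinarith
    have h5 := Dk_nonneg (Finset.range M) y
    have h6 : Dk (Finset.range M) y ≤ δ := by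
      by_contra hcon
      push Not at hcon
      have h7 : 0 < (M : ℝ) ^ 2 * Real.sin (Real.pi * y) ^ 2 := by
        by_contra h8
        push Not at h8
        nlinarith
      nlinarith
    have h7 : 0 ≤ Real.cos (2 * Real.pi * y) ^ 2 := sq_nonneg _
    linarith

end Pool.Agent.K3h84.PC
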