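import Pool.Agent.K3h84.PC.DP

/-!
# The test functions
-/

set_option autoImplicit false

open MeasureTheory Set Filter Topology

namespace Pool.Agent.K3h84.PC

open Pool.Agent.Y749.Rig (Fr Mp Mp_fin Fr_pair Fr_nonneg Fr_cont Fr_even tr tr_cont tr_nonneg tr_supp
  tr_even tr_int adm_tr fl fl_cont cc Adm modu adm_modu fl_modu fl_tr_nonneg fl_tr_zero ww ww_pos ww_le
  ww_cont ww_zero Mp_zero int_tr int_supp)

/-- the averaged tents -/
noncomputable def kM (M : ℕ) (α : ℝ) : ℝ :=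
  (∑ i ∈ Finset.range M, ∑ i' ∈ Finset.range M, modu (((i : ℝ) - i') / 3) (tr 1) α) / (M : ℝ) ^ 2

lemma modu_tr_int (ω : ℝ) {h : ℝ} (hh : 0 < h) : Integrable (modu ω (tr h)) :=
  (adm_modu (adm_tr hh) ω).int

lemma modu_tr_cont (ω h : ℝ) : Continuous (modu ω (tr h)) := by
  have := tr_cont h
  unfold modu
  fun_prop

lemma modu_tr_nonneg (ω : ℝ) {h : ℝ} (hh : 0 < h) (α : ℝ) : 0 ≤ modu ω (tr h) α := by
  have h1 := tr_nonneg hh (α - ω)
  have h2 := tr_nonneg hh (α + ω)
  unfold modu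
  linarith

lemma kM_int (M : ℕ) : Integrable (kM M) := by
  unfold kM
  refine Integrable.div_const ?_ _
  exact integrable_finsetSum _ fun i _ => integrable_finsetSum _ fun i' _ => modu_tr_int _ one_pos

lemma kM_cont (M : ℕ) : Continuous (kM M) := by
  unfold kM
  refine Continuous.div_const ?_ _
  exact continuous_finsetSum _ fun i _ => continuous_finsetSum _ fun i' _ => modu_tr_cont _ _

lemma kM_nonneg (M : ℕ) (α : ℝ) : 0 ≤ kM M α := by
  unfold kM
  refine div_nonneg ?_ (by positivity)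
  exact Finset.sum_nonneg fun i _ => Finset.sum_nonneg fun i' _ => modu_tr_nonneg _ one_pos α

lemma fl_kM (M : ℕ) (x : ℝ) : fl (kM M) x = fl (tr 1) x * Dk (Finset.range M) (x / 3) := by
  have e : ∀ α, kM M α * Real.cos (2 * Real.pi * α * x) = (∑ i ∈ Finset.range M,
      ∑ i' ∈ Finset.range M, modu (((i : ℝ) - i') / 3) (tr 1) α * Real.cos (2 * Real.pi * α * x)) /
        (M : ℝ) ^ 2 := by
    intro α
    unfold kM
    simp_rw [← Finset.sum_mul]
    ring
  unfold fl
  simp_rw [e]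
  rw [integral_div, integral_finsetSum]
  · have h1 : ∀ i ∈ Finset.range M, ∫ α, ∑ i' ∈ Finset.range M, modu (((i : ℝ) - i') / 3) (tr 1) α *
        Real.cos (2 * Real.pi * α * x) =
        fl (tr 1) x * ∑ i' ∈ Finset.range M, Real.cos (2 * Real.pi * (x / 3) * ((i : ℝ) - i')) := by
      intro i _
      rw [integral_finsetSum, Finset.mul_sum]
      · refine Finset.sum_congr rfl fun i' _ => ?_
        have h2 := fl_modu (adm_tr one_pos) (((i : ℝ) - i') / 3) x
        unfold fl at h2 ⊢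
        rw [h2]
        congr 2
        ring
      · intro i' _
        exact cosmul_int (modu_tr_int _ one_pos) x
    rw [Finset.sum_congr rfl h1, ← Finset.mul_sum]
    unfold Dk fl
    rw [Finset.card_range]
    ring
  · intro i _
    exact integrable_finsetSum _ fun i' _ => cosmul_int (modu_tr_int _ one_pos) x

/-- the clamp -/
noncomputable def cl (z : ℝ) : ℝ := min 1 (max 0 z)

lemma cl_nonneg (z : ℝ) : 0 ≤ cl z := le_min zero_le_one (le_max_left _ _)

lemma cl_le (z : ℝ) : cl z ≤ 1 := min_le_left _ _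

lemma hat_cl (z : ℝ) : tr 1 z = cl (z + 1) - cl z := by
  unfold tr cl
  rcases le_total z 0 with h | h
  · rw [abs_of_nonpos h, max_eq_left h, min_eq_right zero_le_one]
    rcases le_total (z + 1) 0 with h2 | h2
    · rw [max_eq_left h2, min_eq_right zero_le_one, max_eq_left (by linarith)]
      simp
    · rw [max_eq_right h2, min_eq_right (by linarith), max_eq_right (by linarith)]
      ring
  · rw [abs_of_nonneg h, max_eq_right h, max_eq_right (show 0 ≤ z + 1 by linarith),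
      min_eq_left (show 1 ≤ z + 1 by linarith)]
    rcases le_total z 1 with h2 | h2
    · rw [min_eq_right h2, max_eq_right (by linarith)]
      ring
    · rw [min_eq_left h2, max_eq_left (by linarith)]
      simp

lemma tele3 (f : ℕ → ℝ) (M : ℕ) : ∑ i ∈ Finset.range M, (f (i + 3) - f i) =
    f M + f (M + 1) + f (M + 2) - f 0 - f 1 - f 2 := by
  induction M with
  | zero => simp only [Finset.range_zero, Finset.sum_empty, zero_add]; ring
  | succ M ih =>
    rw [Finset.sum_range_succ, ih]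
    ring_nf

lemma hats_le (M : ℕ) (y : ℝ) : ∑ i ∈ Finset.range M, tr 1 (y + (i : ℝ) / 3) ≤ 3 := by
  have h : ∀ i : ℕ, tr 1 (y + (i : ℝ) / 3) = (fun j : ℕ => cl (y + (j : ℝ) / 3)) (i + 3) -
      (fun j : ℕ => cl (y + (j : ℝ) / 3)) i := by
    intro i
    simp only
    rw [hat_cl]
    congr 2
    push_cast
    ring
  rw [Finset.sum_congr rfl fun i _ => h i, tele3 (fun j : ℕ => cl (y + (j : ℝ) / 3)) M]
  have h1 := cl_le (y + (M : ℝ) / 3)
  have h2 := cl_le (y + ((M + 1 : ℕ) : ℝ) / 3)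
  have h3 := cl_le (y + ((M + 2 : ℕ) : ℝ) / 3)
  have h4 := cl_nonneg (y + ((0 : ℕ) : ℝ) / 3)
  have h5 := cl_nonneg (y + ((1 : ℕ) : ℝ) / 3)
  have h6 := cl_nonneg (y + ((2 : ℕ) : ℝ) / 3)
  linarith

lemma kM_le {M : ℕ} (hM : 0 < M) (α : ℝ) : kM M α ≤ 3 / M := by
  have hM' : (0 : ℝ) < M := by exact_mod_cast hM
  unfold kM
  rw [div_le_div_iff₀ (by positivity) hM']
  have h1 : ∀ i ∈ Finset.range M, ∑ i' ∈ Finset.range M, modu (((i : ℝ) - i') / 3) (tr 1) α ≤ 3 := by
    intro i _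
    have e : ∀ i' ∈ Finset.range M, modu (((i : ℝ) - i') / 3) (tr 1) α =
        (tr 1 ((α - i / 3) + (i' : ℝ) / 3) + tr 1 ((-α - i / 3) + (i' : ℝ) / 3)) / 2 := by
      intro i' _
      unfold modu
      have e1 : α - ((i : ℝ) - i') / 3 = (α - i / 3) + (i' : ℝ) / 3 := by ring
      have e2 : α + ((i : ℝ) - i') / 3 = -((-α - i / 3) + (i' : ℝ) / 3) := by ring
      rw [e1, e2, tr_even]
    rw [Finset.sum_congr rfl e, ← Finset.sum_div, Finset.sum_add_distrib]
    have h2 := hats_le M (α - i / 3)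
    have h3 := hats_le M (-α - i / 3)
    linarith
  have h2 : ∑ i ∈ Finset.range M, ∑ i' ∈ Finset.range M, modu (((i : ℝ) - i') / 3) (tr 1) α ≤
      M * 3 := by
    refine (Finset.sum_le_sum h1).trans (le_of_eq ?_)
    rw [Finset.sum_const, Finset.card_range, nsmul_eq_mul]
  calc _ ≤ M * 3 * (M : ℝ) := by gcongr
    _ = 3 * (M : ℝ) ^ 2 := by ring

lemma kM_supp {M : ℕ} {α : ℝ} (hα : ((M : ℝ) + 2) / 3 ≤ |α|) : kM M α = 0 := by
  unfold kM
  rw [Finset.sum_eq_zero, zero_div]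
  intro i hi
  refine Finset.sum_eq_zero fun i' hi' => ?_
  rw [Finset.mem_range] at hi hi'
  have h1 : (i : ℝ) + 1 ≤ M := by exact_mod_cast hi
  have h2 : (i' : ℝ) + 1 ≤ M := by exact_mod_cast hi'
  have h3 : (0 : ℝ) ≤ i := Nat.cast_nonneg _
  have h4 : (0 : ℝ) ≤ i' := Nat.cast_nonneg _
  have h5 : |((i : ℝ) - i') / 3| ≤ ((M : ℝ) - 1) / 3 := by
    rw [abs_le]
    constructor <;> linarith
  unfold modu
  rw [tr_supp one_pos, tr_supp one_pos]
  · simp
  · have := abs_sub_abs_le_abs_sub α (-(((i : ℝ) - i') / 3))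
    rw [abs_neg, sub_neg_eq_add] at this
    linarith
  · have := abs_sub_abs_le_abs_sub α (((i : ℝ) - i') / 3)
    linarith

/-- the hat in terms of absolute values -/
lemma hat_abs {w : ℝ} (hw : 0 < w) (z : ℝ) : w ^ 2 * tr w z = (|z - w| + |z + w|) / 2 - |z| := by
  have e : w ^ 2 * tr w z = max 0 (w - |z|) := by
    unfold tr
    rw [show w ^ 2 * (max 0 (1 - |z| / w) / w) = w * max 0 (1 - |z| / w) by field_simp,
      mul_max_of_nonneg _ _ hw.le]
    congr 1
    · simp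
    · field_simp
  rw [e]
  rcases abs_cases z with ⟨h1, h2⟩ | ⟨h1, h2⟩ <;>
  rcases abs_cases (z - w) with ⟨h3, h4⟩ | ⟨h3, h4⟩ <;>
  rcases abs_cases (z + w) with ⟨h5, h6⟩ | ⟨h5, h6⟩ <;>
  rw [h1, h3, h5] <;>
  rcases max_cases 0 (w - z) with ⟨h7, h8⟩ | ⟨h7, h8⟩ <;>
  rcases max_cases 0 (w - -z) with ⟨h9, h10⟩ | ⟨h9, h10⟩ <;>
  linarith

/-- the identity of the three tents -/
lemma tents (α : ℝ) : modu (2 / 3) (tr 1) α =
    4 / 9 * modu 1 (tr (2 / 3)) α + tr 1 α - 4 / 9 * tr (2 / 3) α := by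
  have h23 : (0 : ℝ) < 2 / 3 := by norm_num
  have a1 := hat_abs one_pos (α - 2 / 3)
  have a2 := hat_abs one_pos (α + 2 / 3)
  have a3 := hat_abs one_pos α
  have b1 := hat_abs h23 (α - 1)
  have b2 := hat_abs h23 (α + 1)
  have b3 := hat_abs h23 α
  rw [show α - 2 / 3 - 1 = α - 5 / 3 by ring, show α - 2 / 3 + 1 = α + 1 / 3 by ring] at a1
  rw [show α + 2 / 3 - 1 = α - 1 / 3 by ring, show α + 2 / 3 + 1 = α + 5 / 3 by ring] at a2
  rw [show α - 1 - 2 / 3 = α - 5 / 3 by ring, show α - 1 + 2 / 3 = α - 1 / 3 by ring] at b1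
  rw [show α + 1 - 2 / 3 = α + 1 / 3 by ring, show α + 1 + 2 / 3 = α + 5 / 3 by ring] at b2
  unfold modu
  linarith

/-- the transform of the test function is nonnegative -/
lemma test_nonneg {M : ℕ} {δ : ℝ} (hδ : 0 < δ) (hM : 2 / δ ≤ M) (x : ℝ) :
    0 ≤ fl (fun α => (1 / 2 + δ) * tr 1 α + 1 / 2 * modu (2 / 3) (tr 1) α - kM M α) x := by
  have i1 := cosmul_int (tr_int one_pos) x
  have i2 := cosmul_int (modu_tr_int (2 / 3) one_pos) x
  have i3 := cosmul_int (kM_int M) x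
  have e : fl (fun α => (1 / 2 + δ) * tr 1 α + 1 / 2 * modu (2 / 3) (tr 1) α - kM M α) x =
      (1 / 2 + δ) * fl (tr 1) x + 1 / 2 * fl (modu (2 / 3) (tr 1)) x - fl (kM M) x := by
    unfold fl
    rw [← integral_const_mul, ← integral_const_mul,
      ← integral_add (i1.const_mul _) (i2.const_mul _), ← integral_sub _ i3]
    · refine integral_congr_ae (ae_of_all _ fun α => ?_)
      simp only
      ring
    · exact (i1.const_mul _).add (i2.const_mul _)
  rw [e, fl_modu (adm_tr one_pos), fl_kM]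
  have h1 := Dk_range_le hδ hM (x / 3)
  have h2 : Real.cos (2 * Real.pi * (x / 3)) ^ 2 = 1 / 2 + 1 / 2 * Real.cos (2 * Real.pi * (2 / 3) * x) := by
    rw [Real.cos_sq]
    congr 2
    · ring_nf
  rw [h2] at h1
  have h3 := fl_tr_nonneg one_pos x
  have h4 : (1 / 2 + δ) * fl (tr 1) x + 1 / 2 * (fl (tr 1) x * Real.cos (2 * Real.pi * (2 / 3) * x)) -
      fl (tr 1) x * Dk (Finset.range M) (x / 3) = fl (tr 1) x * (1 / 2 + 1 / 2 *
        Real.cos (2 * Real.pi * (2 / 3) * x) + δ - Dk (Finset.range M) (x / 3)) := by ring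
  rw [h4]
  exact mul_nonneg h3 (by linarith)

lemma kM_zero {M : ℕ} (hM : 0 < M) : fl (kM M) 0 = 1 := by
  rw [fl_kM, fl_tr_zero one_pos, zero_div, Dk_zero ⟨0, Finset.mem_range.2 hM⟩, mul_one]

lemma fl_kM_nonneg (M : ℕ) (x : ℝ) : 0 ≤ fl (kM M) x := by
  rw [fl_kM]
  exact mul_nonneg (fl_tr_nonneg one_pos x) (Dk_nonneg _ _)

/-- the average of the form factor is at least one -/
lemma kM_low {M : ℕ} (hM : 0 < M) {ε : ℝ} (hε : 0 < ε) :
    ∀ᶠ T in atTop, 1 - ε ≤ ∫ α, kM M α * Fr T α := by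
  filter_upwards [Mp_zero hε] with T hT
  have h := low_diag (T := T) (kM_int M) (fl_kM_nonneg M)
  rw [kM_zero hM, mul_one] at h
  linarith

/-- the average of the form factor is at most the pairing with the tent -/
lemma kM_up {M : ℕ} (T : ℝ) : ∫ α, kM M α * Fr T α ≤ ∫ α, tr 1 α * Fr T α := by
  have i1 : Integrable fun α => tr 1 α - kM M α := (tr_int one_pos).sub (kM_int M)
  have h := pd0 (T := T) i1 fun x => by
    have e : fl (fun α => tr 1 α - kM M α) x = fl (tr 1) x - fl (kM M) x := by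
      unfold fl
      rw [← integral_sub (cosmul_int (tr_int one_pos) x) (cosmul_int (kM_int M) x)]
      refine integral_congr_ae (ae_of_all _ fun α => ?_)
      simp only
      ring
    rw [e, fl_kM]
    have h1 := fl_tr_nonneg one_pos x
    have h2 := Dk_le_one (Finset.range M) (x / 3)
    nlinarith
  have e : ∫ α, (tr 1 α - kM M α) * Fr T α = (∫ α, tr 1 α * Fr T α) - ∫ α, kM M α * Fr T α := by
    rw [← integral_sub (mul_Fr_int (tr_int one_pos)) (mul_Fr_int (kM_int M))]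
    refine integral_congr_ae (ae_of_all _ fun α => ?_)
    simp only
    ring
  rw [e] at h
  linarith

end Pool.Agent.K3h84.PC
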