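import Pool.Agent.K3h84.PC.DQ

/-!
# The upper bound of the discrete part
-/

set_option autoImplicit false

open MeasureTheory Set Filter Topology

namespace Pool.Agent.K3h84.PC

open Pool.Agent.Y749.Rig (Fr Mp Mp_fin Fr_pair Fr_nonneg Fr_cont Fr_even tr tr_cont tr_nonneg tr_supp
  tr_even tr_int tr_eq adm_tr fl fl_cont cc Adm modu adm_modu fl_modu fl_tr_nonneg fl_tr_zero ww ww_pos
  ww_le ww_cont ww_zero Mp_zero int_tr int_supp)

lemma tr1_le (α : ℝ) : |α| * tr 1 α ≤ 1 / 4 := by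
  rcases le_or_gt 1 |α| with h | h
  · rw [tr_supp one_pos α h]
    norm_num
  · unfold tr
    rw [div_one, div_one, max_eq_right (by linarith)]
    nlinarith [sq_nonneg (|α| - 1 / 2)]

/-- the first limit -/
lemma lim_A (RH : RiemannHypothesis) {S : Finset ℕ} (hS : S.Nonempty) {e : ℝ} (he : 0 < e) :
    ∀ᶠ T in atTop, ∫ α, tr 1 α * Dk S α * Fr T α ≤ 1 + 1 / (2 * S.card) + e := by
  have hc : 0 < (S.card : ℝ) := by exact_mod_cast hS.card_pos
  have htc := tr_cont 1
  have hDc := Dk_cont S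
  have h := vag RH (φ := fun α => tr 1 α * Dk S α) (by fun_prop)
    (fun x => by rw [tr_even, Dk_even]) (fun x hx => by rw [tr_supp one_pos x hx, zero_mul])
  have h0 : tr 1 0 * Dk S 0 = 1 := by
    rw [Dk_zero hS]
    unfold tr
    norm_num
  have h1 : ∫ α, |α| * (tr 1 α * Dk S α) ≤ 1 / (2 * S.card) := by
    rw [int_supp one_pos (fun x hx => by rw [tr_supp one_pos x hx]; ring)]
    have h2 : ∫ α in (-1 : ℝ)..1, |α| * (tr 1 α * Dk S α) ≤ ∫ α in (-1 : ℝ)..1, 1 / 4 * Dk S α := by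
      refine intervalIntegral.integral_mono_on (by norm_num)
        (Continuous.intervalIntegrable (by fun_prop) _ _)
        (Continuous.intervalIntegrable (by fun_prop) _ _) fun α _ => ?_
      rw [← mul_assoc]
      exact mul_le_mul_of_nonneg_right (tr1_le α) (Dk_nonneg _ _)
    rw [intervalIntegral.integral_const_mul, Dk_int hS] at h2
    refine h2.trans (le_of_eq ?_)
    field_simp
    norm_num
  filter_upwards [h.eventually (ge_mem_nhds (show _ < 1 + 1 / (2 * (S.card : ℝ)) + e by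
    rw [h0]; linarith))] with T hT
  exact hT

/-- the second limit -/
lemma lim_B (RH : RiemannHypothesis) {S : Finset ℕ} (hS : S.Nonempty) {e : ℝ} (he : 0 < e) :
    ∀ᶠ T in atTop, 3 / 2 - e ≤ ∫ α, tr (2 / 3) α * Dk S α * Fr T α := by
  have h23 : (0 : ℝ) < 2 / 3 := by norm_num
  have htc := tr_cont (2 / 3)
  have hDc := Dk_cont S
  have h := vag RH (φ := fun α => tr (2 / 3) α * Dk S α) (by fun_prop)
    (fun x => by rw [tr_even, Dk_even])
    (fun x hx => by rw [tr_supp h23 x (by linarith), zero_mul])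
  have h0 : tr (2 / 3) 0 * Dk S 0 = 3 / 2 := by
    rw [Dk_zero hS]
    unfold tr
    norm_num
  have h1 : 0 ≤ ∫ α, |α| * (tr (2 / 3) α * Dk S α) :=
    integral_nonneg fun α => mul_nonneg (abs_nonneg _) (mul_nonneg (tr_nonneg h23 α) (Dk_nonneg _ _))
  filter_upwards [h.eventually (le_mem_nhds (show 3 / 2 - e < _ by
    rw [h0]; linarith))] with T hT
  exact hT

/-- the third limit -/
lemma lim_C (RH : RiemannHypothesis) {e : ℝ} (he : 0 < e) :
    ∀ᶠ T in atTop, ∫ α, tr (2 / 3) α * Fr T α ≤ 31 / 18 + e := by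
  have h23 : (0 : ℝ) < 2 / 3 := by norm_num
  have htc := tr_cont (2 / 3)
  have h := vag RH (φ := fun α => tr (2 / 3) α) (by fun_prop)
    (fun x => by rw [tr_even]) (fun x hx => by rw [tr_supp h23 x (by linarith)])
  have h0 : tr (2 / 3) 0 = 3 / 2 := by
    unfold tr
    norm_num
  have hf : Continuous fun α : ℝ => |α| * tr (2 / 3) α := by fun_prop
  have h1 : ∫ α, |α| * tr (2 / 3) α = 2 / 9 := by
    rw [int_supp h23 (fun x hx => by rw [tr_supp h23 x hx, mul_zero]),
      ← intervalIntegral.integral_add_adjacent_intervals (b := 0) (hf.intervalIntegrable _ _)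
      (hf.intervalIntegrable _ _)]
    have h5 : ∫ α in (-(2 / 3) : ℝ)..0, |α| * tr (2 / 3) α = ∫ α in (0 : ℝ)..(2 / 3), |α| * tr (2 / 3) α := by
      have := intervalIntegral.integral_comp_neg (a := (0 : ℝ)) (b := 2 / 3)
        (fun α => |α| * tr (2 / 3) α)
      rw [neg_zero] at this
      rw [← this]
      exact intervalIntegral.integral_congr fun α _ => by
        show |-α| * tr (2 / 3) (-α) = |α| * tr (2 / 3) α
        rw [abs_neg, tr_even]
    have h6 : ∫ α in (0 : ℝ)..(2 / 3), |α| * tr (2 / 3) α =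
        ∫ α in (0 : ℝ)..(2 / 3), (3 / 2 * α - 9 / 4 * α ^ 2) := by
      refine intervalIntegral.integral_congr fun α hα => ?_
      rw [uIcc_of_le h23.le] at hα
      show |α| * tr (2 / 3) α = _
      rw [tr_eq h23 hα.1 hα.2, abs_of_nonneg hα.1]
      ring
    rw [h5, h6, intervalIntegral.integral_sub (Continuous.intervalIntegrable (by fun_prop) _ _)
      (Continuous.intervalIntegrable (by fun_prop) _ _), intervalIntegral.integral_const_mul,
      intervalIntegral.integral_const_mul, integral_id, integral_pow]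
    norm_num
  filter_upwards [h.eventually (ge_mem_nhds (show _ < 31 / 18 + e by
    rw [h0, h1]; linarith))] with T hT
  exact hT

/-- the cut off tent at one -/
noncomputable def chi (N : ℕ) (α : ℝ) : ℝ := modu 1 (tr (2 / 3)) α * max 0 (1 - α ^ (2 * N))

lemma chi_cont (N : ℕ) : Continuous (chi N) := by
  have := modu_tr_cont 1 (2 / 3)
  unfold chi
  fun_prop

lemma modu_even (ω : ℝ) (h α : ℝ) : modu ω (tr h) (-α) = modu ω (tr h) α := by
  unfold modu
  rw [show -α - ω = -(α + ω) by ring, show -α + ω = -(α - ω) by ring, tr_even, tr_even]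
  ring

lemma pow_even (N : ℕ) (α : ℝ) : (-α) ^ (2 * N) = α ^ (2 * N) := by
  rw [pow_mul, pow_mul, neg_sq]

lemma chi_even (N : ℕ) (α : ℝ) : chi N (-α) = chi N α := by
  unfold chi
  rw [modu_even, pow_even]

lemma chi_le (N : ℕ) (α : ℝ) : chi N α ≤ modu 1 (tr (2 / 3)) α := by
  unfold chi
  have h1 := modu_tr_nonneg 1 (show (0 : ℝ) < 2 / 3 by norm_num) α
  have h2 : 0 ≤ α ^ (2 * N) := by rw [pow_mul]; positivity
  refine mul_le_of_le_one_right h1 (max_le zero_le_one (by linarith))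

lemma chi_supp {N : ℕ} {α : ℝ} (hα : 1 ≤ |α|) : chi N α = 0 := by
  unfold chi
  rw [max_eq_left, mul_zero]
  have : 1 ≤ α ^ (2 * N) := by
    rw [pow_mul, ← sq_abs, ← pow_mul]
    exact one_le_pow₀ hα
  linarith

lemma mu_le (α : ℝ) : modu 1 (tr (2 / 3)) α ≤ 3 / 4 := by
  have h23 : (0 : ℝ) < 2 / 3 := by norm_num
  have hb : ∀ z, tr (2 / 3) z ≤ 3 / 2 := by
    intro z
    unfold tr
    rw [div_le_iff₀ h23]
    refine max_le (by norm_num) ?_
    have : 0 ≤ |z| / (2 / 3) := by positivity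
    linarith
  unfold modu
  rcases le_total 0 α with h0 | h0
  · have h1 := hb (α - 1)
    have h2 := tr_supp h23 (α + 1) (by rw [abs_of_nonneg (by linarith)]; linarith)
    rw [h2]
    linarith
  · have h1 := hb (α + 1)
    have h2 := tr_supp h23 (α - 1) (by rw [abs_of_nonpos (by linarith)]; linarith)
    rw [h2]
    linarith

lemma mu_int : 7 / 18 ≤ ∫ α in (-1 : ℝ)..1, |α| * modu 1 (tr (2 / 3)) α := by
  have h23 : (0 : ℝ) < 2 / 3 := by norm_num
  have hm := modu_tr_cont 1 (2 / 3)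
  have hf : Continuous fun α : ℝ => |α| * modu 1 (tr (2 / 3)) α := by fun_prop
  have hf0 : ∀ α : ℝ, 0 ≤ |α| * modu 1 (tr (2 / 3)) α := fun α =>
    mul_nonneg (abs_nonneg _) (modu_tr_nonneg 1 h23 α)
  rw [← intervalIntegral.integral_add_adjacent_intervals (b := 0) (hf.intervalIntegrable _ _)
      (hf.intervalIntegrable _ _)]
  have h5 : ∫ α in (-1 : ℝ)..0, |α| * modu 1 (tr (2 / 3)) α =
      ∫ α in (0 : ℝ)..1, |α| * modu 1 (tr (2 / 3)) α := by
    have := intervalIntegral.integral_comp_neg (a := (0 : ℝ)) (b := 1)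
      (fun α => |α| * modu 1 (tr (2 / 3)) α)
    rw [neg_zero] at this
    rw [← this]
    exact intervalIntegral.integral_congr fun α _ => by
      show |-α| * modu 1 (tr (2 / 3)) (-α) = |α| * modu 1 (tr (2 / 3)) α
      rw [abs_neg, modu_even]
  have h6 : ∫ α in (1 / 3 : ℝ)..1, |α| * modu 1 (tr (2 / 3)) α ≤
      ∫ α in (0 : ℝ)..1, |α| * modu 1 (tr (2 / 3)) α :=
    intervalIntegral.integral_mono_interval (by norm_num) (by norm_num) le_rfl
      (ae_of_all _ hf0) (hf.intervalIntegrable _ _)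
  have h7 : ∫ α in (1 / 3 : ℝ)..1, |α| * modu 1 (tr (2 / 3)) α =
      ∫ α in (1 / 3 : ℝ)..1, (9 / 8 * α ^ 2 - 3 / 8 * α) := by
    refine intervalIntegral.integral_congr fun α hα => ?_
    rw [uIcc_of_le (by norm_num)] at hα
    have h8 := hα.1
    have h9 := hα.2
    show |α| * modu 1 (tr (2 / 3)) α = _
    unfold modu
    rw [tr_supp h23 (α + 1) (by rw [abs_of_nonneg (by linarith)]; linarith),
      show α - 1 = -(1 - α) by ring, tr_even, tr_eq h23 (by linarith) (by linarith),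
      abs_of_nonneg (by linarith)]
    ring
  have h8 : ∫ α in (1 / 3 : ℝ)..1, (9 / 8 * α ^ 2 - 3 / 8 * α) = 7 / 36 := by
    rw [intervalIntegral.integral_sub (Continuous.intervalIntegrable (by fun_prop) _ _)
      (Continuous.intervalIntegrable (by fun_prop) _ _), intervalIntegral.integral_const_mul,
      intervalIntegral.integral_const_mul, integral_id, integral_pow]
    norm_num
  rw [h5]
  rw [h7, h8] at h6
  linarith

/-- the fourth limit -/
lemma lim_E (RH : RiemannHypothesis) {S : Finset ℕ} (hS : S.Nonempty) (N : ℕ) {e : ℝ} (he : 0 < e) :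
    ∀ᶠ T in atTop, 7 / 18 - 3 / 2 / (2 * N + 1) - 3 / 2 / S.card - e ≤
      ∫ α, chi N α * (1 - Dk S α) * Fr T α := by
  have hc : 0 < (S.card : ℝ) := by exact_mod_cast hS.card_pos
  have h23 : (0 : ℝ) < 2 / 3 := by norm_num
  have htc := chi_cont N
  have hDc := Dk_cont S
  have hmc := modu_tr_cont 1 (2 / 3)
  have h := vag RH (φ := fun α => chi N α * (1 - Dk S α)) (by fun_prop)
    (fun x => by rw [chi_even, Dk_even]) (fun x hx => by rw [chi_supp hx, zero_mul])
  have h0 : chi N 0 * (1 - Dk S 0) = 0 := by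
    rw [Dk_zero hS, sub_self, mul_zero]
  have h1 : 7 / 18 - 3 / 2 / (2 * N + 1) - 3 / 2 / S.card ≤ ∫ α, |α| * (chi N α * (1 - Dk S α)) := by
    rw [int_supp one_pos (fun x hx => by rw [chi_supp hx]; ring)]
    have h2 : ∫ α in (-1 : ℝ)..1, (|α| * modu 1 (tr (2 / 3)) α - 3 / 4 * α ^ (2 * N) - 3 / 4 * Dk S α) ≤
        ∫ α in (-1 : ℝ)..1, |α| * (chi N α * (1 - Dk S α)) := by
      refine intervalIntegral.integral_mono_on (by norm_num)
        (Continuous.intervalIntegrable (by fun_prop) _ _)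
        (Continuous.intervalIntegrable (by fun_prop) _ _) fun α hα => ?_
      have ha : |α| ≤ 1 := abs_le.2 ⟨hα.1, hα.2⟩
      have hp0 : 0 ≤ α ^ (2 * N) := by rw [pow_mul]; positivity
      have hp1 : α ^ (2 * N) ≤ 1 := by
        rw [pow_mul, ← sq_abs, ← pow_mul]
        exact pow_le_one₀ (abs_nonneg _) ha
      have hD0 := Dk_nonneg S α
      have hD1 := Dk_le_one S α
      have hm0 := modu_tr_nonneg 1 h23 α
      have hm1 := mu_le α
      unfold chi
      rw [max_eq_right (by linarith)]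
      have hz0 : 0 ≤ |α| * modu 1 (tr (2 / 3)) α := mul_nonneg (abs_nonneg _) hm0
      have hz1 : |α| * modu 1 (tr (2 / 3)) α ≤ 3 / 4 := by
        calc |α| * modu 1 (tr (2 / 3)) α ≤ 1 * (3 / 4) :=
              mul_le_mul ha hm1 hm0 zero_le_one
          _ = 3 / 4 := by ring
      have e1 : |α| * (modu 1 (tr (2 / 3)) α * (1 - α ^ (2 * N)) * (1 - Dk S α)) =
          |α| * modu 1 (tr (2 / 3)) α * (1 - α ^ (2 * N) - Dk S α + α ^ (2 * N) * Dk S α) := by ring
      rw [e1]
      have h3 : 0 ≤ |α| * modu 1 (tr (2 / 3)) α * (α ^ (2 * N) * Dk S α) := by positivity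
      have h4 : |α| * modu 1 (tr (2 / 3)) α * (α ^ (2 * N)) ≤ 3 / 4 * α ^ (2 * N) := by gcongr
      have h5 : |α| * modu 1 (tr (2 / 3)) α * Dk S α ≤ 3 / 4 * Dk S α := by gcongr
      nlinarith
    have h3 := mu_int
    have h4 : ∫ α in (-1 : ℝ)..1, (|α| * modu 1 (tr (2 / 3)) α - 3 / 4 * α ^ (2 * N) - 3 / 4 * Dk S α) =
        (∫ α in (-1 : ℝ)..1, |α| * modu 1 (tr (2 / 3)) α) - 3 / 2 / (2 * N + 1) - 3 / 2 / S.card := by
      rw [intervalIntegral.integral_sub (Continuous.intervalIntegrable (by fun_prop) _ _)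
        (Continuous.intervalIntegrable (by fun_prop) _ _),
        intervalIntegral.integral_sub (Continuous.intervalIntegrable (by fun_prop) _ _)
        (Continuous.intervalIntegrable (by fun_prop) _ _), intervalIntegral.integral_const_mul,
        intervalIntegral.integral_const_mul, Dk_int hS, integral_pow]
      have e2 : (-1 : ℝ) ^ (2 * N + 1) = -1 := by
        rw [pow_succ, pow_mul]
        norm_num
      rw [e2]
      push_cast
      field_simp
      ring
    linarith
  filter_upwards [h.eventually (le_mem_nhds (show 7 / 18 - 3 / 2 / (2 * N + 1) - 3 / 2 / S.card - e < _ by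
    rw [h0]; linarith))] with T hT
  exact hT

/-- the upper bound for one set -/
lemma up_one (RH : RiemannHypothesis) {S : Finset ℕ} (hS : S.Nonempty) {M : ℕ} {δ : ℝ} (hδ : 0 < δ)
    (hM : 2 / δ ≤ M) (N : ℕ) {e : ℝ} (he : 0 < e) :
    ∀ᶠ T in atTop, ∫ α, kM M α * Dk S α * Fr T α ≤ (1 + δ) * (1 + 1 / (2 * S.card) + e) - 1 / 27 +
      2 / 3 * e + 1 / 3 * (1 / (2 * N + 1) + 1 / S.card) := by
  have h23 : (0 : ℝ) < 2 / 3 := by norm_num
  filter_upwards [lim_A RH hS he, lim_B RH hS he, lim_C RH he, lim_E RH hS N he,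
    eventually_ge_atTop 10] with T hA hB hC hE hT
  have hF0 := Fr_nonneg hT
  have iA := mul_Fr_int (T := T) (mul_Dk_int (S := S) (tr_int one_pos))
  have iB := mul_Fr_int (T := T) (mul_Dk_int (S := S) (tr_int h23))
  have iG := mul_Fr_int (T := T) (mul_Dk_int (S := S) (modu_tr_int 1 h23))
  have iH := mul_Fr_int (T := T) (mul_Dk_int (S := S) (modu_tr_int (2 / 3) one_pos))
  have iK := mul_Fr_int (T := T) (mul_Dk_int (S := S) (kM_int M))
  have iC := mul_Fr_int (T := T) (tr_int h23)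
  have iC' := mul_Fr_int (T := T) (modu_tr_int 1 h23)
  -- the tent at one
  have h1 : ∫ α, modu 1 (tr (2 / 3)) α * Fr T α ≤ ∫ α, tr (2 / 3) α * Fr T α := by
    have i1 : Integrable fun α => tr (2 / 3) α - modu 1 (tr (2 / 3)) α :=
      (tr_int h23).sub (modu_tr_int 1 h23)
    have h := pd0 (T := T) i1 fun x => by
      have e : fl (fun α => tr (2 / 3) α - modu 1 (tr (2 / 3)) α) x =
          fl (tr (2 / 3)) x - fl (modu 1 (tr (2 / 3))) x := by
        unfold fl
        rw [← integral_sub (cosmul_int (tr_int h23) x) (cosmul_int (modu_tr_int 1 h23) x)]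
        refine integral_congr_ae (ae_of_all _ fun α => ?_)
        simp only
        ring
      rw [e, fl_modu (adm_tr h23)]
      have h1 := fl_tr_nonneg h23 x
      have h2 := Real.cos_le_one (2 * Real.pi * 1 * x)
      nlinarith
    have e : ∫ α, (tr (2 / 3) α - modu 1 (tr (2 / 3)) α) * Fr T α =
        (∫ α, tr (2 / 3) α * Fr T α) - ∫ α, modu 1 (tr (2 / 3)) α * Fr T α := by
      rw [← integral_sub iC iC']
      refine integral_congr_ae (ae_of_all _ fun α => ?_)
      simp only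
      ring
    rw [e] at h
    linarith
  have h2 : ∫ α, modu 1 (tr (2 / 3)) α * Dk S α * Fr T α ≤
      (∫ α, modu 1 (tr (2 / 3)) α * Fr T α) - ∫ α, chi N α * (1 - Dk S α) * Fr T α := by
    have i5 : Integrable fun α => chi N α * (1 - Dk S α) * Fr T α := by
      have hcc := chi_cont N
      have hDc := Dk_cont S
      exact mul_Fr_int (supp_int (f := fun α => chi N α * (1 - Dk S α)) (by fun_prop)
        fun x hx => by rw [chi_supp hx, zero_mul])
    rw [← integral_sub iC' i5]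
    refine integral_mono iG (iC'.sub i5) fun α => ?_
    simp only
    have h3 := chi_le N α
    have h4 := Dk_le_one S α
    have h5 := hF0 α
    have h6 : 0 ≤ (modu 1 (tr (2 / 3)) α - chi N α) * (1 - Dk S α) * Fr T α :=
      mul_nonneg (mul_nonneg (by linarith) (by linarith)) h5
    nlinarith
  -- the identity
  have h3 : ∫ α, modu (2 / 3) (tr 1) α * Dk S α * Fr T α =
      4 / 9 * (∫ α, modu 1 (tr (2 / 3)) α * Dk S α * Fr T α) + (∫ α, tr 1 α * Dk S α * Fr T α) -
        4 / 9 * ∫ α, tr (2 / 3) α * Dk S α * Fr T α := by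
    have i7 : Integrable fun α => 4 / 9 * (modu 1 (tr (2 / 3)) α * Dk S α * Fr T α) +
        tr 1 α * Dk S α * Fr T α := (iG.const_mul _).add iA
    rw [← integral_const_mul, ← integral_const_mul, ← integral_add (iG.const_mul _) iA,
      ← integral_sub i7 (iB.const_mul _)]
    refine integral_congr_ae (ae_of_all _ fun α => ?_)
    simp only
    rw [tents]
    ring
  -- positivity
  have h4 : ∫ α, kM M α * Dk S α * Fr T α ≤ (1 / 2 + δ) * (∫ α, tr 1 α * Dk S α * Fr T α) +
      1 / 2 * ∫ α, modu (2 / 3) (tr 1) α * Dk S α * Fr T α := by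
    have i1 : Integrable fun α => (1 / 2 + δ) * tr 1 α + 1 / 2 * modu (2 / 3) (tr 1) α - kM M α :=
      (((tr_int one_pos).const_mul _).add ((modu_tr_int (2 / 3) one_pos).const_mul _)).sub (kM_int M)
    have h := pdD (T := T) S i1 (test_nonneg hδ hM)
    have e : ∫ α, ((1 / 2 + δ) * tr 1 α + 1 / 2 * modu (2 / 3) (tr 1) α - kM M α) * Dk S α * Fr T α =
        (1 / 2 + δ) * (∫ α, tr 1 α * Dk S α * Fr T α) +
        1 / 2 * (∫ α, modu (2 / 3) (tr 1) α * Dk S α * Fr T α) - ∫ α, kM M α * Dk S α * Fr T α := by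
      have i7 : Integrable fun α => (1 / 2 + δ) * (tr 1 α * Dk S α * Fr T α) +
          1 / 2 * (modu (2 / 3) (tr 1) α * Dk S α * Fr T α) := (iA.const_mul _).add (iH.const_mul _)
      rw [← integral_const_mul, ← integral_const_mul, ← integral_add (iA.const_mul _) (iH.const_mul _),
        ← integral_sub i7 iK]
      refine integral_congr_ae (ae_of_all _ fun α => ?_)
      simp only
      ring
    rw [e] at h
    linarith
  have e3 : (3 : ℝ) / 2 / (2 * N + 1) = 3 / 2 * (1 / (2 * N + 1)) := by ring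
  have e4 : (3 : ℝ) / 2 / S.card = 3 / 2 * (1 / S.card) := by ring
  rw [e3, e4] at hE
  obtain ⟨A, hAA⟩ : ∃ A, A = ∫ α, tr 1 α * Dk S α * Fr T α := ⟨_, rfl⟩
  obtain ⟨B, hBB⟩ : ∃ B, B = ∫ α, tr (2 / 3) α * Dk S α * Fr T α := ⟨_, rfl⟩
  obtain ⟨G, hGG⟩ : ∃ G, G = ∫ α, modu 1 (tr (2 / 3)) α * Dk S α * Fr T α := ⟨_, rfl⟩
  obtain ⟨H, hHH⟩ : ∃ H, H = ∫ α, modu (2 / 3) (tr 1) α * Dk S α * Fr T α := ⟨_, rfl⟩
  rw [← hAA] at hA h3 h4
  rw [← hBB] at hB h3
  rw [← hGG] at h2 h3
  rw [← hHH] at h3 h4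
  have h5 : G ≤ 31 / 18 + e - (7 / 18 - 3 / 2 * (1 / (2 * N + 1)) - 3 / 2 * (1 / S.card) - e) := by
    linarith
  have h6 : (1 + δ) * A ≤ (1 + δ) * (1 + 1 / (2 * S.card) + e) := by gcongr
  nlinarith

/-- **the upper bound for all sets** -/
theorem upD (RH : RiemannHypothesis) {ε : ℝ} (hε : 0 < ε) (hε1 : ε ≤ 1) {M : ℕ} (hM : 16 / ε ≤ M)
    (R : ℕ) : ∀ᶠ T in atTop, ∀ S : Finset ℕ, S ⊆ Finset.range R → 8 / ε ≤ S.card →
      ∫ α, kM M α * Dk S α * Fr T α ≤ 26 / 27 + ε := by
  have h1 : ∀ S ∈ (Finset.range R).powerset, ∀ᶠ T in atTop, 8 / ε ≤ (S.card : ℝ) →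
      ∫ α, kM M α * Dk S α * Fr T α ≤ 26 / 27 + ε := by
    intro S _
    by_cases hS : 8 / ε ≤ (S.card : ℝ)
    · have hS0 : (0 : ℝ) < S.card := lt_of_lt_of_le (by positivity) hS
      have hSn : S.Nonempty := by
        rw [← Finset.card_pos]
        exact_mod_cast hS0
      obtain ⟨N, hN⟩ := exists_nat_ge (8 / ε)
      have hM' : 2 / (ε / 8) ≤ M := by
        refine le_trans (le_of_eq ?_) hM
        field_simp
        norm_num
      have h2 : 1 / (S.card : ℝ) ≤ ε / 8 := by
        rw [div_le_iff₀ hS0]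
        rw [div_le_iff₀ hε] at hS
        linarith
      have h3 : 1 / (2 * (N : ℝ) + 1) ≤ ε / 8 := by
        rw [div_le_iff₀ (by positivity)]
        rw [div_le_iff₀ hε] at hN
        have : 0 ≤ (N : ℝ) * ε := by positivity
        nlinarith
      filter_upwards [up_one RH hSn (by positivity : 0 < ε / 8) hM' N (by positivity : 0 < ε / 8)]
        with T hT _
      refine hT.trans ?_
      have e1 : 1 / (2 * (S.card : ℝ)) = 1 / 2 * (1 / S.card) := by field_simp
      rw [e1]
      obtain ⟨x, hx⟩ : ∃ x, x = 1 / (S.card : ℝ) := ⟨_, rfl⟩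
      rw [← hx] at h2 ⊢
      nlinarith
    · exact Eventually.of_forall fun T h => absurd h hS
  have h2 := (Filter.eventually_all_finset _).2 h1
  filter_upwards [h2] with T hT S hS hc
  exact hT S (Finset.mem_powerset.2 hS) hc

end Pool.Agent.K3h84.PC
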