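import Pool.Agent.K3h84.PC.DR

/-!
# The discrete part of the form factor
-/

set_option autoImplicit false

open MeasureTheory Set Filter Topology

namespace Pool.Agent.K3h84.PC

open Pool.Agent.Y749.Rig (Fr Fr_nonneg Fr_cont Fr_even tr tr_cont tr_nonneg tr_supp tr_even tr_int
  modu diag_low)

/-! ### The popular box -/

lemma box (n K s : ℕ) (hK : 0 < K) (A : Finset ℝ) (hA : A.card ≤ n) :
    ∃ S : Finset ℕ, S ⊆ Finset.range (s * K ^ n) ∧ s ≤ S.card ∧ ∀ θ ∈ A, ∀ r ∈ S, ∀ r' ∈ S,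
      ∃ z : ℤ, |((r : ℝ) - r') * θ - z| ≤ 1 / K := by
  classical
  have hK' : (0 : ℝ) < K := by exact_mod_cast hK
  have : NeZero K := ⟨hK.ne'⟩
  obtain ⟨f, hf⟩ : ∃ f : ℕ → (A → Fin K),
      f = fun (r : ℕ) (θ : A) => Fin.ofNat K ⌊Int.fract ((r : ℝ) * (θ : ℝ)) * K⌋₊ := ⟨_, rfl⟩
  have hcard : (Finset.univ : Finset (A → Fin K)).card * s ≤ (Finset.range (s * K ^ n)).card := by
    rw [Finset.card_univ, Fintype.card_fun, Fintype.card_fin, Finset.card_range, Fintype.card_coe,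
      mul_comm]
    exact Nat.mul_le_mul_left _ (Nat.pow_le_pow_right hK hA)
  obtain ⟨y, -, hy⟩ := Finset.exists_le_card_fiber_of_mul_le_card_of_maps_to
    (s := Finset.range (s * K ^ n)) (f := f) (fun a _ => Finset.mem_univ (f a)) Finset.univ_nonempty
    hcard
  refine ⟨_, Finset.filter_subset (fun x => f x = y) _, hy, fun θ hθ r hr r' hr' => ?_⟩
  rw [Finset.mem_filter] at hr hr'
  have h1 : f r ⟨θ, hθ⟩ = f r' ⟨θ, hθ⟩ := by rw [hr.2, hr'.2]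
  rw [hf] at h1
  simp only at h1
  have hlt : ∀ r : ℕ, ⌊Int.fract ((r : ℝ) * θ) * K⌋₊ < K := by
    intro r
    rw [Nat.floor_lt (mul_nonneg (Int.fract_nonneg _) hK'.le)]
    have := Int.fract_lt_one ((r : ℝ) * θ)
    nlinarith
  have h2 : ⌊Int.fract ((r : ℝ) * θ) * K⌋₊ = ⌊Int.fract ((r' : ℝ) * θ) * K⌋₊ := by
    have h3 := congrArg Fin.val h1
    simp only [Fin.ofNat] at h3
    rwa [Nat.mod_eq_of_lt (hlt r), Nat.mod_eq_of_lt (hlt r')] at h3
  refine ⟨⌊(r : ℝ) * θ⌋ - ⌊(r' : ℝ) * θ⌋, ?_⟩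
  have h4 := Nat.floor_le (mul_nonneg (Int.fract_nonneg ((r : ℝ) * θ)) hK'.le)
  have h5 := Nat.lt_floor_add_one (Int.fract ((r : ℝ) * θ) * K)
  have h6 := Nat.floor_le (mul_nonneg (Int.fract_nonneg ((r' : ℝ) * θ)) hK'.le)
  have h7 := Nat.lt_floor_add_one (Int.fract ((r' : ℝ) * θ) * K)
  rw [h2] at h4 h5
  have e : ((r : ℝ) - r') * θ - ((⌊(r : ℝ) * θ⌋ - ⌊(r' : ℝ) * θ⌋ : ℤ) : ℝ) =
      Int.fract ((r : ℝ) * θ) - Int.fract ((r' : ℝ) * θ) := by
    have e1 := Int.self_sub_floor ((r : ℝ) * θ)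
    have e2 := Int.self_sub_floor ((r' : ℝ) * θ)
    push_cast
    rw [← e1, ← e2]
    ring
  rw [e, le_div_iff₀ hK']
  have e2 : |Int.fract ((r : ℝ) * θ) - Int.fract ((r' : ℝ) * θ)| * K =
      |Int.fract ((r : ℝ) * θ) * K - Int.fract ((r' : ℝ) * θ) * K| := by
    rw [← sub_mul, abs_mul, abs_of_pos hK']
  rw [e2, abs_le]
  constructor <;> linarith

/-- the kernel is close to one near the given points -/
lemma Dk_near {S : Finset ℕ} (hS : S.Nonempty) {R K : ℕ} (hR : S ⊆ Finset.range R) (hK : 0 < K)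
    {θ α h : ℝ} (h0 : ∀ r ∈ S, ∀ r' ∈ S, ∃ z : ℤ, |((r : ℝ) - r') * θ - z| ≤ 1 / K)
    (hα : |α - θ| ≤ h) (hh : R * h ≤ 1 / K) : 1 - 80 / (K : ℝ) ^ 2 ≤ Dk S α := by
  have hK' : (0 : ℝ) < K := by exact_mod_cast hK
  have hc : 0 < (S.card : ℝ) := by exact_mod_cast hS.card_pos
  have h1 : ∀ r ∈ S, ∀ r' ∈ S, 1 - 80 / (K : ℝ) ^ 2 ≤ Real.cos (2 * Real.pi * α * ((r : ℝ) - r')) := by
    intro r hr r' hr'
    obtain ⟨z, hz⟩ := h0 r hr r' hr'
    obtain ⟨e, he⟩ : ∃ e : ℝ, e = α * ((r : ℝ) - r') - z := ⟨_, rfl⟩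
    have h2 : 2 * Real.pi * α * ((r : ℝ) - r') = 2 * Real.pi * e + z * (2 * Real.pi) := by
      rw [he]; ring
    rw [h2, Real.cos_add_int_mul_two_pi]
    have h3 : |e| ≤ 2 / K := by
      have h4 : e = (((r : ℝ) - r') * θ - z) + ((r : ℝ) - r') * (α - θ) := by rw [he]; ring
      have h5 : |(r : ℝ) - r'| ≤ R := by
        have h6 := Finset.mem_range.1 (hR hr)
        have h7 := Finset.mem_range.1 (hR hr')
        have h8 : (r : ℝ) ≤ R := by exact_mod_cast h6.le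
        have h9 : (r' : ℝ) ≤ R := by exact_mod_cast h7.le
        have h10 : (0 : ℝ) ≤ r := Nat.cast_nonneg _
        have h11 : (0 : ℝ) ≤ r' := Nat.cast_nonneg _
        rw [abs_le]
        constructor <;> linarith
      have h6 : |((r : ℝ) - r') * (α - θ)| ≤ R * h := by
        rw [abs_mul]
        exact mul_le_mul h5 hα (abs_nonneg _) (Nat.cast_nonneg _)
      rw [h4]
      refine (abs_add_le _ _).trans ?_
      have : (2 : ℝ) / K = 1 / K + 1 / K := by ring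
      linarith
    have h4 := Real.one_sub_sq_div_two_le_cos (x := 2 * Real.pi * e)
    have h5 : e ^ 2 ≤ (2 / K) ^ 2 := by rw [← sq_abs e]; gcongr
    have h6 : Real.pi ^ 2 ≤ 10 := by
      have := Real.pi_lt_d2
      have := Real.pi_pos
      nlinarith
    have h7 : (2 * Real.pi * e) ^ 2 / 2 ≤ 80 / (K : ℝ) ^ 2 := by
      have e1 : (2 * Real.pi * e) ^ 2 / 2 = 2 * Real.pi ^ 2 * e ^ 2 := by ring
      have e2 : 80 / (K : ℝ) ^ 2 = 2 * 10 * (2 / K) ^ 2 := by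
        rw [div_pow]
        ring
      rw [e1, e2]
      gcongr
    linarith
  unfold Dk
  rw [le_div_iff₀ (by positivity)]
  calc (1 - 80 / (K : ℝ) ^ 2) * (S.card : ℝ) ^ 2 = ∑ r ∈ S, ∑ r' ∈ S, (1 - 80 / (K : ℝ) ^ 2) := by
        rw [Finset.sum_const, Finset.sum_const, nsmul_eq_mul, nsmul_eq_mul]
        ring
    _ ≤ _ := Finset.sum_le_sum fun r hr => Finset.sum_le_sum fun r' hr' => h1 r hr r' hr'

/-! ### The averaged tents from below -/

lemma kM_eq (M : ℕ) (α : ℝ) : kM M α = (∑ i ∈ Finset.range M, ∑ i' ∈ Finset.range M,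
    tr 1 ((α - (i : ℝ) / 3) + (i' : ℝ) / 3)) / (M : ℝ) ^ 2 := by
  unfold kM
  congr 1
  have e : ∑ i ∈ Finset.range M, ∑ i' ∈ Finset.range M, tr 1 (α + ((i : ℝ) - i') / 3) =
      ∑ i ∈ Finset.range M, ∑ i' ∈ Finset.range M, tr 1 ((α - (i : ℝ) / 3) + (i' : ℝ) / 3) := by
    rw [Finset.sum_comm]
    refine Finset.sum_congr rfl fun i _ => Finset.sum_congr rfl fun i' _ => ?_
    congr 1
    ring
  have e2 : ∑ i ∈ Finset.range M, ∑ i' ∈ Finset.range M, modu (((i : ℝ) - i') / 3) (tr 1) α =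
      ((∑ i ∈ Finset.range M, ∑ i' ∈ Finset.range M, tr 1 ((α - (i : ℝ) / 3) + (i' : ℝ) / 3)) +
      ∑ i ∈ Finset.range M, ∑ i' ∈ Finset.range M, tr 1 (α + ((i : ℝ) - i') / 3)) / 2 := by
    rw [← Finset.sum_add_distrib, Finset.sum_div]
    refine Finset.sum_congr rfl fun i _ => ?_
    rw [← Finset.sum_add_distrib, Finset.sum_div]
    refine Finset.sum_congr rfl fun i' _ => ?_
    unfold modu
    congr 3
    ring
  rw [e2, e]
  ring

lemma hats_eq {M : ℕ} {y : ℝ} (h1 : 1 - (M : ℝ) / 3 ≤ y) (h2 : y ≤ -(2 / 3)) :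
    ∑ i ∈ Finset.range M, tr 1 (y + (i : ℝ) / 3) = 3 := by
  have h : ∀ i : ℕ, tr 1 (y + (i : ℝ) / 3) = (fun j : ℕ => cl (y + (j : ℝ) / 3)) (i + 3) -
      (fun j : ℕ => cl (y + (j : ℝ) / 3)) i := by
    intro i
    simp only
    rw [hat_cl]
    congr 2
    push_cast
    ring
  rw [Finset.sum_congr rfl fun i _ => h i, tele3 (fun j : ℕ => cl (y + (j : ℝ) / 3)) M]
  have k1 : ∀ z : ℝ, 1 ≤ z → cl z = 1 := by
    intro z hz
    unfold cl
    rw [max_eq_right (by linarith), min_eq_left hz]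
  have k0 : ∀ z : ℝ, z ≤ 0 → cl z = 0 := by
    intro z hz
    unfold cl
    rw [max_eq_left hz, min_eq_right zero_le_one]
  rw [k1 (y + (M : ℝ) / 3) (by linarith), k1 (y + ((M + 1 : ℕ) : ℝ) / 3) (by push_cast; linarith),
    k1 (y + ((M + 2 : ℕ) : ℝ) / 3) (by push_cast; linarith),
    k0 (y + ((0 : ℕ) : ℝ) / 3) (by push_cast; linarith),
    k0 (y + ((1 : ℕ) : ℝ) / 3) (by push_cast; linarith),
    k0 (y + ((2 : ℕ) : ℝ) / 3) (by push_cast; linarith)]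
  norm_num

lemma kM_even (M : ℕ) (α : ℝ) : kM M (-α) = kM M α := by
  unfold kM
  congr 1
  exact Finset.sum_congr rfl fun i _ => Finset.sum_congr rfl fun i' _ => modu_even _ _ _

lemma kM_pt {M : ℕ} (hM : 5 ≤ M) (α : ℝ) : 3 * ((M : ℝ) - 5 - 3 * |α|) ≤ (M : ℝ) ^ 2 * kM M α := by
  have hM' : (5 : ℝ) ≤ M := by exact_mod_cast hM
  wlog h : 0 ≤ α with H
  · have := H hM (-α) hM' (by linarith)
    rwa [abs_neg, kM_even] at this
  rw [abs_of_nonneg h, kM_eq, mul_div_cancel₀ _ (by positivity)]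
  obtain ⟨a, ha⟩ : ∃ a : ℕ, a = ⌈3 * α⌉₊ := ⟨_, rfl⟩
  have ha1 : 3 * α ≤ a := by rw [ha]; exact Nat.le_ceil _
  have ha2 : (a : ℝ) < 3 * α + 1 := by rw [ha]; exact Nat.ceil_lt_add_one (by positivity)
  have h1 : Finset.Icc (a + 2) (M - 3) ⊆ Finset.range M := by
    intro i hi
    rw [Finset.mem_Icc] at hi
    rw [Finset.mem_range]
    omega
  have h2 : ∀ i ∈ Finset.Icc (a + 2) (M - 3), ∑ i' ∈ Finset.range M,
      tr 1 ((α - (i : ℝ) / 3) + (i' : ℝ) / 3) = 3 := by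
    intro i hi
    rw [Finset.mem_Icc] at hi
    have h3 : (a : ℝ) + 2 ≤ i := by exact_mod_cast hi.1
    have h4 : (i : ℝ) + 3 ≤ M := by
      have : i + 3 ≤ M := by omega
      exact_mod_cast this
    refine hats_eq ?_ ?_ <;> linarith
  have h3 : ∑ i ∈ Finset.Icc (a + 2) (M - 3), ∑ i' ∈ Finset.range M,
      tr 1 ((α - (i : ℝ) / 3) + (i' : ℝ) / 3) ≤ ∑ i ∈ Finset.range M, ∑ i' ∈ Finset.range M,
      tr 1 ((α - (i : ℝ) / 3) + (i' : ℝ) / 3) :=
    Finset.sum_le_sum_of_subset_of_nonneg h1 fun i _ _ =>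
      Finset.sum_nonneg fun i' _ => tr_nonneg one_pos _
  rw [Finset.sum_congr rfl h2, Finset.sum_const, nsmul_eq_mul, Nat.card_Icc] at h3
  refine le_trans ?_ h3
  have h4 : (M : ℝ) - 4 - a ≤ ((M - 3 + 1 - (a + 2) : ℕ) : ℝ) := by
    have h5 : M ≤ (M - 3 + 1 - (a + 2)) + (4 + a) := by omega
    have h6 : (M : ℝ) ≤ ((M - 3 + 1 - (a + 2) : ℕ) : ℝ) + (4 + a) := by exact_mod_cast h5
    linarith
  nlinarith

/-- the tent is at most a multiple of the averaged tents -/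
lemma tr_le_kM {M : ℕ} {l : ℝ} (hl : 0 < l) (hM : 3 * l + 5 ≤ M) (α : ℝ) :
    tr l α ≤ (M / (3 * l)) ^ 2 * kM M α := by
  rcases le_or_gt l |α| with h | h
  · rw [tr_supp hl α h]
    exact mul_nonneg (sq_nonneg _) (kM_nonneg M α)
  · have hM5 : 5 ≤ M := by
      have : (5 : ℝ) ≤ M := by linarith
      exact_mod_cast this
    have h1 := kM_pt hM5 α
    unfold tr
    have h2 : |α| / l ≤ 1 := by rw [div_le_one hl]; exact h.le
    rw [max_eq_right (by linarith), div_le_iff₀ hl]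
    have e : (M / (3 * l)) ^ 2 * kM M α * l = ((M : ℝ) ^ 2 * kM M α) / (9 * l) := by
      field_simp
      ring
    rw [e, le_div_iff₀ (by positivity)]
    have e2 : (1 - |α| / l) * (9 * l) = 9 * (l - |α|) := by
      field_simp
    rw [e2]
    linarith

/-! ### The theorem -/

/-- the neighbourhood of a finite set -/
def nb (A : Finset ℝ) (h : ℝ) : Set ℝ := {α | ∃ θ ∈ A, |α - θ| < h}

lemma nb_meas (A : Finset ℝ) (h : ℝ) : MeasurableSet (nb A h) := by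
  have e : nb A h = ⋃ θ ∈ A, {α : ℝ | |α - θ| < h} := by
    ext α
    simp [nb]
  rw [e]
  refine Finset.measurableSet_biUnion _ fun θ _ => ?_
  exact measurableSet_lt (by fun_prop) measurable_const

/-- **the density of the discrete part** -/
theorem discrete (RH : RiemannHypothesis) {ε : ℝ} (hε : 0 < ε) :
    ∃ l₀ : ℝ, 1 ≤ l₀ ∧ ∀ l : ℝ, l₀ ≤ l → ∀ n : ℕ, ∃ h : ℝ, 0 < h ∧ ∀ᶠ T in atTop, ∀ A : Finset ℝ,
      A.card ≤ n → ∫ α in nb A h, tr l α * Fr T α ≤ 26 / 27 + ε := by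
  obtain ⟨e, he⟩ : ∃ e : ℝ, e = min 1 (ε / 16) := ⟨_, rfl⟩
  have he0 : 0 < e := by rw [he]; exact lt_min one_pos (by positivity)
  have he1 : e ≤ 1 := by rw [he]; exact min_le_left _ _
  have heε : 16 * e ≤ ε := by
    have : e ≤ ε / 16 := by rw [he]; exact min_le_right _ _
    linarith
  refine ⟨16 / e, ?_, fun l hl n => ?_⟩
  · rw [le_div_iff₀ he0]
    linarith
  have hl0 : 0 < l := lt_of_lt_of_le (by positivity) hl
  have hle : 16 ≤ l * e := by rwa [div_le_iff₀ he0] at hl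
  -- the number of tents
  obtain ⟨M, hM⟩ : ∃ M : ℕ, M = ⌈3 * l⌉₊ + 5 := ⟨_, rfl⟩
  have hM1 : 3 * l + 5 ≤ M := by
    rw [hM]
    push_cast
    linarith [Nat.le_ceil (3 * l)]
  have hM2 : (M : ℝ) ≤ 3 * l + 6 := by
    rw [hM]
    push_cast
    linarith [Nat.ceil_lt_add_one (show 0 ≤ 3 * l by positivity)]
  have hMe : 16 / e ≤ M := by linarith
  have hM3 : ((M : ℝ) / (3 * l)) ^ 2 ≤ 1 + e := by
    have h1 : (M : ℝ) / (3 * l) ≤ 1 + e / 8 := by
      rw [div_le_iff₀ (by positivity)]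
      nlinarith
    calc ((M : ℝ) / (3 * l)) ^ 2 ≤ (1 + e / 8) ^ 2 := by gcongr
      _ ≤ 1 + e := by nlinarith
  -- the box
  obtain ⟨K, hK⟩ : ∃ K : ℕ, K = ⌈160 / e⌉₊ := ⟨_, rfl⟩
  have hK1 : 160 / e ≤ K := by rw [hK]; exact Nat.le_ceil _
  have hK0' : (0 : ℝ) < K := lt_of_lt_of_le (by positivity) hK1
  have hK0 : 0 < K := by exact_mod_cast hK0'
  have hK2 : 80 / (K : ℝ) ^ 2 ≤ e / 2 := by
    rw [div_le_iff₀ (by positivity)]
    have h1 : 160 ≤ K * e := by rwa [div_le_iff₀ he0] at hK1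
    have h2 : (1 : ℝ) ≤ K := by exact_mod_cast hK0
    nlinarith
  obtain ⟨s, hs⟩ : ∃ s : ℕ, s = ⌈8 / e⌉₊ := ⟨_, rfl⟩
  have hs1 : 8 / e ≤ s := by rw [hs]; exact Nat.le_ceil _
  obtain ⟨R, hR⟩ : ∃ R : ℕ, R = s * K ^ n := ⟨_, rfl⟩
  obtain ⟨h, hh⟩ : ∃ h : ℝ, h = 1 / (K * (R + 1)) := ⟨_, rfl⟩
  have hh0 : 0 < h := by rw [hh]; positivity
  have hRh : R * h ≤ 1 / K := by
    rw [hh, mul_one_div, div_le_div_iff₀ (by positivity) hK0']
    have : (0 : ℝ) ≤ R := Nat.cast_nonneg _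
    nlinarith
  refine ⟨h, hh0, ?_⟩
  filter_upwards [upD RH he0 he1 hMe R, eventually_ge_atTop 10] with T hT hT10 A hA
  obtain ⟨S, hS1, hS2, hS3⟩ := box n K s hK0 A hA
  rw [← hR] at hS1
  have hSc : 8 / e ≤ (S.card : ℝ) := hs1.trans (by exact_mod_cast hS2)
  have hSn : S.Nonempty := by
    rw [← Finset.card_pos]
    have : (0 : ℝ) < S.card := lt_of_lt_of_le (by positivity) hSc
    exact_mod_cast this
  have hup := hT S hS1 hSc
  have hF0 := Fr_nonneg hT10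
  have htc := tr_cont l
  have hDc := Dk_cont S
  have hFc := Fr_cont T
  have i1 := mul_Fr_int (T := T) (tr_int hl0)
  have i2 := mul_Fr_int (T := T) (mul_Dk_int (S := S) (tr_int hl0))
  have i3 := mul_Fr_int (T := T) (mul_Dk_int (S := S) (kM_int M))
  -- near the points
  have h1 : (1 - e / 2) * ∫ α in nb A h, tr l α * Fr T α ≤ ∫ α in nb A h, tr l α * Dk S α * Fr T α := by
    rw [← integral_const_mul]
    refine setIntegral_mono_on (i1.const_mul _).integrableOn i2.integrableOn (nb_meas A h)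
      fun α hα => ?_
    obtain ⟨θ, hθ, hαθ⟩ := hα
    have h2 := Dk_near hSn hS1 hK0 (hS3 θ hθ) hαθ.le hRh
    have h3 : 1 - e / 2 ≤ Dk S α := by linarith
    have h4 := mul_nonneg (tr_nonneg hl0 α) (hF0 α)
    nlinarith
  have h2 : ∫ α in nb A h, tr l α * Dk S α * Fr T α ≤ ∫ α, tr l α * Dk S α * Fr T α :=
    setIntegral_le_integral i2 (ae_of_all _ fun α =>
      mul_nonneg (mul_nonneg (tr_nonneg hl0 α) (Dk_nonneg _ _)) (hF0 α))
  have h3 : ∫ α, tr l α * Dk S α * Fr T α ≤ (M / (3 * l)) ^ 2 * ∫ α, kM M α * Dk S α * Fr T α := by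
    rw [← integral_const_mul]
    refine integral_mono i2 (i3.const_mul _) fun α => ?_
    simp only
    have h4 := tr_le_kM hl0 hM1 α
    have h5 := mul_nonneg (Dk_nonneg S α) (hF0 α)
    nlinarith
  have h4 : 0 ≤ ∫ α, kM M α * Dk S α * Fr T α := integral_nonneg fun α =>
    mul_nonneg (mul_nonneg (kM_nonneg _ _) (Dk_nonneg _ _)) (hF0 α)
  have h5 : (M / (3 * l)) ^ 2 * ∫ α, kM M α * Dk S α * Fr T α ≤ (1 + e) * (26 / 27 + e) := by
    gcongr
  have h6 : (1 - e / 2) * ∫ α in nb A h, tr l α * Fr T α ≤ (1 + e) * (26 / 27 + e) :=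
    h1.trans (h2.trans (h3.trans h5))
  have h7 : (1 + e) * (26 / 27 + e) ≤ (1 - e / 2) * (26 / 27 + 16 * e) := by nlinarith
  have h8 : (1 - e / 2) * ∫ α in nb A h, tr l α * Fr T α ≤ (1 - e / 2) * (26 / 27 + 16 * e) :=
    h6.trans h7
  have h9 : ∫ α in nb A h, tr l α * Fr T α ≤ 26 / 27 + 16 * e :=
    le_of_mul_le_mul_left h8 (by linarith)
  linarith

/-- **the density of the rest** -/
theorem rest (RH : RiemannHypothesis) {ε : ℝ} (hε : 0 < ε) :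
    ∃ l₀ : ℝ, 1 ≤ l₀ ∧ ∀ l : ℝ, l₀ ≤ l → ∀ n : ℕ, ∃ h : ℝ, 0 < h ∧ ∀ᶠ T in atTop, ∀ A : Finset ℝ,
      A.card ≤ n → (∫ α in nb A h, tr l α * Fr T α ≤ 26 / 27 + ε) ∧
        (1 / 27 - ε) * l ≤ ∫ α in {α : ℝ | |α| ≤ l ∧ ∀ θ ∈ A, h ≤ |α - θ|}, Fr T α := by
  obtain ⟨l₀, hl₀, H⟩ := discrete RH (by positivity : 0 < ε / 2)
  refine ⟨l₀, hl₀, fun l hl n => ?_⟩
  have hl0 : 0 < l := by linarith
  obtain ⟨h, hh, hev⟩ := H l hl n
  refine ⟨h, hh, ?_⟩
  filter_upwards [hev, diag_low hl0 (by positivity : 0 < ε / 2), eventually_ge_atTop 10] with T h1 h2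
    hT A hA
  have h3 := h1 A hA
  refine ⟨by linarith, ?_⟩
  have hF0 := Fr_nonneg hT
  have hFc := Fr_cont T
  have i1 := mul_Fr_int (T := T) (tr_int hl0)
  have h4 := integral_add_compl (nb_meas A h) i1
  have h5 : 1 / 27 - ε ≤ ∫ α in (nb A h)ᶜ, tr l α * Fr T α := by linarith
  have e1 : {α : ℝ | |α| ≤ l ∧ ∀ θ ∈ A, h ≤ |α - θ|} = (nb A h)ᶜ ∩ Icc (-l) l := by
    ext α
    simp only [nb, mem_inter_iff, mem_compl_iff, mem_ofPred_eq, not_exists, not_and, not_lt, mem_Icc,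
      abs_le]
    tauto
  have hm : MeasurableSet ((nb A h)ᶜ ∩ Icc (-l) l) := (nb_meas A h).compl.inter measurableSet_Icc
  have i2 : IntegrableOn (fun α => Fr T α) ((nb A h)ᶜ ∩ Icc (-l) l) :=
    (hFc.integrableOn_Icc (a := -l) (b := l)).mono_set inter_subset_right
  have h6 : ∫ α in (nb A h)ᶜ, tr l α * Fr T α = ∫ α in (nb A h)ᶜ ∩ Icc (-l) l, tr l α * Fr T α := by
    rw [← integral_indicator (nb_meas A h).compl, ← integral_indicator hm]
    refine integral_congr_ae (ae_of_all _ fun α => ?_)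
    by_cases hα : α ∈ (nb A h)ᶜ
    · by_cases hα2 : α ∈ Icc (-l) l
      · rw [indicator_of_mem hα, indicator_of_mem (show α ∈ (nb A h)ᶜ ∩ Icc (-l) l from ⟨hα, hα2⟩)]
      · rw [indicator_of_mem hα, indicator_of_notMem (show α ∉ (nb A h)ᶜ ∩ Icc (-l) l from fun h0 => hα2 h0.2),
          tr_supp hl0, zero_mul]
        by_contra hcon
        push Not at hcon
        exact hα2 ⟨(abs_lt.1 hcon).1.le, (abs_lt.1 hcon).2.le⟩
    · rw [indicator_of_notMem hα,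
        indicator_of_notMem (show α ∉ (nb A h)ᶜ ∩ Icc (-l) l from fun h0 => hα h0.1)]
  have h7 : ∫ α in (nb A h)ᶜ ∩ Icc (-l) l, tr l α * Fr T α ≤
      ∫ α in (nb A h)ᶜ ∩ Icc (-l) l, 1 / l * Fr T α := by
    refine setIntegral_mono_on i1.integrableOn (i2.const_mul _) hm fun α _ => ?_
    refine mul_le_mul_of_nonneg_right ?_ (hF0 α)
    unfold tr
    gcongr
    refine max_le zero_le_one ?_
    have : 0 ≤ |α| / l := by positivity
    linarith
  rw [integral_const_mul] at h7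
  rw [e1]
  rw [h6] at h5
  have h8 : 1 / 27 - ε ≤ 1 / l * ∫ α in (nb A h)ᶜ ∩ Icc (-l) l, Fr T α := h5.trans h7
  rw [one_div_mul_eq_div, le_div_iff₀ hl0] at h8
  exact h8

end Pool.Agent.K3h84.PC
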