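import Pool.Agent.K3h84.PC.Bes

/-!
# The two-sided exponential kernel, and a Harnack inequality for the weighted pair sums
-/

set_option autoImplicit false

open MeasureTheory Set Filter Topology

namespace Pool.Agent.K3h84.PC

lemma wk_pos (u : ℝ) : 0 < wk u := by unfold wk; positivity

lemma wk_le (u : ℝ) : wk u ≤ 1 := by
  unfold wk
  rw [div_le_one (by positivity)]
  nlinarith [sq_nonneg u]

lemma wk_neg (u : ℝ) : wk (-u) = wk u := by unfold wk; rw [neg_sq]

lemma exp_Ioi_integrable : IntegrableOn (fun y : ℝ => Real.exp (-(2 * |y|))) (Ioi 0) := by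
  have := integrableOn_exp_mul_Ioi (a := -2) (by norm_num) 0
  refine this.congr_fun (fun s hs => ?_) measurableSet_Ioi
  simp only
  congr 1
  rw [abs_of_pos (show (0 : ℝ) < s from hs)]
  ring

lemma exp_integrable : Integrable (fun y : ℝ => Real.exp (-(2 * |y|))) := by
  have h1 := exp_Ioi_integrable
  have h2 : IntegrableOn (fun y : ℝ => Real.exp (-(2 * |y|))) (Iic 0) := by
    rw [integrableOn_Iic_iff_integrableOn_Iio]
    have h4 : IntegrableOn (fun y : ℝ => Real.exp (-(2 * |y|))) (Ioi (-0)) := by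
      rw [neg_zero]
      exact h1
    refine h4.comp_neg_Iio.congr_fun (fun y _ => ?_) measurableSet_Iio
    simp only [abs_neg]
  have h3 := h2.union h1
  rw [Iic_union_Ioi, integrableOn_univ] at h3
  exact h3

lemma exp_cos_integrable (a b : ℝ) :
    Integrable (fun y : ℝ => Real.exp (-(2 * |y|)) * Real.cos ((a + y) * b)) := by
  refine exp_integrable.mul_bdd (c := 1) ?_ (ae_of_all _ fun y => ?_)
  · exact Continuous.aestronglyMeasurable (by fun_prop)
  · rw [Real.norm_eq_abs]
    exact Real.abs_cos_le_one _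

/-- the basic integral on the half line -/
lemma wk_half (u : ℝ) : wk u = 2 * ∫ s in Ioi (0 : ℝ), Real.exp (-(2 * s)) * Real.cos (s * u) := by
  have hre : ((-2 : ℂ) + u * Complex.I).re < 0 := by simp
  have h1 := integral_exp_mul_complex_Ioi hre 0
  have h2 := congrArg Complex.re h1
  have hi := integrableOn_exp_mul_complex_Ioi hre 0
  have h3 : (∫ x : ℝ in Ioi 0, Complex.exp ((-2 + u * Complex.I) * x)).re =
      ∫ x : ℝ in Ioi 0, (Complex.exp ((-2 + u * Complex.I) * x)).re := by
    have := integral_re (𝕜 := ℂ) hi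
    simpa using this.symm
  rw [h3] at h2
  have h4 : ∀ x : ℝ, (Complex.exp ((-2 + u * Complex.I) * x)).re =
      Real.exp (-(2 * x)) * Real.cos (x * u) := by
    intro x
    rw [Complex.exp_re]
    congr 2
    · simp
    · simp; ring
  simp_rw [h4] at h2
  rw [h2]
  have h5 : (-2 + u * Complex.I : ℂ) ≠ 0 := by
    intro h
    have := congrArg Complex.re h
    simp at this
  have h6 : (-Complex.exp ((-2 + (u : ℂ) * Complex.I) * ((0 : ℝ) : ℂ)) / (-2 + u * Complex.I)).re =
      2 / (4 + u ^ 2) := by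
    rw [Complex.ofReal_zero, mul_zero, Complex.exp_zero, Complex.div_re]
    simp [Complex.normSq_apply]
    field_simp
    ring
  rw [h6]
  unfold wk
  ring

/-- the two-sided exponential kernel -/
lemma exp_cos (a b : ℝ) :
    ∫ y : ℝ, Real.exp (-(2 * |y|)) * Real.cos ((a + y) * b) = Real.cos (a * b) * wk b := by
  have hi := exp_cos_integrable a b
  have h1 : ∫ y : ℝ, Real.exp (-(2 * |y|)) * Real.cos ((a + y) * b) =
      (∫ y in Iic (0 : ℝ), Real.exp (-(2 * |y|)) * Real.cos ((a + y) * b)) +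
      ∫ y in Ioi (0 : ℝ), Real.exp (-(2 * |y|)) * Real.cos ((a + y) * b) := by
    rw [← setIntegral_union (Iic_disjoint_Ioi le_rfl) measurableSet_Ioi hi.integrableOn
      hi.integrableOn, Iic_union_Ioi, setIntegral_univ]
  have h2 : ∫ y in Iic (0 : ℝ), Real.exp (-(2 * |y|)) * Real.cos ((a + y) * b) =
      ∫ y in Ioi (0 : ℝ), Real.exp (-(2 * |y|)) * Real.cos ((a - y) * b) := by
    have h3 := integral_comp_neg_Iic (0 : ℝ)
      (fun y => Real.exp (-(2 * |y|)) * Real.cos ((a - y) * b))
    rw [neg_zero] at h3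
    rw [← h3]
    refine setIntegral_congr_fun measurableSet_Iic fun y _ => ?_
    simp only [abs_neg, sub_neg_eq_add]
  have hi2 : IntegrableOn (fun y : ℝ => Real.exp (-(2 * |y|)) * Real.cos ((a - y) * b)) (Ioi 0) := by
    refine Integrable.mul_bdd (c := 1) exp_Ioi_integrable ?_ (ae_of_all _ fun y => ?_)
    · exact Continuous.aestronglyMeasurable (by fun_prop)
    · rw [Real.norm_eq_abs]
      exact Real.abs_cos_le_one _
  rw [h1, h2, ← integral_add hi2 hi.integrableOn, wk_half]
  have h4 : ∀ y ∈ Ioi (0 : ℝ), Real.exp (-(2 * |y|)) * Real.cos ((a - y) * b) +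
      Real.exp (-(2 * |y|)) * Real.cos ((a + y) * b) =
      2 * Real.cos (a * b) * (Real.exp (-(2 * y)) * Real.cos (y * b)) := by
    intro y hy
    rw [abs_of_pos (show (0 : ℝ) < y from hy), sub_mul, add_mul, Real.cos_sub, Real.cos_add]
    ring
  rw [setIntegral_congr_fun measurableSet_Ioi h4, integral_const_mul]
  ring

/-- the unweighted pair sum -/
noncomputable def P {ι : Type*} (A : Finset ι) (m g : ι → ℝ) (τ : ℝ) : ℝ :=
  ∑ s ∈ A, ∑ s' ∈ A, m s * m s' * Real.cos (τ * (g s - g s'))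

lemma P_nonneg {ι : Type*} (A : Finset ι) (m g : ι → ℝ) (τ : ℝ) : 0 ≤ P A m g τ := by
  unfold P
  rw [← S_normSq]
  positivity

lemma P_cont {ι : Type*} (A : Finset ι) (m g : ι → ℝ) : Continuous (P A m g) := by
  unfold P
  fun_prop

lemma P_le {ι : Type*} (A : Finset ι) (m g : ι → ℝ) : ∃ B : ℝ, ∀ τ, |P A m g τ| ≤ B := by
  refine ⟨∑ s ∈ A, ∑ s' ∈ A, |m s * m s'|, fun τ => ?_⟩
  unfold P
  refine (Finset.abs_sum_le_sum_abs _ _).trans (Finset.sum_le_sum fun s _ => ?_)
  refine (Finset.abs_sum_le_sum_abs _ _).trans (Finset.sum_le_sum fun s' _ => ?_)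
  rw [abs_mul (m s * m s')]
  exact mul_le_of_le_one_right (abs_nonneg _) (Real.abs_cos_le_one _)

lemma Q_int {ι : Type*} (A : Finset ι) (m g : ι → ℝ) (τ : ℝ) :
    Q A m g τ = ∫ y : ℝ, Real.exp (-(2 * |y|)) * P A m g (τ + y) := by
  unfold P Q
  simp_rw [Finset.mul_sum]
  have hi : ∀ s s' : ι, Integrable (fun y : ℝ => Real.exp (-(2 * |y|)) *
      (m s * m s' * Real.cos ((τ + y) * (g s - g s')))) := by
    intro s s'
    refine ((exp_cos_integrable τ (g s - g s')).const_mul (m s * m s')).congr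
      (ae_of_all _ fun y => ?_)
    simp only
    ring
  rw [integral_finsetSum _ fun s _ => integrable_finsetSum _ fun s' _ => hi s s']
  refine Finset.sum_congr rfl fun s _ => ?_
  rw [integral_finsetSum _ fun s' _ => hi s s']
  refine Finset.sum_congr rfl fun s' _ => ?_
  rw [← exp_cos, ← integral_const_mul]
  refine integral_congr_ae (ae_of_all _ fun y => ?_)
  simp only
  ring

lemma expP_integrable {ι : Type*} (A : Finset ι) (m g : ι → ℝ) (a τ : ℝ) :
    Integrable (fun y : ℝ => Real.exp (-(2 * |y - a|)) * P A m g (τ + y)) := by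
  obtain ⟨B, hB⟩ := P_le A m g
  have hc := P_cont A m g
  have h1 : Integrable (fun y : ℝ => Real.exp (-(2 * |y - a|))) := exp_integrable.comp_sub_right a
  refine h1.mul_bdd (c := B) ?_ (ae_of_all _ fun y => ?_)
  · exact Continuous.aestronglyMeasurable (by fun_prop)
  · rw [Real.norm_eq_abs]
    exact hB _

/-- the Harnack inequality -/
lemma harnack {ι : Type*} (A : Finset ι) (m g : ι → ℝ) (τ h : ℝ) :
    Real.exp (-(2 * |h|)) * Q A m g τ ≤ Q A m g (τ + h) := by
  have h1 : Q A m g (τ + h) = ∫ y : ℝ, Real.exp (-(2 * |y - h|)) * P A m g (τ + y) := by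
    rw [Q_int]
    rw [← integral_sub_right_eq_self
      (fun y : ℝ => Real.exp (-(2 * |y|)) * P A m g (τ + h + y)) h]
    refine integral_congr_ae (ae_of_all _ fun y => ?_)
    simp only
    rw [show τ + h + (y - h) = τ + y by ring]
  rw [h1, Q_int, ← integral_const_mul]
  have hi0 := expP_integrable A m g 0 τ
  simp only [sub_zero] at hi0
  refine integral_mono (hi0.const_mul _) (expP_integrable A m g h τ) fun y => ?_
  simp only
  rw [← mul_assoc, ← Real.exp_add]
  refine mul_le_mul_of_nonneg_right (Real.exp_le_exp.2 ?_) (P_nonneg A m g _)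
  have := abs_sub y h
  linarith

lemma Q_le_zero {ι : Type*} (A : Finset ι) (m g : ι → ℝ) (hm : ∀ n ∈ A, 0 ≤ m n) (τ : ℝ) :
    Q A m g τ ≤ Q A m g 0 := by
  unfold Q
  refine Finset.sum_le_sum fun s hs => Finset.sum_le_sum fun s' hs' => ?_
  refine mul_le_mul_of_nonneg_left ?_ (mul_nonneg (hm s hs) (hm s' hs'))
  rw [zero_mul, Real.cos_zero]
  exact mul_le_mul_of_nonneg_right (Real.cos_le_one _) (wk_pos _).le

end Pool.Agent.K3h84.PC
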