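import Pool.Agent.K3h84.PC.FF

/-!
# Poisson means of the form factor and the masses near points
-/

set_option autoImplicit false

open MeasureTheory Set Filter Topology

namespace Pool.Agent.K3h84.PC

open Pool.Agent.Y749.Rig (Fr Mp ZZ mm nT RR ww nT_pos Mp_integral mm_nonneg one_lt_log Mp_fin Fr_pair fl
  Fr_nonneg Fr_cont Fr_even Bdd lint_le DD DD_nonneg Mp_bdd near0 ww_cont ww_le ww_pos)

lemma pois_int {W : ℝ} (hW : 0 < W) (θ x : ℝ) :
    ∫ α : ℝ, W * Real.exp (-(2 * |W * α - W * θ|)) * Real.cos (2 * Real.pi * α * x) =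
      Real.cos (2 * Real.pi * θ * x) * ww (2 * Real.pi * x / W) := by
  have h1 := Measure.integral_comp_mul_left
    (fun y : ℝ => Real.exp (-(2 * |y - W * θ|)) * Real.cos (y * (2 * Real.pi * x / W))) W
  have h2 : ∫ y : ℝ, Real.exp (-(2 * |y - W * θ|)) * Real.cos (y * (2 * Real.pi * x / W)) =
      ∫ y : ℝ, Real.exp (-(2 * |y|)) * Real.cos ((W * θ + y) * (2 * Real.pi * x / W)) := by
    rw [← integral_sub_right_eq_self
      (fun y : ℝ => Real.exp (-(2 * |y|)) * Real.cos ((W * θ + y) * (2 * Real.pi * x / W))) (W * θ)]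
    refine integral_congr_ae (ae_of_all _ fun y => ?_)
    simp only
    rw [show W * θ + (y - W * θ) = y by ring]
  rw [h2, exp_cos, smul_eq_mul, abs_of_pos (inv_pos.2 hW)] at h1
  have h3 : ∫ α : ℝ, W * Real.exp (-(2 * |W * α - W * θ|)) * Real.cos (2 * Real.pi * α * x) =
      W * ∫ α : ℝ, Real.exp (-(2 * |W * α - W * θ|)) * Real.cos (W * α * (2 * Real.pi * x / W)) := by
    rw [← integral_const_mul]
    refine integral_congr_ae (ae_of_all _ fun α => ?_)
    simp only
    rw [show W * α * (2 * Real.pi * x / W) = 2 * Real.pi * α * x by field_simp]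
    ring
  rw [h3, h1, ← mul_assoc, mul_inv_cancel₀ hW.ne', one_mul, ww_wk]
  congr 2
  field_simp

lemma pois_integrable {W : ℝ} (hW : 0 < W) (θ : ℝ) :
    Integrable fun α : ℝ => W * Real.exp (-(2 * |W * α - W * θ|)) := by
  refine Integrable.const_mul ?_ W
  exact (exp_integrable.comp_sub_right (W * θ)).comp_mul_left' hW.ne'

/-- the Poisson mean of the form factor -/
noncomputable def I (W T θ : ℝ) : ℝ := ∫ α : ℝ, W * Real.exp (-(2 * |W * α - W * θ|)) * Fr T α

lemma I_eq {W T : ℝ} (hW : 0 < W) (θ : ℝ) :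
    I W T θ = ∫ x, Real.cos (2 * Real.pi * θ * x) * ww (2 * Real.pi * x / W) *
      ww (2 * Real.pi * x / Real.log T) ∂(Mp T) := by
  unfold I
  rw [Fr_pair (pois_integrable hW θ)]
  refine integral_congr_ae (ae_of_all _ fun x => ?_)
  simp only
  rw [← pois_int hW]
  rfl

lemma cosw_integrable {T : ℝ} (θ V : ℝ) :
    Integrable (fun x => Real.cos (2 * Real.pi * θ * x) * ww (2 * Real.pi * x / V)) (Mp T) := by
  have := Mp_fin T
  have hc := ww_cont
  refine Integrable.mono' (integrable_const (1 : ℝ)) ?_ (ae_of_all _ fun x => ?_)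
  · exact Continuous.aestronglyMeasurable (by fun_prop)
  · rw [norm_mul, Real.norm_eq_abs, Real.norm_eq_abs, abs_of_pos (ww_pos _)]
    have h1 := Real.abs_cos_le_one (2 * Real.pi * θ * x)
    have h2 := ww_le (2 * Real.pi * x / V)
    have h3 := ww_pos (2 * Real.pi * x / V)
    nlinarith [abs_nonneg (Real.cos (2 * Real.pi * θ * x))]

lemma cosww_integrable {T : ℝ} (θ V V' : ℝ) :
    Integrable (fun x => Real.cos (2 * Real.pi * θ * x) * ww (2 * Real.pi * x / V) *
      ww (2 * Real.pi * x / V')) (Mp T) := by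
  have hc := ww_cont
  refine (cosw_integrable θ V).mul_bdd (c := 1) ?_ (ae_of_all _ fun x => ?_)
  · exact Continuous.aestronglyMeasurable (by fun_prop)
  · rw [Real.norm_eq_abs, abs_of_pos (ww_pos _)]
    exact ww_le _

lemma ww_split {W L : ℝ} (hW : 0 < W) (hL : 0 < L) (y : ℝ) :
    ww (y / W) = W ^ 2 / L ^ 2 * ww (y / L) + (1 - W ^ 2 / L ^ 2) * (ww (y / W) * ww (y / L)) := by
  rw [ww_wk, ww_wk]
  unfold wk
  have h1 : (4 + (y / W) ^ 2 : ℝ) ≠ 0 := by positivity
  have h2 : (4 + (y / L) ^ 2 : ℝ) ≠ 0 := by positivity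
  field_simp
  ring

/-- the form factor at the scale `W` is a combination of the form factor and its Poisson mean -/
lemma G_conv {W T : ℝ} (hT : 10 ≤ T) (hW : 0 < W) (θ : ℝ) :
    G W T θ = W ^ 2 / Real.log T ^ 2 * Fr T θ + (1 - W ^ 2 / Real.log T ^ 2) * I W T θ := by
  have hL := one_lt_log (show 3 ≤ T by linarith)
  have hLp : 0 < Real.log T := by linarith
  rw [I_eq hW]
  unfold G Fr
  rw [← integral_const_mul, ← integral_const_mul, ← integral_add]
  · refine integral_congr_ae (ae_of_all _ fun x => ?_)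
    simp only
    conv_lhs => rw [ww_split hW hLp (2 * Real.pi * x)]
    ring
  · exact (cosw_integrable θ _).const_mul _
  · exact (cosww_integrable θ _ _).const_mul _

lemma IFr_integrable {W T : ℝ} (hT : 10 ≤ T) (hW : 0 < W) (θ : ℝ) :
    Integrable fun α : ℝ => W * Real.exp (-(2 * |W * α - W * θ|)) * Fr T α := by
  have hc := Fr_cont T
  have hL := one_lt_log (show 3 ≤ T by linarith)
  have hLp : 0 < Real.log T := by linarith
  refine (pois_integrable hW θ).mul_bdd (c := Fr T 0) ?_ (ae_of_all _ fun α => ?_)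
  · exact Continuous.aestronglyMeasurable (by fun_prop)
  · rw [Real.norm_eq_abs, abs_of_nonneg (Fr_nonneg hT α), ← G_log, ← G_log]
    exact G_le_zero hT hLp α

lemma I_nonneg {W T : ℝ} (hT : 10 ≤ T) (hW : 0 < W) (θ : ℝ) : 0 ≤ I W T θ := by
  unfold I
  exact integral_nonneg fun α => mul_nonneg (by positivity) (Fr_nonneg hT α)

lemma I_le {W T : ℝ} (hW : 0 < W) (θ : ℝ) : I W T θ ≤ G W T 0 := by
  rw [I_eq hW]
  unfold G
  refine integral_mono (cosww_integrable θ _ _) (cosw_integrable 0 _) fun x => ?_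
  simp only
  rw [mul_zero, zero_mul, Real.cos_zero, one_mul]
  have h1 := Real.cos_le_one (2 * Real.pi * θ * x)
  have h2 := ww_le (2 * Real.pi * x / Real.log T)
  have h3 := ww_pos (2 * Real.pi * x / Real.log T)
  have h4 := ww_pos (2 * Real.pi * x / W)
  calc Real.cos (2 * Real.pi * θ * x) * ww (2 * Real.pi * x / W) * ww (2 * Real.pi * x / Real.log T) ≤
      1 * ww (2 * Real.pi * x / W) * ww (2 * Real.pi * x / Real.log T) := by gcongr
    _ ≤ 1 * ww (2 * Real.pi * x / W) * 1 := by gcongr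
    _ = _ := by ring

/-- the mass near a point -/
noncomputable def M (h T θ : ℝ) : ℝ := ∫ α in (θ - h)..(θ + h), Fr T α

lemma M_nonneg {h T : ℝ} (hT : 10 ≤ T) (hh : 0 ≤ h) (θ : ℝ) : 0 ≤ M h T θ :=
  intervalIntegral.integral_nonneg (by linarith) fun α _ => Fr_nonneg hT α

lemma M_mono {h h' T : ℝ} (hT : 10 ≤ T) (h0 : 0 ≤ h) (hh : h ≤ h') (θ : ℝ) : M h T θ ≤ M h' T θ := by
  have hc := Fr_cont T
  exact intervalIntegral.integral_mono_interval (by linarith) (by linarith) (by linarith)
        (ae_of_all _ fun α => Fr_nonneg hT α) (hc.intervalIntegrable _ _)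

/-- the lower bound -/
lemma low_I {W T h : ℝ} (hT : 10 ≤ T) (hW : 0 < W) (hh : 0 < h) (θ : ℝ) :
    W * Real.exp (-(2 * W * h)) * M h T θ ≤ I W T θ := by
  have hc := Fr_cont T
  unfold M I
  rw [← intervalIntegral.integral_const_mul, intervalIntegral.integral_of_le (by linarith)]
  calc ∫ α in Ioc (θ - h) (θ + h), W * Real.exp (-(2 * W * h)) * Fr T α ≤
      ∫ α in Ioc (θ - h) (θ + h), W * Real.exp (-(2 * |W * α - W * θ|)) * Fr T α := by
        refine setIntegral_mono_on ?_ (IFr_integrable hT hW θ).integrableOn measurableSet_Ioc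
          fun α hα => ?_
        · have : Continuous fun α => W * Real.exp (-(2 * W * h)) * Fr T α := by fun_prop
          exact this.continuousOn.integrableOn_Icc.mono_set Ioc_subset_Icc_self
        · refine mul_le_mul_of_nonneg_right (mul_le_mul_of_nonneg_left (Real.exp_le_exp.2 ?_) hW.le)
            (Fr_nonneg hT α)
          have ha : |α - θ| ≤ h := abs_le.2 ⟨by linarith [hα.1], by linarith [hα.2]⟩
          rw [← mul_sub, abs_mul, abs_of_pos hW]
          nlinarith
    _ ≤ _ := setIntegral_le_integral (IFr_integrable hT hW θ) (ae_of_all _ fun α =>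
        mul_nonneg (by positivity) (Fr_nonneg hT α))

/-- the upper bound -/
lemma up_I {W T h : ℝ} (hT : 10 ≤ T) (hW : 0 < W) (hh : 0 < h) (θ : ℝ) :
    I W T θ ≤ W * M h T θ + 2 * Real.exp (-(W * h)) * G (W / 2) T 0 := by
  have hc := Fr_cont T
  have h1 : I W T θ ≤ (∫ α, (Ioc (θ - h) (θ + h)).indicator (fun α => W * Fr T α) α) +
      ∫ α, 2 * Real.exp (-(W * h)) *
        (W / 2 * Real.exp (-(2 * |W / 2 * α - W / 2 * θ|)) * Fr T α) := by
    have hcont : Continuous fun α => W * Fr T α := by fun_prop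
    have i1 : Integrable (fun α => (Ioc (θ - h) (θ + h)).indicator (fun α => W * Fr T α) α) :=
      (hcont.continuousOn.integrableOn_Icc.mono_set Ioc_subset_Icc_self).integrable_indicator
        measurableSet_Ioc
    have i2 : Integrable (fun α => 2 * Real.exp (-(W * h)) *
        (W / 2 * Real.exp (-(2 * |W / 2 * α - W / 2 * θ|)) * Fr T α)) :=
      (IFr_integrable hT (by positivity : 0 < W / 2) θ).const_mul _
    rw [← integral_add i1 i2]
    unfold I
    refine integral_mono_ae (IFr_integrable hT hW θ) (i1.add i2) ?_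
    have hne : ∀ᵐ α : ℝ, α ≠ θ - h := by
      rw [ae_iff]
      simp
    filter_upwards [hne] with α hα
    have hF := Fr_nonneg hT α
    have e1 : 2 * |W / 2 * α - W / 2 * θ| = W * |α - θ| := by
      rw [← mul_sub, abs_mul, abs_of_pos (by positivity : 0 < W / 2)]
      ring
    have e2 : 2 * |W * α - W * θ| = W * |α - θ| + W * |α - θ| := by
      rw [← mul_sub, abs_mul, abs_of_pos hW]
      ring
    rw [e1, e2]
    have hp2 : 0 ≤ 2 * Real.exp (-(W * h)) * (W / 2 * Real.exp (-(W * |α - θ|)) * Fr T α) := by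
      positivity
    by_cases hm : α ∈ Ioc (θ - h) (θ + h)
    · rw [indicator_of_mem hm]
      have h3 : Real.exp (-(W * |α - θ| + W * |α - θ|)) ≤ 1 := by
        rw [Real.exp_le_one_iff]
        have := abs_nonneg (α - θ)
        nlinarith
      have h4 : W * Real.exp (-(W * |α - θ| + W * |α - θ|)) * Fr T α ≤ W * 1 * Fr T α := by gcongr
      linarith
    · rw [indicator_of_notMem hm, zero_add]
      have h3 : h ≤ |α - θ| := by
        by_contra hcon
        push Not at hcon
        have := abs_lt.1 hcon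
        exact hm ⟨by linarith [this.1], by linarith [this.2]⟩
      have h4 : Real.exp (-(W * |α - θ| + W * |α - θ|)) ≤
          Real.exp (-(W * h)) * Real.exp (-(W * |α - θ|)) := by
        rw [← Real.exp_add]
        apply Real.exp_le_exp.2
        nlinarith
      calc W * Real.exp (-(W * |α - θ| + W * |α - θ|)) * Fr T α ≤
          W * (Real.exp (-(W * h)) * Real.exp (-(W * |α - θ|))) * Fr T α := by gcongr
        _ = _ := by ring
  have h2 : ∫ α, (Ioc (θ - h) (θ + h)).indicator (fun α => W * Fr T α) α = W * M h T θ := by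
    rw [integral_indicator measurableSet_Ioc, ← intervalIntegral.integral_of_le (by linarith),
      intervalIntegral.integral_const_mul]
    rfl
  rw [h2, integral_const_mul] at h1
  refine h1.trans ?_
  have h3 := I_le (T := T) (by positivity : 0 < W / 2) θ
  unfold I at h3
  have h4 : 2 * Real.exp (-(W * h)) * ∫ α : ℝ, W / 2 *
      Real.exp (-(2 * |W / 2 * α - W / 2 * θ|)) * Fr T α ≤
      2 * Real.exp (-(W * h)) * G (W / 2) T 0 := mul_le_mul_of_nonneg_left h3 (by positivity)
  linarith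

/-- the total weight at a scale -/
lemma G0_bdd : ∃ C : ℝ, 0 < C ∧ ∀ᶠ T in atTop, ∀ V : ℝ, 0 < V → G V T 0 ≤ C * (1 + V ^ 2) := by
  obtain ⟨C, hC, hB⟩ := Mp_bdd
  have hC0 : 0 ≤ C := by linarith
  refine ⟨2 * C * DD 0 + 1, by have := DD_nonneg 0; positivity, ?_⟩
  filter_upwards [hB, eventually_ge_atTop 10] with T hT hT10 V hV
  have hfin := Mp_fin T
  have i3 : Integrable (fun x : ℝ => 1 / (1 + x ^ 2)) (Mp T) := by
    refine Bdd.integrable hC0 hT ?_ ⟨1, fun x => ?_⟩
    · exact continuous_const.div (by fun_prop) fun x => by positivity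
    · rw [abs_of_pos (by positivity)]
  have t2 : ∫ x, 1 / (1 + x ^ 2) ∂(Mp T) ≤ 2 * C * DD 0 := by
    have h1 := lint_le hC0 hT 0
    have e0 : {x : ℝ | ((0 : ℕ) : ℝ) ≤ |x|} = univ := by
      ext x; simp
    rw [e0, setLIntegral_univ] at h1
    rw [integral_eq_lintegral_of_nonneg_ae (ae_of_all _ fun x => by positivity)
      i3.aestronglyMeasurable]
    have h2 : 0 ≤ 2 * C * DD 0 := by
      have := DD_nonneg 0
      positivity
    exact ENNReal.toReal_le_of_le_ofReal h2 h1
  have h1 : G V T 0 ≤ ∫ x, (1 + V ^ 2) * (1 / (1 + x ^ 2)) ∂(Mp T) := by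
    unfold G
    refine integral_mono (cosw_integrable 0 V) (i3.const_mul _) fun x => ?_
    simp only
    rw [mul_zero, zero_mul, Real.cos_zero, one_mul, ww_wk]
    unfold wk
    rw [mul_one_div, div_le_div_iff₀ (by positivity) (by positivity)]
    have hpi : 1 ≤ Real.pi ^ 2 := by
      have := Real.pi_gt_three
      nlinarith
    have e : (2 * Real.pi * x / V) ^ 2 = 4 * Real.pi ^ 2 * (x / V) ^ 2 := by ring
    rw [e]
    have h5 : (x / V) ^ 2 * V ^ 2 = x ^ 2 := by
      rw [← mul_pow, div_mul_cancel₀ _ hV.ne']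
    have h6 : 0 ≤ (x / V) ^ 2 := sq_nonneg _
    have h7 : (x / V) ^ 2 ≤ Real.pi ^ 2 * (x / V) ^ 2 := by nlinarith
    nlinarith [mul_nonneg h6 (sq_nonneg V)]
  rw [integral_const_mul] at h1
  calc G V T 0 ≤ (1 + V ^ 2) * ∫ x, 1 / (1 + x ^ 2) ∂(Mp T) := h1
    _ ≤ (1 + V ^ 2) * (2 * C * DD 0) := mul_le_mul_of_nonneg_left t2 (by positivity)
    _ ≤ _ := by nlinarith [sq_nonneg V]

end Pool.Agent.K3h84.PC
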