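import Pool.Agent.K3h84.PC.MB

/-!
# The form factor against continuous functions supported in `[-1, 1]`
-/

set_option autoImplicit false

open MeasureTheory Set Filter Topology

namespace Pool.Agent.K3h84.PC

open Pool.Agent.Y749.Rig (Fr Mp Fr_nonneg Fr_cont Fr_even tr tr_cont tr_nonneg tr_supp tr_even tr_int
  adm_tr Fr_lim test_limRH fl_qd fl FL cc Adm int_exp_mul shift_bound)

variable {κ : ℝ} {ψ φ : ℝ → ℝ}

lemma FL_add (h : Adm κ ψ) (g : Adm κ φ) (z : ℂ) :
    FL (fun x => ψ x + φ x) z = FL ψ z + FL φ z := by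
  unfold FL
  rw [← integral_add (int_exp_mul h z) (int_exp_mul g z)]
  refine integral_congr_ae (ae_of_all _ fun α => ?_)
  simp only
  push_cast
  ring

lemma FL_smul (a : ℝ) (z : ℂ) : FL (fun x => a * ψ x) z = a * FL ψ z := by
  unfold FL
  rw [← integral_const_mul]
  refine integral_congr_ae (ae_of_all _ fun α => ?_)
  simp only
  push_cast
  ring

lemma adm_add (h : Adm κ ψ) (g : Adm κ φ) : Adm κ (fun x => ψ x + φ x) := by
  refine ⟨fun x => by rw [h.even, g.even], ?_, fun x hx => by rw [h.supp x hx, g.supp x hx, add_zero],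
    ?_⟩
  · obtain ⟨K, hK⟩ := h.lip
    obtain ⟨K', hK'⟩ := g.lip
    refine ⟨K + K', fun x y => ?_⟩
    have e : ψ x + φ x - (ψ y + φ y) = (ψ x - ψ y) + (φ x - φ y) := by ring
    rw [e]
    refine (abs_add_le _ _).trans ?_
    have := hK x y
    have := hK' x y
    linarith
  · obtain ⟨C, hC⟩ := h.dec
    obtain ⟨C', hC'⟩ := g.dec
    refine ⟨C + C', fun x y => ?_⟩
    rw [FL_add h g]
    refine (norm_add_le _ _).trans ?_
    have h1 := hC x y
    have h2 := hC' x y
    have e : (C + C') * Real.exp (2 * Real.pi * κ * |y|) / (1 + x ^ 2) =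
      C * Real.exp (2 * Real.pi * κ * |y|) / (1 + x ^ 2) +
      C' * Real.exp (2 * Real.pi * κ * |y|) / (1 + x ^ 2) := by ring
    rw [e]
    exact add_le_add h1 h2

lemma adm_smul (h : Adm κ ψ) (a : ℝ) : Adm κ (fun x => a * ψ x) := by
  refine ⟨fun x => by rw [h.even], ?_, fun x hx => by rw [h.supp x hx, mul_zero], ?_⟩
  · obtain ⟨K, hK⟩ := h.lip
    refine ⟨|a| * K, fun x y => ?_⟩
    rw [← mul_sub, abs_mul, mul_assoc]
    exact mul_le_mul_of_nonneg_left (hK x y) (abs_nonneg _)
  · obtain ⟨C, hC⟩ := h.dec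
    refine ⟨|a| * C, fun x y => ?_⟩
    rw [FL_smul, norm_mul, Complex.norm_real, Real.norm_eq_abs, mul_assoc, mul_div_assoc]
    exact mul_le_mul_of_nonneg_left (hC x y) (abs_nonneg _)

lemma FL_cos (h : Adm κ ψ) (y : ℝ) (z : ℂ) :
    FL (fun α => Real.cos (2 * Real.pi * y * α) * ψ α) z = (FL ψ (z + y) + FL ψ (z + (-y : ℝ))) / 2 := by
  unfold FL
  rw [← integral_add (int_exp_mul h _) (int_exp_mul h _), ← integral_div]
  refine integral_congr_ae (ae_of_all _ fun α => ?_)
  simp only
  have e1 : ∀ s : ℝ, Complex.exp (2 * Real.pi * Complex.I * α * (z + s)) =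
      Complex.exp (2 * Real.pi * Complex.I * α * z) * Complex.exp (2 * Real.pi * α * s * Complex.I) := by
    intro s
    rw [← Complex.exp_add]
    congr 1
    ring
  rw [e1, e1]
  have e2 : ((Real.cos (2 * Real.pi * y * α) : ℝ) : ℂ) =
      (Complex.exp (2 * Real.pi * α * (y : ℝ) * Complex.I) + Complex.exp (2 * Real.pi * α * (-y : ℝ) * Complex.I)) / 2 := by
    rw [Complex.ofReal_cos, Complex.cos]
    congr 3
    · push_cast
      ring
    · push_cast
      ring
  rw [Complex.ofReal_mul, e2]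
  ring

lemma adm_cos (h : Adm κ ψ) (y : ℝ) : Adm κ (fun α => Real.cos (2 * Real.pi * y * α) * ψ α) := by
  refine ⟨fun x => ?_, ?_, fun x hx => by rw [h.supp x hx, mul_zero], ?_⟩
  · rw [h.even, show 2 * Real.pi * y * -x = -(2 * Real.pi * y * x) by ring, Real.cos_neg]
  · obtain ⟨K, hK⟩ := h.lip
    obtain ⟨M, hM, hM2⟩ := h.bdd
    have hpi := Real.pi_pos
    refine ⟨K + M * (2 * Real.pi * |y|), fun a b => ?_⟩
    have e : Real.cos (2 * Real.pi * y * a) * ψ a - Real.cos (2 * Real.pi * y * b) * ψ b =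
      Real.cos (2 * Real.pi * y * a) * (ψ a - ψ b) +
        (Real.cos (2 * Real.pi * y * a) - Real.cos (2 * Real.pi * y * b)) * ψ b := by ring
    rw [e]
    refine (abs_add_le _ _).trans ?_
    rw [abs_mul, abs_mul]
    have h1 : |Real.cos (2 * Real.pi * y * a)| * |ψ a - ψ b| ≤ 1 * (K * |a - b|) :=
      mul_le_mul (Real.abs_cos_le_one _) (hK a b) (abs_nonneg _) zero_le_one
    have h2 : |Real.cos (2 * Real.pi * y * a) - Real.cos (2 * Real.pi * y * b)| ≤
        2 * Real.pi * |y| * |a - b| := by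
      refine (Real.abs_cos_sub_cos_le _ _).trans (le_of_eq ?_)
      rw [show 2 * Real.pi * y * a - 2 * Real.pi * y * b = 2 * Real.pi * (y * (a - b)) by ring,
        abs_mul (2 * Real.pi) _, abs_of_pos (show 0 < 2 * Real.pi by positivity), abs_mul y _,
        ← mul_assoc]
    have h3 : |Real.cos (2 * Real.pi * y * a) - Real.cos (2 * Real.pi * y * b)| * |ψ b| ≤
        2 * Real.pi * |y| * |a - b| * M :=
      mul_le_mul h2 (hM2 b) (abs_nonneg _) (by positivity)
    linarith
  · obtain ⟨C, hC⟩ := h.dec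
    have hC0 : 0 ≤ C := by
      have := (norm_nonneg _).trans (hC 0 0)
      simpa using this
    refine ⟨C * (2 * (1 + |y| ^ 2)), fun x w => ?_⟩
    rw [FL_cos h]
    have h1 : ∀ s : ℝ, |s| ≤ |y| → ‖FL ψ (x + w * Complex.I + s)‖ ≤
        C * (2 * (1 + |y| ^ 2)) * Real.exp (2 * Real.pi * κ * |w|) / (1 + x ^ 2) := by
      intro s hs
      have h1 := hC (x + s) w
      have h2 : (((x + s : ℝ) : ℂ) + w * Complex.I) = x + w * Complex.I + s := by push_cast; ring
      rw [h2] at h1
      refine h1.trans ?_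
      have h3 := shift_bound (x := x) hs
      calc C * Real.exp (2 * Real.pi * κ * |w|) / (1 + (x + s) ^ 2) =
            C * Real.exp (2 * Real.pi * κ * |w|) * (1 / (1 + (x + s) ^ 2)) := by ring
        _ ≤ C * Real.exp (2 * Real.pi * κ * |w|) * ((2 * (1 + |y| ^ 2)) / (1 + x ^ 2)) := by gcongr
        _ = _ := by ring
    have h2 := h1 y le_rfl
    have h3 := h1 (-y) (by rw [abs_neg])
    rw [norm_div]
    have h4 := norm_add_le (FL ψ (x + w * Complex.I + y)) (FL ψ (x + w * Complex.I + (-y : ℝ)))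
    have h5 : ‖(2 : ℂ)‖ = 2 := by simp
    rw [h5, div_le_iff₀ (by norm_num)]
    linarith

lemma adm_poly (h : Adm κ ψ) (P : Polynomial ℝ) :
    Adm κ (fun α => P.eval (Real.cos (Real.pi * α)) * ψ α) := by
  refine Polynomial.induction_on P (fun a => ?_) (fun p q hp hq => ?_) (fun n a hn => ?_)
  · simp only [Polynomial.eval_C]
    exact adm_smul h a
  · have := adm_add hp hq
    simp only [Polynomial.eval_add, add_mul]
    exact this
  · have h1 := adm_cos hn (1 / 2)
    have e : (fun α => (Polynomial.C a * Polynomial.X ^ (n + 1)).eval (Real.cos (Real.pi * α)) * ψ α) =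
        fun α => Real.cos (2 * Real.pi * (1 / 2) * α) *
          ((Polynomial.C a * Polynomial.X ^ n).eval (Real.cos (Real.pi * α)) * ψ α) := by
      ext α
      rw [show 2 * Real.pi * (1 / 2) * α = Real.pi * α by ring]
      simp only [Polynomial.eval_mul, Polynomial.eval_C, Polynomial.eval_pow, Polynomial.eval_X]
      ring
    rw [e]
    exact h1


/-- continuous even functions are close to polynomials in the cosine -/
lemma poly_near {g : ℝ → ℝ} (hg : Continuous g) (he : ∀ x, g (-x) = g x) {ε : ℝ} (hε : 0 < ε) :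
    ∃ P : Polynomial ℝ, ∀ α : ℝ, |α| ≤ 1 → |P.eval (Real.cos (Real.pi * α)) - g α| ≤ ε := by
  have hpi := Real.pi_pos
  have hc : Continuous fun t : ℝ => g (Real.arccos t / Real.pi) :=
    hg.comp (Real.continuous_arccos.div_const _)
  obtain ⟨P, hP⟩ := exists_polynomial_near_of_continuousOn (-1) 1 _ hc.continuousOn ε hε
  refine ⟨P, fun α hα => ?_⟩
  have h1 : ∀ β : ℝ, 0 ≤ β → β ≤ 1 → |P.eval (Real.cos (Real.pi * β)) - g β| ≤ ε := by
    intro β h0 h1
    have h2 := hP (Real.cos (Real.pi * β)) ⟨Real.neg_one_le_cos _, Real.cos_le_one _⟩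
    rw [Real.arccos_cos (by positivity) (by nlinarith), mul_div_cancel_left₀ _ hpi.ne'] at h2
    exact h2.le
  rcases le_total 0 α with h | h
  · exact h1 α h (by rwa [abs_of_nonneg h] at hα)
  · have h2 := h1 (-α) (by linarith) (by rwa [abs_of_nonpos h] at hα)
    rw [he, mul_neg, Real.cos_neg] at h2
    exact h2

/-- approximation by admissible functions -/
lemma vag_approx (hφ : Continuous φ) (he : ∀ x, φ (-x) = φ x) (hs : ∀ x, 1 ≤ |x| → φ x = 0)
    {ε : ℝ} (hε : 0 < ε) : ∃ κ : ℝ, 0 < κ ∧ κ < 1 ∧ ∃ ψ : ℝ → ℝ, Adm κ ψ ∧ ∀ α, |φ α - ψ α| ≤ ε := by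
  -- dilation
  have hcs : HasCompactSupport φ := by
    refine HasCompactSupport.of_support_subset_isCompact (isCompact_Icc (a := -1) (b := 1)) ?_
    intro x hx
    by_contra hcon
    apply hx
    apply hs
    by_contra h2
    push Not at h2
    exact hcon ⟨(abs_lt.1 h2).1.le, (abs_lt.1 h2).2.le⟩
  have huc : UniformContinuous φ := hcs.uniformContinuous_of_continuous hφ
  rw [Metric.uniformContinuous_iff] at huc
  obtain ⟨δ, hδ, huc⟩ := huc (ε / 2) (by positivity)
  obtain ⟨k, hk⟩ : ∃ k : ℝ, k = 1 + min 1 (δ / 2) := ⟨_, rfl⟩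
  have hk1 : 1 < k := by rw [hk]; have : 0 < min 1 (δ / 2) := lt_min one_pos (by positivity); linarith
  have hk2 : k ≤ 2 := by rw [hk]; have : min 1 (δ / 2) ≤ 1 := min_le_left _ _; linarith
  have hk3 : k - 1 < δ := by rw [hk]; have : min 1 (δ / 2) ≤ δ / 2 := min_le_right _ _; linarith
  have hk0 : 0 < k := by linarith
  have h1 : ∀ α, |φ α - φ (k * α)| ≤ ε / 2 := by
    intro α
    rcases le_or_gt 1 |α| with h | h
    · rw [hs α h, hs (k * α) ?_]
      · simp; positivity
      · rw [abs_mul, abs_of_pos hk0]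
        nlinarith
    · have h2 := huc (a := α) (b := k * α) (by
        rw [Real.dist_eq, show α - k * α = -((k - 1) * α) by ring, abs_neg, abs_mul,
          abs_of_pos (by linarith : 0 < k - 1)]
        nlinarith [abs_nonneg α])
      rw [Real.dist_eq] at h2
      exact h2.le
  -- division by the tent
  obtain ⟨κ, hκ⟩ : ∃ κ : ℝ, κ = (1 + 1 / k) / 2 := ⟨_, rfl⟩
  have hik : 1 / k < 1 := by rw [div_lt_one hk0]; exact hk1
  have hik0 : 0 < 1 / k := by positivity
  have hκ1 : κ < 1 := by rw [hκ]; linarith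
  have hκk : 1 / k < κ := by rw [hκ]; linarith
  have hκ0 : 0 < κ := by linarith
  obtain ⟨c, hc⟩ : ∃ c : ℝ, c = tr κ (1 / k) := ⟨_, rfl⟩
  have hc0 : 0 < c := by
    rw [hc]
    unfold tr
    rw [abs_of_pos hik0]
    apply div_pos _ hκ0
    rw [lt_max_iff]
    right
    have : 1 / k / κ < 1 := by rw [div_lt_one hκ0]; exact hκk
    linarith
  have hmono : ∀ α : ℝ, |α| ≤ 1 / k → c ≤ tr κ α := by
    intro α hα
    rw [hc]
    unfold tr
    rw [abs_of_pos hik0]
    gcongr
  have htc := tr_cont κ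
  have hgc : Continuous fun α => φ (k * α) / max c (tr κ α) := by
    refine Continuous.div (by fun_prop) (by fun_prop) fun α => ?_
    exact (lt_max_of_lt_left hc0).ne'
  have hge : ∀ α, φ (k * -α) / max c (tr κ (-α)) = φ (k * α) / max c (tr κ α) := by
    intro α
    rw [mul_neg, he, tr_even]
  obtain ⟨P, hP⟩ := poly_near hgc hge (ε := ε * κ / 2) (by positivity)
  refine ⟨κ, hκ0, hκ1, _, adm_poly (adm_tr hκ0) P, fun α => ?_⟩
  have h2 : |φ (k * α) - P.eval (Real.cos (Real.pi * α)) * tr κ α| ≤ ε / 2 := by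
    rcases le_or_gt κ |α| with h | h
    · rw [tr_supp hκ0 α h, mul_zero, sub_zero, hs (k * α) ?_]
      · simp; positivity
      · rw [abs_mul, abs_of_pos hk0]
        have : 1 / k ≤ |α| := by linarith
        rw [div_le_iff₀ hk0] at this
        linarith
    · have h3 := hP α (by linarith)
      have h4 : φ (k * α) = φ (k * α) / max c (tr κ α) * tr κ α := by
        rcases le_or_gt |α| (1 / k) with h5 | h5
        · rw [max_eq_right (hmono α h5)]
          have : 0 < tr κ α := hc0.trans_le (hmono α h5)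
          field_simp
        · rw [hs (k * α) ?_]
          · simp
          · rw [abs_mul, abs_of_pos hk0]
            rw [div_lt_iff₀ hk0] at h5
            linarith
      have h5 : φ (k * α) - P.eval (Real.cos (Real.pi * α)) * tr κ α =
        -((P.eval (Real.cos (Real.pi * α)) - φ (k * α) / max c (tr κ α)) * tr κ α) := by
        rw [sub_mul, ← h4]
        ring
      have h6 : |tr κ α| ≤ 1 / κ := by
        rw [abs_of_nonneg (tr_nonneg hκ0 α)]
        unfold tr
        gcongr
        exact max_le zero_le_one (by have : 0 ≤ |α| / κ := by positivity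
                                     linarith)
      rw [h5, abs_neg, abs_mul]
      calc _ ≤ ε * κ / 2 * (1 / κ) := mul_le_mul h3 h6 (abs_nonneg _) (by positivity)
        _ = ε / 2 := by field_simp
  calc |φ α - P.eval (Real.cos (Real.pi * α)) * tr κ α| =
      |(φ α - φ (k * α)) + (φ (k * α) - P.eval (Real.cos (Real.pi * α)) * tr κ α)| := by ring_nf
    _ ≤ |φ α - φ (k * α)| + |φ (k * α) - P.eval (Real.cos (Real.pi * α)) * tr κ α| := abs_add_le _ _
    _ ≤ ε / 2 + ε / 2 := add_le_add (h1 α) h2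
    _ = ε := by ring

/-- a function supported in `[-1, 1]` -/
lemma supp_int {f : ℝ → ℝ} (hf : Continuous f) (hs : ∀ x, 1 ≤ |x| → f x = 0) : Integrable f := by
  refine hf.integrable_of_hasCompactSupport ?_
  refine HasCompactSupport.of_support_subset_isCompact (isCompact_Icc (a := -1) (b := 1)) ?_
  intro x hx
  by_contra hcon
  apply hx
  apply hs
  by_contra h2
  push Not at h2
  exact hcon ⟨(abs_lt.1 h2).1.le, (abs_lt.1 h2).2.le⟩

/-- bound of the integral of a function supported in `[-1, 1]` -/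
lemma supp_bound {f g : ℝ → ℝ} (hg : Continuous g) (hg0 : ∀ x, 0 ≤ g x)
    (hs : ∀ x, 1 ≤ |x| → f x = 0) {ε : ℝ} (h : ∀ x, |f x| ≤ ε) :
    |∫ x, f x * g x| ≤ ε * ∫ x in (-1 : ℝ)..1, g x := by
  have e1 : ∫ x, f x * g x = ∫ x in Ioc (-1 : ℝ) 1, f x * g x := by
    rw [← integral_indicator measurableSet_Ioc]
    refine integral_congr_ae (ae_of_all _ fun x => ?_)
    simp only
    by_cases hx : x ∈ Ioc (-1 : ℝ) 1
    · rw [indicator_of_mem hx]
    · rw [indicator_of_notMem hx, hs x ?_, zero_mul]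
      by_contra h2
      push Not at h2
      exact hx ⟨(abs_lt.1 h2).1, (abs_lt.1 h2).2.le⟩
  rw [e1, ← intervalIntegral.integral_of_le (by norm_num), ← intervalIntegral.integral_const_mul,
    ← Real.norm_eq_abs]
  refine intervalIntegral.norm_integral_le_of_norm_le (by norm_num) (ae_of_all _ fun x _ => ?_)
    ((by fun_prop : Continuous fun x => ε * g x).intervalIntegrable _ _)
  rw [Real.norm_eq_abs, abs_mul, abs_of_nonneg (hg0 x)]
  exact mul_le_mul_of_nonneg_right (h x) (hg0 x)

/-- **Montgomery's theorem as vague convergence on `[-1, 1]`.** -/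
theorem vag (RH : RiemannHypothesis) (hφ : Continuous φ) (he : ∀ x, φ (-x) = φ x)
    (hs : ∀ x, 1 ≤ |x| → φ x = 0) :
    Tendsto (fun T => ∫ α, φ α * Fr T α) atTop (𝓝 (φ 0 + ∫ α, |α| * φ α)) := by
  obtain ⟨C, hC, hM⟩ := M_bdd
  rw [Metric.tendsto_nhds]
  intro ε hε
  obtain ⟨κ, hκ0, hκ1, ψ, hψ, hap⟩ := vag_approx hφ he hs (ε := ε / (2 * (C + 2 + 1)))
    (by positivity)
  obtain ⟨η, hη⟩ : ∃ η : ℝ, η = ε / (2 * (C + 2 + 1)) := ⟨_, rfl⟩
  rw [← hη] at hap
  have hη0 : 0 < η := by rw [hη]; positivity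
  have hηε : η * (C + 2 + 1) = ε / 2 := by rw [hη]; field_simp
  have hψs : ∀ x, 1 ≤ |x| → ψ x = 0 := fun x hx => hψ.supp x (by linarith)
  have hds : ∀ x, 1 ≤ |x| → φ x - ψ x = 0 := fun x hx => by rw [hs x hx, hψs x hx, sub_zero]
  have hlim := Fr_lim hψ.int (fl_qd hψ) le_rfl (test_limRH RH hψ hκ0 hκ1)
  rw [Metric.tendsto_nhds] at hlim
  filter_upwards [hlim (ε / 2) (by positivity), hM, eventually_ge_atTop 10] with T h1 h2 hT
  have hFc := Fr_cont T
  have hψc := hψ.cont
  rw [Real.dist_eq] at h1 ⊢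
  have i1 : Integrable fun α => φ α * Fr T α := supp_int (by fun_prop) fun x hx => by
    rw [hs x hx, zero_mul]
  have i2 : Integrable fun α => ψ α * Fr T α := supp_int (by fun_prop) fun x hx => by
    rw [hψs x hx, zero_mul]
  have i3 : Integrable fun α => |α| * φ α := supp_int (by fun_prop) fun x hx => by
    rw [hs x hx, mul_zero]
  have i4 : Integrable fun α => |α| * ψ α := supp_int (by fun_prop) fun x hx => by
    rw [hψs x hx, mul_zero]
  have b1 : |(∫ α, φ α * Fr T α) - ∫ α, ψ α * Fr T α| ≤ η * C := by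
    rw [← integral_sub i1 i2]
    have e : ∀ α, φ α * Fr T α - ψ α * Fr T α = (φ α - ψ α) * Fr T α := fun α => by ring
    simp_rw [e]
    refine (supp_bound hFc (Fr_nonneg hT) hds hap).trans ?_
    have h3 := h2 1 0 zero_le_one le_rfl
    unfold M at h3
    rw [zero_sub, zero_add] at h3
    gcongr
  have b2 : |(∫ α, |α| * φ α) - ∫ α, |α| * ψ α| ≤ η * 2 := by
    rw [← integral_sub i3 i4]
    have e : ∀ α, |α| * φ α - |α| * ψ α = (φ α - ψ α) * |α| := fun α => by ring
    simp_rw [e]
    refine (supp_bound continuous_abs abs_nonneg hds hap).trans ?_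
    have h3 : ∫ x in (-1 : ℝ)..1, |x| ≤ ∫ x in (-1 : ℝ)..1, (1 : ℝ) := by
      refine intervalIntegral.integral_mono_on (by norm_num)
        (continuous_abs.intervalIntegrable _ _) (continuous_const.intervalIntegrable _ _) fun x hx => ?_
      exact abs_le.2 ⟨hx.1, hx.2⟩
    rw [intervalIntegral.integral_const] at h3
    have h4 : ((1 : ℝ) - -1) • (1 : ℝ) = 2 := by norm_num
    rw [h4] at h3
    gcongr
  have b3 := hap 0
  unfold cc at h1
  rw [abs_le] at b1 b2 b3
  rw [abs_lt] at h1 ⊢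
  constructor <;> nlinarith

end Pool.Agent.K3h84.PC
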